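import Mathlib

section

/-! Antisymmetric cochains with an extension property exist, by counting. -/

namespace Pool.Agent.MP_f49c72_ag.All

open Finset

variable {G : Type} [AddCommGroup G] [Fintype G] [DecidableEq G]

lemma card_col {n m : ℕ} (s : Fin m → Fin n) (α : Fin m → G)
    (h : ∀ i j, s i = s j → α i = α j) :
    ((univ.filter fun col : Fin n → G => ¬ ∀ i, col (s i) = α i).card : ℝ) ≤
      (Fintype.card G : ℝ) ^ n * (1 - ((Fintype.card G : ℝ) ^ m)⁻¹) := by
  classical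
  obtain ⟨β, hβ⟩ : ∃ β : Fin n → G, ∀ i, β (s i) = α i :=
    ⟨fun u => if hu : ∃ i, s i = u then α hu.choose else 0, fun i => by
      have hu : ∃ j, s j = s i := ⟨i, rfl⟩
      simp only [dif_pos hu]
      exact h _ _ hu.choose_spec⟩
  set A := univ.filter fun col : Fin n → G => ∀ i, col (s i) = α i with hA
  have h1 : Fintype.card G ^ n ≤ A.card * Fintype.card G ^ m := by
    have := card_le_card_of_injOn (s := (univ : Finset (Fin n → G)))
      (t := A ×ˢ (univ : Finset (Fin m → G)))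
      (fun col => (fun u => if ∃ i, s i = u then β u else col u, fun i => col (s i)))
      (fun col _ => by simp [hA, hβ]) (fun c1 _ c2 _ e => by
        simp only [Prod.mk.injEq, funext_iff] at e
        funext u
        by_cases hu : ∃ i, s i = u
        · obtain ⟨i, rfl⟩ := hu; exact e.2 i
        · simpa [hu] using e.1 u)
    simpa using this
  have h2 := card_filter_add_card_filter_not (s := (univ : Finset (Fin n → G)))
    (fun col : Fin n → G => ∀ i, col (s i) = α i)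
  rw [← hA] at h2
  have h3 : (0 : ℝ) < (Fintype.card G : ℝ) ^ m := by
    have := Fintype.card_pos (α := G); positivity
  have h4 : ((Fintype.card G : ℝ)) ^ n ≤ A.card * (Fintype.card G : ℝ) ^ m := by exact_mod_cast h1
  have h5 : (A.card : ℝ) + ((univ.filter fun col : Fin n → G => ¬ ∀ i, col (s i) = α i).card : ℝ) =
      (Fintype.card G : ℝ) ^ n := by
    simp only [card_univ, Fintype.card_fun, Fintype.card_fin] at h2
    exact_mod_cast h2
  have h6 : (Fintype.card G : ℝ) ^ n * ((Fintype.card G : ℝ) ^ m)⁻¹ ≤ A.card := by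
    rw [← div_eq_mul_inv, div_le_iff₀ h3]; exact h4
  linarith

lemma card_bad {N m : ℕ} (s : Fin m → Fin (N + m)) (α : Fin m → G)
    (h : ∀ i j, s i = s j → α i = α j) :
    ((univ.filter fun f : Fin (N + m) → Fin (N + m) → G =>
      ∀ r, (∀ i, r ≠ s i) → ¬ ∀ i, f r (s i) - f (s i) r = α i).card : ℝ) ≤
      ((Fintype.card G : ℝ) ^ (N + m)) ^ (N + m) * (1 - ((Fintype.card G : ℝ) ^ m)⁻¹) ^ N := by
  classical
  set S := univ.image s with hS
  set B := univ.filter fun col : Fin (N + m) → G => ¬ ∀ i, col (s i) = α i with hB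
  set Q := (Fintype.card G : ℝ) ^ (N + m) with hQ
  set ρ := 1 - ((Fintype.card G : ℝ) ^ m)⁻¹ with hρ
  have hq : (1 : ℝ) ≤ (Fintype.card G : ℝ) ^ m :=
    one_le_pow₀ (by exact_mod_cast Fintype.card_pos (α := G))
  have hρ0 : 0 ≤ ρ := sub_nonneg.2 (inv_le_one_of_one_le₀ hq)
  have hρ1 : ρ ≤ 1 := by rw [hρ]; have : 0 ≤ ((Fintype.card G : ℝ) ^ m)⁻¹ := by positivity
                         linarith
  have h1 := card_le_card_of_injOn (s := univ.filter fun f : Fin (N + m) → Fin (N + m) → G =>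
      ∀ r, (∀ i, r ≠ s i) → ¬ ∀ i, f r (s i) - f (s i) r = α i)
    (t := Fintype.piFinset fun r => if r ∈ S then univ else B)
    (fun f r u => if r ∉ S ∧ u ∈ S then f r u - f u r else f r u) (fun f hf => by
      simp only [coe_filter, mem_univ, true_and, Set.mem_ofPred_eq] at hf
      simp only [mem_coe, Fintype.mem_piFinset]
      intro r
      by_cases hr : r ∈ S
      · simp [hr]
      · have hr' : ∀ i, r ≠ s i := fun i e => hr (by simp [hS, e])
        have hs : ∀ i, s i ∈ S := fun i => by simp [hS]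
        simpa [hr, hB, hs] using hf r hr') (fun f _ g _ e => by
      have e1 : ∀ r u, r ∈ S → f r u = g r u := fun r u hr => by
        simpa [hr] using congrFun (congrFun e r) u
      funext r u
      by_cases hr : r ∈ S
      · exact e1 r u hr
      by_cases hu : u ∈ S
      · have := congrFun (congrFun e r) u
        simp only [hr, hu, not_false_eq_true, and_self, if_true, e1 u r hu] at this
        exact sub_left_injective this
      · simpa [hu] using congrFun (congrFun e r) u)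
  rw [Fintype.card_piFinset] at h1
  refine (Nat.cast_le.2 h1).trans ?_
  rw [Nat.cast_prod]
  have h2 : ∏ r : Fin (N + m), (((if r ∈ S then univ else B).card : ℕ) : ℝ) ≤
      ∏ r : Fin (N + m), (Q * if r ∈ S then 1 else ρ) := by
    refine prod_le_prod (fun _ _ => by positivity) fun r _ => ?_
    by_cases hr : r ∈ S
    · simp [hr, hQ]
    · rw [if_neg hr, if_neg hr]; exact card_col s α h
  refine h2.trans ?_
  rw [prod_mul_distrib, prod_const, card_univ, Fintype.card_fin, prod_ite, prod_const_one, one_mul,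
    prod_const]
  refine mul_le_mul_of_nonneg_left (pow_le_pow_of_le_one hρ0 hρ1 ?_) (by positivity)
  have h3 := card_filter_add_card_filter_not (s := (univ : Finset (Fin (N + m)))) (· ∈ S)
  have h4 : S.card ≤ m := card_image_le.trans (by simp)
  simp only [filter_mem_eq_inter, univ_inter, card_univ, Fintype.card_fin] at h3
  omega

theorem exists_ext (G : Type) [AddCommGroup G] [Fintype G] [DecidableEq G] (m : ℕ) :
    ∃ (N : ℕ) (c : Fin (N + m) → Fin (N + m) → G), (∀ u v, c v u = - c u v) ∧ (∀ u, c u u = 0) ∧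
      ∀ (s : Fin m → Fin (N + m)) (α : Fin m → G), (∀ i j, s i = s j → α i = α j) →
        ∃ r, (∀ i, r ≠ s i) ∧ ∀ i, c (s i) r = α i := by
  classical
  set q := (Fintype.card G : ℝ) with hq
  set ρ := 1 - (q ^ m)⁻¹ with hρ
  have hq0 : 0 < q := by rw [hq]; exact_mod_cast Fintype.card_pos (α := G)
  have hq1 : (1 : ℝ) ≤ q ^ m := one_le_pow₀ (by rw [hq]; exact_mod_cast Fintype.card_pos (α := G))
  have hρ0 : 0 ≤ ρ := sub_nonneg.2 (inv_le_one_of_one_le₀ hq1)
  have hρ1 : ρ < 1 := by rw [hρ]; have : 0 < (q ^ m)⁻¹ := by positivity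
                         linarith
  obtain ⟨N, hN, hNm⟩ := (((tendsto_pow_const_mul_const_pow_of_abs_lt_one m
    (r := ρ) (by rwa [abs_of_nonneg hρ0])).eventually (gt_mem_nhds
      (show (0 : ℝ) < ((2 * q) ^ m)⁻¹ by positivity))).and (Filter.eventually_ge_atTop m)).exists
  by_contra hcon
  push Not at hcon
  have h1 : (univ : Finset (Fin (N + m) → Fin (N + m) → G)) ⊆
      (univ.filter fun p : (Fin m → Fin (N + m)) × (Fin m → G) =>
        ∀ i j, p.1 i = p.1 j → p.2 i = p.2 j).biUnion fun p =>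
          univ.filter fun f : Fin (N + m) → Fin (N + m) → G =>
            ∀ r, (∀ i, r ≠ p.1 i) → ¬ ∀ i, f r (p.1 i) - f (p.1 i) r = p.2 i := by
    intro f _
    obtain ⟨s, α, h, h'⟩ := hcon N (fun u v => f v u - f u v) (fun u v => by abel) (by simp)
    simp only [mem_biUnion, mem_filter, mem_univ, true_and]
    exact ⟨(s, α), h, fun r hr e => by obtain ⟨i, hi⟩ := h' r hr; exact hi (e i)⟩
  have h2 := (card_le_card h1).trans card_biUnion_le
  have h3 : ((q ^ (N + m)) ^ (N + m) : ℝ) ≤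
      (((N + m : ℕ) : ℝ) ^ m * q ^ m) * ((q ^ (N + m)) ^ (N + m) * ρ ^ N) := by
    have h4 := (Nat.cast_le (α := ℝ)).2 h2
    rw [Nat.cast_sum] at h4
    refine le_trans (le_of_eq (by simp [hq])) (h4.trans ?_)
    refine (sum_le_card_nsmul _ _ _ fun p hp => card_bad p.1 p.2 (mem_filter.1 hp).2).trans ?_
    rw [nsmul_eq_mul]
    refine mul_le_mul_of_nonneg_right ?_ (by positivity)
    have := (Nat.cast_le (α := ℝ)).2 (card_filter_le (univ : Finset
      ((Fin m → Fin (N + m)) × (Fin m → G))) fun p => ∀ i j, p.1 i = p.1 j → p.2 i = p.2 j)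
    simpa [hq] using this
  have h5 : ((N + m : ℕ) : ℝ) ^ m ≤ (2 * N) ^ m := by
    refine pow_le_pow_left₀ (by positivity) ?_ m
    have : (m : ℝ) ≤ N := by exact_mod_cast hNm
    push_cast; linarith
  have h6 : (((N + m : ℕ) : ℝ) ^ m * q ^ m) * ρ ^ N < 1 := by
    have h8 : (2 * q) ^ m * ((N : ℝ) ^ m * ρ ^ N) < 1 := by
      rw [← lt_div_iff₀' (by positivity), one_div]; exact hN
    refine lt_of_le_of_lt ?_ h8
    rw [mul_pow] at h5 ⊢
    calc _ ≤ 2 ^ m * (N : ℝ) ^ m * q ^ m * ρ ^ N := by gcongr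
      _ = _ := by ring
  have h7 : (0 : ℝ) < (q ^ (N + m)) ^ (N + m) := by positivity
  nlinarith

end Pool.Agent.MP_f49c72_ag.All

end

section

/-! A cochain with an extension property and one special edge; its combinatorics. -/

namespace Pool.Agent.MP_f49c72_ag.All

variable {G : Type} [Field G] {V : Type}

def hol (c : V → V → G) (u v w : V) : G := c u v + c v w + c w u

def Rz (c : V → V → G) (u v : V) (δ : G) : Prop := ∃ z, c u z - c v z = δ

structure Ext (c : V → V → G) (ω o : V) : Prop where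
  anti : ∀ u v, c v u = - c u v
  diag : ∀ u, c u u = 0
  ne : ω ≠ o
  theta : ∀ z, c ω z - c o z = 0 ∨ c ω z - c o z = 1
  ext : ∀ (s : Fin 4 → V) (α : Fin 4 → G), (∀ i j, s i = s j → α i = α j) →
    (∀ i j, s i = ω → s j = o → α i - α j = 0 ∨ α i - α j = 1) →
    ∃ r, r ≠ ω ∧ r ≠ o ∧ (∀ i, r ≠ s i) ∧ ∀ i, c (s i) r = α i

theorem exists_Ext (G : Type) [Field G] [Fintype G] [DecidableEq G] :
    ∃ (n : ℕ) (c : Fin n → Fin n → G) (ω o : Fin n), Ext c ω o := by
  obtain ⟨N, c, ha, hd, he⟩ := exists_ext G 6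
  let o : Fin (N + 6) := ⟨0, by omega⟩
  obtain ⟨ω, hω, -⟩ := he (fun _ => o) 0 (by simp)
  have hne : ω ≠ o := hω 0
  let θ : Fin (N + 6) → G := fun v => if c ω v - c o v = 1 then 1 else 0
  have hθ : ∀ v, θ v = 0 ∨ θ v = 1 := fun v => by
    by_cases h : c ω v - c o v = 1 <;> simp [θ, h]
  refine ⟨N + 6, fun u v => if u = ω then (if v = ω then 0 else c o v + θ v) else
    if v = ω then -(c o u + θ u) else c u v, ω, o, fun u v => ?_, fun u => ?_, hne, fun z => ?_,
    fun s α h1 h2 => ?_⟩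
  · by_cases hu : u = ω <;> by_cases hv : v = ω <;> simp [hu, hv, ha u v]
  · by_cases hu : u = ω <;> simp [hu, hd]
  · by_cases hz : z = ω
    · simpa [hz, hne.symm, hd] using hθ o
    · simpa [hz, hne.symm] using hθ z
  · obtain ⟨β, τ, hτ, hβ, hβ'⟩ : ∃ β τ : G, (τ = 0 ∨ τ = 1) ∧ (∀ j, s j = o → α j = β) ∧
        ∀ i, s i = ω → α i = β + τ := by
      by_cases g1 : ∃ j, s j = o <;> by_cases g2 : ∃ i, s i = ω
      · obtain ⟨j, hj⟩ := g1
        obtain ⟨i, hi⟩ := g2
        exact ⟨α j, α i - α j, h2 i j hi hj, fun j' e => h1 _ _ (e.trans hj.symm),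
          fun i' e => by rw [h1 i' i (e.trans hi.symm)]; ring⟩
      · obtain ⟨j, hj⟩ := g1
        exact ⟨α j, 0, Or.inl rfl, fun j' e => h1 _ _ (e.trans hj.symm),
          fun i e => absurd ⟨i, e⟩ g2⟩
      · obtain ⟨i, hi⟩ := g2
        exact ⟨α i, 0, Or.inl rfl, fun j e => absurd ⟨j, e⟩ g1,
          fun i' e => by rw [h1 i' i (e.trans hi.symm)]; ring⟩
      · exact ⟨0, 0, Or.inl rfl, fun j e => absurd ⟨j, e⟩ g1, fun i e => absurd ⟨i, e⟩ g2⟩
    obtain ⟨r, hr, hr'⟩ := he (Fin.cons ω (Fin.cons o s)) (Fin.cons (β + τ) (Fin.cons β α)) (by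
      intro i j
      refine Fin.cases ?_ (fun i => Fin.cases ?_ (fun i => ?_) i) i <;>
        refine Fin.cases ?_ (fun j => Fin.cases ?_ (fun j => ?_) j) j <;>
        simp only [Fin.cons_zero, Fin.cons_succ] <;> intro e
      · trivial
      · exact absurd e hne
      · exact (hβ' _ e.symm).symm
      · exact absurd e.symm hne
      · trivial
      · exact (hβ _ e.symm).symm
      · exact hβ' _ e
      · exact hβ _ e
      · exact h1 _ _ e)
    have r1 : r ≠ ω := hr 0
    have e1 : c ω r = β + τ := hr' 0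
    have e2 : c o r = β := hr' 1
    have e3 : θ r = τ := by
      rcases hτ with rfl | rfl <;> simp [θ, e1, e2]
    refine ⟨r, r1, hr 1, fun i => hr i.succ.succ, fun i => ?_⟩
    by_cases hi : s i = ω
    · simp [hi, r1, e2, e3, hβ' i hi]
    · simpa [hi, r1] using hr' i.succ.succ

variable {c : V → V → G} {ω o : V}

lemma Rz.symm {u v : V} {α β : G} (h : Rz c u v (α - β)) : Rz c v u (β - α) := by
  obtain ⟨z, hz⟩ := h; exact ⟨z, by linear_combination -hz⟩

namespace Ext

lemma ext4 (h : Ext c ω o) {a b d e : V} {α β γ ε : G} (hab : Rz c a b (α - β))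
    (had : Rz c a d (α - γ)) (hae : Rz c a e (α - ε)) (hbd : Rz c b d (β - γ))
    (hbe : Rz c b e (β - ε)) (hde : Rz c d e (γ - ε)) :
    ∃ r, (r ≠ ω ∧ r ≠ o) ∧ (r ≠ a ∧ r ≠ b ∧ r ≠ d ∧ r ≠ e) ∧
      c a r = α ∧ c b r = β ∧ c d r = γ ∧ c e r = ε := by
  have key : ∀ i j, Rz c (![a, b, d, e] i) (![a, b, d, e] j) (![α, β, γ, ε] i - ![α, β, γ, ε] j) := by
    have r0 : ∀ (u : V) (x : G), Rz c u u (x - x) := fun u x => ⟨u, by ring⟩
    intro i j
    fin_cases i <;> fin_cases j <;>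
      first | exact r0 _ _ | assumption | (apply Rz.symm; assumption)
  obtain ⟨r, h1, h2, h3, h4⟩ := h.ext ![a, b, d, e] ![α, β, γ, ε] (fun i j e => by
      obtain ⟨z, hz⟩ := key i j
      rw [e] at hz; linear_combination -hz) (fun i j e1 e2 => by
      obtain ⟨z, hz⟩ := key i j
      rw [e1, e2] at hz; rw [← hz]; exact h.theta z)
  exact ⟨r, ⟨h1, h2⟩, ⟨h3 0, h3 1, h3 2, h3 3⟩, h4 0, h4 1, h4 2, h4 3⟩

lemma rz (h : Ext c ω o) {u v : V} {δ : G} (huv : u ≠ v) (h1 : u = ω → v = o → δ = 0 ∨ δ = 1)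
    (h2 : v = ω → u = o → -δ = 0 ∨ -δ = 1) : Rz c u v δ := by
  obtain ⟨r, -, -, -, h4⟩ := h.ext ![u, v, v, v] ![δ, 0, 0, 0] (fun i j => by
      fin_cases i <;> fin_cases j <;> simp [huv, huv.symm]) (fun i j => by
      fin_cases i <;> fin_cases j <;> simp <;> first | exact h1 | skip
      all_goals (intro e1 e2; simpa [neg_eq_iff_eq_neg] using h2 e1 e2))
  exact ⟨r, by have e0 : c u r = δ := h4 0; have e1 : c v r = 0 := h4 1; rw [e0, e1, sub_zero]⟩

lemma free (h : Ext c ω o) {u v : V} (huv : u ≠ v) (hv : v ≠ ω ∧ v ≠ o) (δ : G) : Rz c u v δ :=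
  h.rz huv (fun _ e => absurd e hv.2) (fun e => absurd e hv.1)

lemma free' (h : Ext c ω o) {u v : V} (huv : u ≠ v) (hu : u ≠ ω ∧ u ≠ o) (δ : G) : Rz c u v δ :=
  h.rz huv (fun e => absurd e hu.1) (fun _ e => absurd e hu.2)

lemma hol_eq (h : Ext c ω o) (u v z : V) : hol c u v z = c u v - (c u z - c v z) := by
  rw [hol, h.anti u z]; ring

lemma hol_swap (h : Ext c ω o) (u v z : V) : hol c v u z = - hol c u v z := by
  rw [h.hol_eq, h.hol_eq, h.anti u v]; ring

lemma hol_self₁ (h : Ext c ω o) (u v : V) : hol c u v u = 0 := by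
  rw [h.hol_eq, h.diag, h.anti u v]; ring

lemma hol_self₂ (h : Ext c ω o) (u v : V) : hol c u v v = 0 := by
  rw [h.hol_eq, h.diag]; ring

lemma exists_fresh (h : Ext c ω o) (u : V) : ∃ r, (r ≠ ω ∧ r ≠ o) ∧ r ≠ u := by
  have r0 : Rz c u u (0 - 0) := ⟨u, by ring⟩
  obtain ⟨r, h1, h2, -⟩ := h.ext4 r0 r0 r0 r0 r0 r0
  exact ⟨r, h1, h2.1⟩

lemma unit_aux (h : Ext c ω o) : ∃ z, hol c ω o z = 1 ∨ hol c ω o z = -1 := by
  have h0 := h.theta o
  rw [h.diag, sub_zero] at h0
  rcases h0 with h0 | h0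
  · obtain ⟨z, hz⟩ := h.rz (δ := 1) h.ne (fun _ _ => Or.inr rfl) (fun e => absurd e.symm h.ne)
    exact ⟨z, Or.inr (by rw [h.hol_eq, h0, hz]; ring)⟩
  · obtain ⟨z, hz⟩ := h.rz (δ := 0) h.ne (fun _ _ => Or.inl rfl) (fun e => absurd e.symm h.ne)
    exact ⟨z, Or.inl (by rw [h.hol_eq, h0, hz]; ring)⟩

/-- every edge lies in a triangle of holonomy `±1`. -/
lemma unit (h : Ext c ω o) {u v : V} (huv : u ≠ v) :
    ∃ z, hol c u v z = 1 ∨ hol c u v z = -1 := by
  by_cases h1 : u = ω ∧ v = o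
  · obtain ⟨rfl, rfl⟩ := h1; exact h.unit_aux
  by_cases h2 : v = ω ∧ u = o
  · obtain ⟨rfl, rfl⟩ := h2
    obtain ⟨z, hz⟩ := h.unit_aux
    exact ⟨z, by rw [h.hol_swap]; rcases hz with e | e <;> simp [e]⟩
  obtain ⟨z, hz⟩ := h.rz (δ := c u v - 1) huv (fun e1 e2 => absurd ⟨e1, e2⟩ h1)
    (fun e1 e2 => absurd ⟨e1, e2⟩ h2)
  exact ⟨z, Or.inl (by rw [h.hol_eq, hz]; ring)⟩

lemma nonflat (h : Ext c ω o) {u v : V} (huv : u ≠ v) : ∃ z, hol c u v z ≠ 0 := by
  obtain ⟨z, hz⟩ := h.unit huv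
  exact ⟨z, by rcases hz with e | e <;> simp [e]⟩

lemma chir (h : Ext c ω o) (z : V) : hol c ω o z = 0 ∨ hol c ω o z = 1 ∨ hol c ω o z = -1 := by
  have h0 := h.theta o
  rw [h.diag, sub_zero] at h0
  rw [h.hol_eq]
  rcases h0 with h0 | h0 <;> rcases h.theta z with e | e <;> simp [h0, e]

lemma two_aux (h : Ext c ω o) {v w : V} (hv : hol c ω o v ≠ 0) (hw : hol c ω o w ≠ 0) :
    hol c ω o v = hol c ω o w := by
  have h0 := h.theta o
  rw [h.diag, sub_zero] at h0
  rw [h.hol_eq] at hv hw ⊢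
  rw [h.hol_eq]
  rcases h0 with h0 | h0 <;> rcases h.theta v with e | e <;> rcases h.theta w with e' | e' <;>
    simp_all

lemma far_aux (h : Ext c ω o) {s t u v : V} {D : G} (h1 : Rz c s u D) (h2 : Rz c s v (D + c u v))
    (h3 : Rz c t u (D - c s t)) (h4 : Rz c t v (D - c s t + c u v)) :
    ∃ r, r ≠ u ∧ r ≠ v ∧ hol c s t r = 0 ∧ hol c u v r = 0 := by
  obtain ⟨r, -, ⟨-, -, r3, r4⟩, e1, e2, e3, e4⟩ := h.ext4 (a := s) (b := t) (d := u) (e := v)
    (α := D) (β := D - c s t) (γ := 0) (ε := - c u v) ⟨t, by rw [h.diag]; ring⟩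
    (by simpa using h1) (by simpa using h2) (by simpa using h3) (by simpa using h4)
    ⟨v, by rw [h.diag]; ring⟩
  exact ⟨r, r3, r4, by rw [h.hol_eq, e1, e2]; ring, by rw [h.hol_eq, e3, e4]; ring⟩

lemma far_sp (h : Ext c ω o) {s t u v : V} (hsv : s ≠ v) (htu : t ≠ u) (htv : t ≠ v)
    (H : (s = ω ∧ u = o) ∨ (s = o ∧ u = ω)) :
    ∃ r, r ≠ u ∧ r ≠ v ∧ hol c s t r = 0 ∧ hol c u v r = 0 := by
  have g : ∀ x, x ≠ s → x ≠ u → x ≠ ω ∧ x ≠ o := by
    intro x h1 h2
    rcases H with ⟨rfl, rfl⟩ | ⟨rfl, rfl⟩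
    · exact ⟨h1, h2⟩
    · exact ⟨h2, h1⟩
  have h2 : Rz c s v (c s u + c u v) := by
    by_cases e : v = u
    · subst e; exact ⟨v, by rw [h.diag]; ring⟩
    · exact h.free hsv (g v hsv.symm e) _
  refine h.far_aux (D := c s u) ⟨u, by rw [h.diag]; ring⟩ h2 ?_ ?_
  · by_cases e : t = s
    · subst e; exact ⟨u, by rw [h.diag, h.diag]⟩
    · exact h.free' htu (g t e htu) _
  · by_cases e : t = s
    · subst e; rw [h.diag, sub_zero]; exact h2
    · exact h.free' htv (g t e htu) _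

/-- two disjoint edges have a common flat apex. -/
lemma far (h : Ext c ω o) {s t u v : V} (hsu : s ≠ u) (hsv : s ≠ v) (htu : t ≠ u) (htv : t ≠ v) :
    ∃ r, r ≠ u ∧ r ≠ v ∧ hol c s t r = 0 ∧ hol c u v r = 0 := by
  by_cases h1 : (s = ω ∧ u = o) ∨ (s = o ∧ u = ω)
  · exact h.far_sp hsv htu htv h1
  by_cases h2 : (s = ω ∧ v = o) ∨ (s = o ∧ v = ω)
  · obtain ⟨r, a, b, d, e⟩ := h.far_sp hsu htv htu h2
    exact ⟨r, b, a, d, by rw [h.hol_swap, e, neg_zero]⟩
  by_cases h3 : (t = ω ∧ u = o) ∨ (t = o ∧ u = ω)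
  · obtain ⟨r, a, b, d, e⟩ := h.far_sp htv hsu hsv h3
    exact ⟨r, a, b, by rw [h.hol_swap, d, neg_zero], e⟩
  by_cases h4 : (t = ω ∧ v = o) ∨ (t = o ∧ v = ω)
  · obtain ⟨r, a, b, d, e⟩ := h.far_sp htu hsv hsu h4
    exact ⟨r, b, a, by rw [h.hol_swap, d, neg_zero], by rw [h.hol_swap, e, neg_zero]⟩
  exact h.far_aux (D := 0) (h.rz hsu (by tauto) (by tauto)) (h.rz hsv (by tauto) (by tauto))
    (h.rz htu (by tauto) (by tauto)) (h.rz htv (by tauto) (by tauto))

section conn

variable (h : Ext c ω o) {u t : V} (R : G → G → Prop) (Z : V → Prop)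
  (step : ∀ v a, v ≠ u → hol c u t a ≠ 0 → hol c t v a = 0 →
    (hol c u t v = hol c u t a ∨ R (hol c u t v) (hol c u t a)) → Z a → Z v)
include h step

lemma link {v w : V} (hv : hol c u t v ≠ 0) (hw : hol c u t w ≠ 0)
    (hR : hol c u t v = hol c u t w ∨ R (hol c u t v) (hol c u t w)) (hZ : Z w) : Z v := by
  obtain ⟨w', g1, ⟨-, g2, -⟩, e1, e2, e3, -⟩ := h.ext4 (a := t) (b := u) (d := w) (e := w)
    (α := c t w) (β := c u w) (γ := c w w) (ε := c w w) ⟨w, rfl⟩ ⟨w, rfl⟩ ⟨w, rfl⟩ ⟨w, rfl⟩ ⟨w, rfl⟩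
    ⟨w, rfl⟩
  have a1 : hol c u t w' = hol c u t w := by rw [h.hol_eq, h.hol_eq, e1, e2]
  have z1 : Z w' := step w' w g2 hw (by rw [h.hol_eq, e1, h.anti w w', e3, h.diag]; ring)
    (Or.inl a1) hZ
  obtain ⟨v', -, ⟨-, g3, -⟩, f1, f2, f3, f4⟩ := h.ext4 (a := t) (b := u) (d := v) (e := w')
    (α := 0) (β := c u v - c t v) (γ := c v t) (ε := c w' t) ⟨v, by ring⟩
    ⟨t, by rw [h.diag]⟩ ⟨t, by rw [h.diag]⟩ ⟨v, by rw [h.diag, h.anti t v]; ring⟩
    (h.free g2.symm g1 _) ⟨t, rfl⟩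
  have a2 : hol c u t v' = hol c u t v := by rw [h.hol_eq, h.hol_eq, f1, f2]; ring
  have z2 : Z v' := step v' w' g3 (a1 ▸ hw)
    (by rw [h.hol_eq, f1, h.anti w' v', f4, h.anti w' t]; ring) (by rwa [a1, a2]) z1
  exact step v v' (fun e => hv (by rw [e, h.hol_self₁])) (a2 ▸ hv)
    (by rw [h.hol_eq, f1, f3, h.anti v t]; ring) (Or.inl a2.symm) z2

lemma conn [Fintype G] (hG : 3 < Fintype.card G) (hut : u ≠ t)
    (hR : ∀ x y y', ¬ R x y → ¬ R x y' → y = y') (hs : ∀ x y, R x y → R y x) {v w : V}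
    (hv : hol c u t v ≠ 0) (hw : hol c u t w ≠ 0) (hZ : Z w) : Z v := by
  classical
  by_cases h0 : hol c u t v = hol c u t w ∨ R (hol c u t v) (hol c u t w)
  · exact h.link R Z step hv hw h0 hZ
  push Not at h0
  obtain ⟨γ, g0, g1, g2⟩ : ∃ γ : G, γ ≠ 0 ∧ γ ≠ hol c u t v ∧ γ ≠ hol c u t w := by
    by_contra hn
    have : (Finset.univ : Finset G) ⊆ {0, hol c u t v, hol c u t w} := fun γ _ => by
      simp only [Finset.mem_insert, Finset.mem_singleton]
      by_contra e
      exact hn ⟨γ, by tauto⟩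
    have := (Finset.card_le_card this).trans Finset.card_le_three
    rw [Finset.card_univ] at this
    omega
  obtain ⟨z, hz⟩ := h.rz (δ := c u t - γ) hut
    (by rintro rfl rfl; exact absurd (h.two_aux hv hw) h0.1)
    (by
      rintro rfl rfl
      rw [h.hol_swap] at hv hw
      exact absurd (by rw [h.hol_swap, h.hol_swap _ _ w, h.two_aux (neg_ne_zero.1 hv)
        (neg_ne_zero.1 hw)]) h0.1)
  have e : hol c u t z = γ := by rw [h.hol_eq, hz]; ring
  refine h.link R Z step hv (e ▸ g0) (Or.inr ?_) (h.link R Z step (e ▸ g0) hw (Or.inr ?_) hZ)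
  · rw [e]; by_contra n; exact g2 (hR _ _ _ n h0.2)
  · rw [e]; by_contra n
    exact g1 (hR _ _ _ (fun a => n (hs _ _ a)) (fun a => h0.2 (hs _ _ a)))

end conn

end Ext

end Pool.Agent.MP_f49c72_ag.All

end

section

/-! Vanishing of twisted cohomology of the complex of flat triangles. -/

namespace Pool.Agent.MP_f49c72_ag.All

variable {G : Type} [Field G] {V : Type} {k : Type*} [Field k]

/-- standing assumptions on the group, the field and the character. -/
structure GoodChar [Fintype G] (χ : AddChar G k) : Prop where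
  two : (2 : G) ≠ 0
  three : (3 : G) ≠ 0
  five : (5 : G) ≠ 0
  seven : (7 : G) ≠ 0
  big : 3 < Fintype.card G
  card : (Fintype.card G : k) ≠ 0
  inj : ∀ x, χ x = 1 → x = 0

variable {χ : AddChar G k}

lemma chi_mul_neg (x : G) : χ x * χ (-x) = 1 := by
  rw [← AddChar.map_add_eq_mul]; simp

lemma chi_ne (x : G) : χ x ≠ 0 := left_ne_zero_of_mul_eq_one (chi_mul_neg x)

lemma chi_mul {x y z : G} (h : x + y = z) : χ x * χ y = χ z := by
  rw [← h, AddChar.map_add_eq_mul]

variable [Fintype G] {c : V → V → G} {ω o : V}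

lemma GoodChar.injective (h : GoodChar χ) {x y : G} (hxy : χ x = χ y) : x = y := by
  have : χ (x - y) = 1 := by
    rw [sub_eq_add_neg, AddChar.map_add_eq_mul, hxy, chi_mul_neg]
  exact sub_eq_zero.1 (h.inj _ this)

lemma Ext.h0 (h : Ext c ω o) (hχ : GoodChar χ) {w : G} (hw : w ≠ 0) (μ : V → k)
    (hμ : ∀ u v, μ v = χ (w * c u v) * μ u) (u : V) : μ u = 0 := by
  obtain ⟨v, -, hv⟩ := h.exists_fresh u
  obtain ⟨z, hz⟩ := h.nonflat hv.symm
  by_contra h0
  refine mul_ne_zero hw hz (hχ.inj _ (mul_right_cancel₀ h0 ?_))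
  have e := hμ z u
  rw [hμ v z, hμ u v, ← mul_assoc, ← mul_assoc, chi_mul rfl, chi_mul rfl] at e
  rw [one_mul]
  convert e.symm using 3
  unfold hol; ring

omit [Fintype G] in
lemma Ext.gauge (h : Ext c ω o) (p a b d : V) {α β γ : G} (ha : ∃ z, hol c p a z = α)
    (hb : ∃ z, hol c p b z = β) (hd : ∃ z, hol c p d z = γ)
    (hab : ∃ z, hol c p a z - hol c p b z = α - β) (had : ∃ z, hol c p a z - hol c p d z = α - γ)
    (hbd : ∃ z, hol c p b z - hol c p d z = β - γ) :
    ∃ r, r ≠ p ∧ hol c p a r = α ∧ hol c p b r = β ∧ hol c p d r = γ := by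
  simp only [h.hol_eq] at *
  have g1 : ∀ {a : V} {α : G}, (∃ z, c p a - (c p z - c a z) = α) → Rz c p a (0 - (α - c p a)) :=
    fun ⟨z, hz⟩ => ⟨z, by linear_combination -hz⟩
  have g2 : ∀ {a b : V} {α β : G}, (∃ z, c p a - (c p z - c a z) - (c p b - (c p z - c b z)) =
      α - β) → Rz c a b ((α - c p a) - (β - c p b)) := fun ⟨z, hz⟩ => ⟨z, by linear_combination hz⟩
  obtain ⟨r, -, ⟨r1, -⟩, e0, e1, e2, e3⟩ := h.ext4 (g1 ha) (g1 hb) (g1 hd) (g2 hab) (g2 had) (g2 hbd)
  exact ⟨r, r1, by rw [e0, e1]; ring, by rw [e0, e2]; ring, by rw [e0, e3]; ring⟩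

lemma Ext.h1 (h : Ext c ω o) (hχ : GoodChar χ) (w : G) (f : V → V → k)
    (hf : ∀ u v t, hol c u v t = 0 → f u t = f u v + χ (w * c u v) * f v t) :
    ∃ b : V → k, ∀ u v, f u v = b u - χ (w * c u v) * b v := by
  obtain ⟨p, hp, -⟩ := h.exists_fresh o
  have d0 : ∀ u, f u u = 0 := fun u => by
    have := hf u u u (h.hol_self₁ u u)
    rw [h.diag] at this; simpa using this
  have an : ∀ u v, f u v + χ (w * c u v) * f v u = 0 := fun u v => by
    rw [← hf u v u (h.hol_self₁ u v), d0]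
  obtain ⟨F, hF⟩ : ∃ F : V → V → k, ∀ u v, F u v =
      f p u + χ (w * c p u) * f u v + χ (w * (c p u + c u v)) * f v p := ⟨_, fun _ _ => rfl⟩
  have hh : ∀ u v t, hol c u v t = hol c p u v + hol c p v t - hol c p u t := fun u v t => by
    simp only [hol, h.anti p, h.anti u t]; ring
  have hp0 : ∀ u, hol c p u p = 0 := h.hol_self₁ p
  have hu0 : ∀ u, hol c p u u = 0 := h.hol_self₂ p
  have hs : ∀ u v, hol c p v u = - hol c p u v := fun u v => by
    have := hh u v u
    rw [h.hol_self₁, hu0] at this; linear_combination -this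
  have F1 : ∀ u v t, hol c p u t = hol c p u v + hol c p v t →
      F u t = F u v + χ (w * hol c p u v) * F v t := by
    intro u v t e
    have e0 : hol c u v t = 0 := by rw [hh, e]; ring
    have e1 : c u t = c u v + c v t := by rw [h.hol_eq] at e0; linear_combination -e0
    have e2 : χ (w * hol c p u v) = χ (w * (c p u + c u v)) * χ (w * c v p) :=
      (chi_mul (by unfold hol; ring)).symm
    have e3 : χ (w * hol c p u v) * χ (w * c p v) = χ (w * c p u) * χ (w * c u v) := by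
      rw [chi_mul rfl, chi_mul rfl, hol, h.anti p v]; congr 1; ring
    have e4 : χ (w * hol c p u v) * χ (w * (c p v + c v t)) = χ (w * (c p u + c u t)) :=
      chi_mul (by rw [e1, hol, h.anti p v]; ring)
    rw [hF, hF, hF, hf u v t e0, ← e4]
    linear_combination - χ (w * (c p u + c u v)) * an v p - f v t * e3 - f p v * e2
  have F0 : ∀ u v, hol c p u v = 0 → F u v = 0 := by
    intro u v e
    have e1 : c p u + c u v = c p v := by rw [h.hol_eq] at e; linear_combination e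
    rw [hF, ← hf p u v e, e1, an]
  have A1 : ∀ u u' v, hol c p u v = hol c p u' v → F u v = F u' v := by
    intro u u' v e
    obtain ⟨r, -, e1, e2, e3⟩ := h.gauge p u u' v (α := 0) (β := 0) (γ := hol c p v u) ⟨p, hp0 u⟩
      ⟨p, hp0 u'⟩ ⟨u, rfl⟩ ⟨p, by rw [hp0, hp0]⟩ ⟨u, by rw [hu0]⟩ ⟨u', by rw [hu0, hs u' v, hs u v, e]⟩
    rw [F1 u r v (by rw [e1, hs v r, e3, hs u v]; ring),
      F1 u' r v (by rw [e2, hs v r, e3, hs u v, e]; ring), F0 u r e1, F0 u' r e2, e1, e2]
  have A2 : ∀ u v v', hol c p u v = hol c p u v' → F u v = F u v' := by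
    intro u v v' e
    obtain ⟨r, -, e1, e2, e3⟩ := h.gauge p v v' u (α := 0) (β := 0) (γ := hol c p u v) ⟨p, hp0 v⟩
      ⟨p, hp0 v'⟩ ⟨v, rfl⟩ ⟨p, by rw [hp0, hp0]⟩ ⟨v, by rw [hu0]⟩ ⟨v', by rw [hu0, e]⟩
    have g1 := F1 u v r (by rw [e1, e3]; ring)
    have g2 := F1 u v' r (by rw [e2, e3, e]; ring)
    rw [F0 v r e1] at g1
    rw [F0 v' r e2] at g2
    linear_combination g2 - g1
  have B : ∀ u v u' v', hol c p u v = hol c p u' v' → F u v = F u' v' := by
    intro u v u' v' e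
    obtain ⟨r, -, e1, e2, -⟩ := h.gauge p u u' u' (α := hol c p u v) (β := hol c p u v)
      (γ := hol c p u v) ⟨v, rfl⟩ ⟨v', e.symm⟩ ⟨v', e.symm⟩ ⟨p, by simp [hp0]⟩ ⟨p, by simp [hp0]⟩
      ⟨p, by simp⟩
    rw [A2 u v r e1.symm, A1 u u' r (e1.trans e2.symm), A2 u' r v' (e2.trans e)]
  have real : ∀ v, v ≠ p → ∀ x, ∃ z, z ≠ p ∧ hol c p v z = x := by
    intro v hv x
    obtain ⟨z, hz⟩ := h.free' hv.symm hp (c p v - x)
    have : ∃ z, hol c p v z = x := ⟨z, by rw [h.hol_eq, hz]; ring⟩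
    obtain ⟨r, r1, e, -⟩ := h.gauge p v v v this this this ⟨p, by simp⟩ ⟨p, by simp⟩ ⟨p, by simp⟩
    exact ⟨r, r1, e⟩
  obtain ⟨u0, -, hu⟩ := h.exists_fresh p
  choose e he he' using real u0 hu
  have cr : ∀ x y, F u0 (e (x + y)) = F u0 (e x) + χ (w * x) * F u0 (e y) := by
    intro x y
    obtain ⟨z, -, hz⟩ := real (e x) (he x) y
    obtain ⟨r, -, e1, e2, -⟩ := h.gauge p u0 (e x) (e x) (α := x + y) (β := y) (γ := y)
      ⟨_, he' _⟩ ⟨z, hz⟩ ⟨z, hz⟩ ⟨e x, by rw [he', hu0]; ring⟩ ⟨e x, by rw [he', hu0]; ring⟩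
      ⟨p, by simp⟩
    rw [B u0 (e (x + y)) u0 r (by rw [he', e1]), F1 u0 (e x) r (by rw [e1, e2, he']), he',
      B (e x) r u0 (e y) (by rw [he', e2])]
  obtain ⟨β, hβ⟩ : ∃ β : k, ∀ x, F u0 (e x) = β - χ (w * x) * β := by
    refine ⟨(∑ y, F u0 (e y)) / Fintype.card G, fun x => ?_⟩
    have := Equiv.sum_comp (Equiv.addLeft x) fun y => F u0 (e y)
    simp only [Equiv.coe_addLeft, cr, Finset.sum_add_distrib, Finset.sum_const, Finset.card_univ,
      nsmul_eq_mul, ← Finset.mul_sum] at this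
    have hc := hχ.card
    field_simp
    linear_combination this
  refine ⟨fun u => χ (w * c u p) * (β - f p u), fun u v => ?_⟩
  have g := hβ (hol c p u v)
  rw [B u0 _ u v (he' _), hF] at g
  have e1 : χ (w * c u p) * χ (w * c p u) = 1 := by
    rw [chi_mul rfl, h.anti p u]; simp
  have e2 : χ (w * c u p) * χ (w * (c p u + c u v)) = χ (w * c u v) :=
    chi_mul (by rw [h.anti p u]; ring)
  have e3 : χ (w * c u p) * χ (w * hol c p u v) = χ (w * c u v) * χ (w * c v p) := by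
    rw [chi_mul rfl, chi_mul rfl, hol, h.anti p u]; congr 1; ring
  linear_combination χ (w * c u p) * g - f u v * e1 - f v p * e2 - β * e3 -
    χ (w * c u v) * an v p

/-- the row weights `0, 1, 3`. -/
def ew (G : Type) [Field G] : Fin 3 → G := ![0, 1, 3]

omit [Fintype G] in
@[simp] lemma ew_zero : ew G 0 = 0 := rfl
omit [Fintype G] in
@[simp] lemma ew_one : ew G 1 = 1 := rfl
omit [Fintype G] in
@[simp] lemma ew_two : ew G 2 = 3 := rfl

lemma GoodChar.ew_ne (h : GoodChar χ) {i j : Fin 3} (hij : i ≠ j) : ew G j - ew G i ≠ 0 := by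
  have h2 := h.two
  have h3 := h.three
  fin_cases i <;> fin_cases j <;> simp at hij ⊢ <;> intro e
  all_goals first | exact h2 (by linear_combination e) | exact h2 (by linear_combination -e) |
    exact h3 (by linear_combination e)

lemma GoodChar.ew_ne' (h : GoodChar χ) {i j l : Fin 3} (hij : i ≠ j) (hil : i ≠ l) (hjl : j ≠ l) :
    ew G j + ew G l - 2 * ew G i ≠ 0 := by
  have h4 := mul_ne_zero h.two h.two
  have h5 := h.five
  fin_cases i <;> fin_cases j <;> fin_cases l <;> simp at hij hil hjl ⊢ <;> intro e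
  all_goals first | exact h4 (by linear_combination e) | exact h5 (by linear_combination -e) |
    exact one_ne_zero (α := G) (by linear_combination e)

lemma GoodChar.chir (h : GoodChar χ) {J x y : G} (hJ : J ≠ 0) (hx : x ≠ 0) (ρ : Fin 3 → Fin 3)
    (hρ : Function.Injective ρ)
    (H : ∀ i j, J * ((ew G j - ew G i) * x) = (ew G (ρ j) - ew G (ρ i)) * y) : y = J * x := by
  have h8 := mul_ne_zero h.two (mul_ne_zero h.two h.two)
  have e1 := H 0 1
  have e2 := H 0 2
  have n01 := hρ.ne (show (0 : Fin 3) ≠ 1 by decide)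
  have n02 := hρ.ne (show (0 : Fin 3) ≠ 2 by decide)
  have n12 := hρ.ne (show (1 : Fin 3) ≠ 2 by decide)
  have hy : y ≠ 0 := by
    rintro rfl
    exact mul_ne_zero hJ hx (by simpa using e1)
  generalize ρ 0 = a at *
  generalize ρ 1 = b at *
  generalize ρ 2 = d at *
  fin_cases a <;> fin_cases b <;> fin_cases d <;> simp at n01 n02 n12 <;>
    simp only [ew_zero, ew_one, ew_two, Fin.zero_eta, Fin.mk_one, Fin.reduceFinMk] at e1 e2
  · linear_combination -e1
  · exact absurd (by linear_combination 3 * e1 - e2) (mul_ne_zero h8 hy).symm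
  · exact absurd (by linear_combination e2 - 3 * e1) (mul_ne_zero h.five hy).symm
  · exact absurd (by linear_combination 3 * e1 - e2) (mul_ne_zero h.seven hy).symm
  · exact absurd (by linear_combination e2 - 3 * e1) (mul_ne_zero h.seven hy).symm
  · exact absurd (by linear_combination e2 - 3 * e1) (mul_ne_zero h.three hy).symm

end Pool.Agent.MP_f49c72_ag.All

end

section

/-! No linear substitution carries the conjugate quadrics to the original ones. -/

namespace Pool.Agent.MP_f49c72_ag.All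

variable {K : Type*} [Field K] {G : Type} [Field G] {V : Type}

/-- twisted alternating matrices. -/
def Sk (χ : AddChar G K) (c : V → V → G) (w : G) (M : V → V → K) : Prop :=
  (∀ s, M s s = 0) ∧ ∀ s t, M s t = - (χ (w * c s t) * M t s)

/-- a block of the product of two linear forms. -/
def blk (n m : Fin 3) (y y' : Fin 3 × V → K) (s t : V) : K :=
  y (n, s) * y' (m, t) + y' (n, s) * y (m, t)

variable {χ : AddChar G K} {c : V → V → G} {ω o : V} {w : G}

lemma Sk.dom {M : V → V → K} (h : Sk χ c w M) (P : V → Prop) {a b : V → K}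
    (e : ∀ s t, P s → P t → M s t = a s * b t) {s : V} (hs : P s) (ha : a s ≠ 0) (t : V)
    (ht : P t) : b t = 0 := by
  have h1 : b s = 0 := (mul_eq_zero.1 ((e s s hs hs).symm.trans (h.1 s))).resolve_left ha
  have := h.2 s t
  rw [e s t hs ht, e t s ht hs, h1, mul_zero, mul_zero, neg_zero] at this
  exact (mul_eq_zero.1 this).resolve_left ha

lemma Sk.sum {ι : Type} [Fintype ι] {M : ι → V → V → K} (h : ∀ i, Sk χ c w (M i)) (l : ι → K) :
    Sk χ c w fun s t => ∑ i, l i * M i s t := by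
  refine ⟨fun s => by simp [fun i => (h i).1 s], fun s t => ?_⟩
  rw [Finset.mul_sum, ← Finset.sum_neg_distrib]
  exact Finset.sum_congr rfl fun i _ => by rw [(h i).2 s t]; ring

lemma Ext.third (h : Ext c ω o) (a b : V) : ∃ r, r ≠ a ∧ r ≠ b := by
  obtain ⟨r, -, ⟨r1, r2, -⟩, -⟩ := h.ext4 (a := a) (b := b) (d := b) (e := b) (α := c a a)
    (β := c b a) (γ := c b a) (ε := c b a) ⟨a, rfl⟩ ⟨a, rfl⟩ ⟨a, rfl⟩ ⟨a, rfl⟩ ⟨a, rfl⟩ ⟨a, rfl⟩
  exact ⟨r, r1, r2⟩

variable [Fintype G] [Fintype V] [DecidableEq V]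

omit [Fintype V] in
lemma point (h : Ext c ω o) (hχ : GoodChar χ) (hw : w ≠ 0) {a b : V → K} {x : V} (ha : a x ≠ 0)
    (hb : b ≠ 0) (H : ∀ r, ∃ z : V → K,
      Sk χ c w fun s t => a s * z t - (if s = r then 1 else 0) * b t) :
    (∀ s, s ≠ x → a s = 0) ∧ ∀ s, s ≠ x → b s = 0 := by
  have K1 : ∀ r s, s ≠ r → a s ≠ 0 → ∃ ζ, ζ ≠ 0 ∧ ∀ v, b v = χ (w * c r v) * a v * ζ := by
    intro r s hs hs'
    obtain ⟨z, hz⟩ := H r
    have h1 := hz.dom (· ≠ r) (a := a) (b := z) (fun s t e _ => by simp [e]) hs hs'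
    have h2 : ∀ v, b v = χ (w * c r v) * a v * z r := by
      intro v
      by_cases e : v = r
      · have := hz.1 r
        simp only [if_true] at this
        rw [e, h.diag, mul_zero, AddChar.map_zero_eq_one]; linear_combination -this
      · have := hz.2 r v
        simp only [if_true, if_neg e, h1 v e] at this
        linear_combination -this
    exact ⟨z r, fun e => hb (funext fun v => by simp [h2 v, e]), h2⟩
  have h1 : ∀ s, s ≠ x → a s = 0 := by
    intro s hs
    by_contra hs'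
    obtain ⟨r, hr⟩ := h.nonflat hs.symm
    obtain ⟨ζ, n0, e0⟩ := K1 x s hs hs'
    obtain ⟨ζ', n1, e1⟩ := K1 r x (fun e => hr (by rw [← e, h.hol_self₁])) ha
    have a1 := (e0 x).symm.trans (e1 x)
    have a2 := (e0 s).symm.trans (e1 s)
    rw [h.diag, mul_zero, AddChar.map_zero_eq_one] at a1
    have : χ (w * c x s + w * c r x) = χ (w * c r s) := by
      rw [AddChar.map_add_eq_mul]
      apply mul_right_cancel₀ (mul_ne_zero (mul_ne_zero ha hs') n1)
      linear_combination a x * a2 - χ (w * c x s) * a s * a1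
    refine mul_ne_zero hw hr ?_
    rw [hol, h.anti r s]; linear_combination hχ.injective this
  refine ⟨h1, fun s hs => ?_⟩
  obtain ⟨r, -, hr⟩ := h.exists_fresh x
  obtain ⟨ζ, -, e0⟩ := K1 r x hr.symm ha
  rw [e0, h1 s hs]; ring

lemma one_block (h : Ext c ω o) (hχ : GoodChar χ) {y : V → Fin 3 × V → K}
    (hy : LinearIndependent K y)
    (H : ∀ u v n m, n ≠ m → Sk χ c (ew G m - ew G n) (blk n m (y u) (y v))) {n m : Fin 3}
    {u s u' s' : V} (h1 : y u (n, s) ≠ 0) (h2 : y u' (m, s') ≠ 0) : n = m := by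
  by_contra hnm
  have H1 : ∀ (l : V → K) v n m, n ≠ m →
      Sk χ c (ew G m - ew G n) (blk n m (∑ u, l u • y u) (y v)) := by
    intro l v n m hnm
    convert Sk.sum (fun u => H u v n m hnm) l using 3
    simp [blk, Finset.sum_mul, Finset.mul_sum, mul_add, Finset.sum_add_distrib, mul_assoc,
      mul_left_comm]
  have H2 : ∀ (l l' : V → K),
      Sk χ c (ew G m - ew G n) (blk n m (∑ u, l u • y u) (∑ u, l' u • y u)) := by
    intro l l'
    generalize hY : ∑ u, l u • y u = Y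
    convert Sk.sum (fun v => hY ▸ H1 l v n m hnm) l' using 3
    simp [blk, Finset.sum_mul, Finset.mul_sum, mul_add, Finset.sum_add_distrib, mul_assoc,
      mul_left_comm]
  have inj : ∀ {n u s}, y u (n, s) ≠ 0 → ∀ l : V → K, (∀ t, (∑ u, l u • y u) (n, t) = 0) →
      ∑ u, l u • y u = 0 := by
    intro n u s h1 l hl
    funext ⟨m, t⟩
    by_cases e : n = m
    · rw [← e]; exact hl t
    · exact (H1 l u n m e).dom (fun _ => True) (a := fun s => y u (n, s))
        (b := fun t => (∑ u, l u • y u) (m, t)) (fun s t _ _ => by rw [blk, hl]; ring) trivial h1 t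
        trivial
  let P : (V → K) →ₗ[K] (V → K) :=
    (LinearMap.funLeft K K fun t => (n, t)) ∘ₗ Fintype.linearCombination K y
  have hP : ∀ l t, P l t = (∑ u, l u • y u) (n, t) := fun _ _ => rfl
  have hs : Function.Surjective P := by
    rw [← LinearMap.injective_iff_surjective, ← LinearMap.ker_eq_bot, LinearMap.ker_eq_bot']
    exact fun l hl => funext
      (Fintype.linearIndependent_iff.1 hy l (inj h1 l fun t => congrFun hl t))
  choose l hl using fun r => hs fun s => if s = r then 1 else 0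
  obtain ⟨T, hT⟩ : ∃ T : V → V → K, ∀ r t, T r t = (∑ u, l r u • y u) (m, t) :=
    ⟨_, fun _ _ => rfl⟩
  have hM : ∀ r r', Sk χ c (ew G m - ew G n) fun s t =>
      (if s = r then 1 else 0) * T r' t + (if s = r' then 1 else 0) * T r t := by
    intro r r'
    convert H2 (l r) (l r') using 3
    rw [blk, ← hP, ← hP, hl, hl, hT, hT]
  have hT0 : ∀ r t, t ≠ r → T r t = 0 := by
    intro r' t ht
    obtain ⟨r, r1, r2⟩ := h.third r' t
    simpa [r1, r2.symm, ht] using (hM r r').2 r t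
  have hT1 := h.h0 hχ (hχ.ew_ne hnm) (fun r => T r r) (fun r r' => by
    by_cases e : r = r'
    · simp [e, h.diag]
    · have a1 := (hM r r').2 r r'
      have a2 := (hM r r).1 r
      simp only [if_true, if_neg e, if_neg (Ne.symm e)] at a1 a2
      linear_combination a1 - χ ((ew G m - ew G n) * c r r') * a2)
  have := inj h2 (l s) fun t => by
    rw [← hT]
    by_cases e : t = s
    · rw [e]; exact hT1 s
    · exact hT0 s t e
  have e := congrFun (hl s) s
  rw [hP, this] at e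
  simp at e

theorem no_iso (h : Ext c ω o) (hχ : GoodChar χ) {J : G} (hJ0 : J ≠ 0) (hJ1 : J ≠ 1)
    (hJ2 : J ≠ -1) (g : Fin 3 × V → Fin 3 × V → K) (hli : LinearIndependent K g)
    (hsp : ∀ y, ∃ l : Fin 3 × V → K, y = ∑ b, l b • g b)
    (hm : ∀ i u v n m, n ≠ m → Sk χ c (ew G m - ew G n) (blk n m (g (i, u)) (g (i, v))))
    (hq : ∀ i j, i ≠ j → ∀ u v n m, n ≠ m → Sk χ c (ew G m - ew G n) fun s t =>
      χ (J * (ew G j * c u v)) * blk n m (g (i, u)) (g (j, v)) s t -
        χ (J * (ew G i * c u v)) * blk n m (g (j, u)) (g (i, v)) s t) : False := by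
  have hne : ∀ a, ∃ b, g a b ≠ 0 := fun a => Function.ne_iff.1 (hli.ne_zero a)
  have hcol : ∀ b, ∃ a, g a b ≠ 0 := by
    intro b
    by_contra e
    push Not at e
    obtain ⟨l, hl⟩ := hsp 1
    simpa [e] using congrFun hl b
  obtain ⟨ρ, hρ⟩ : ∃ ρ : Fin 3 → Fin 3, ∀ i u m s, m ≠ ρ i → g (i, u) (m, s) = 0 := by
    choose b hb using fun i => hne (i, o)
    refine ⟨fun i => (b i).1, fun i u m s e => ?_⟩
    by_contra e'
    exact e (one_block h hχ (y := fun u => g (i, u))
      (hli.comp (fun u => (i, u)) fun _ _ e => (Prod.ext_iff.1 e).2) (hm i) e' (hb i))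
  have hρi : Function.Injective ρ := by
    refine Finite.injective_iff_surjective.2 fun n => ?_
    obtain ⟨⟨i, u⟩, ha⟩ := hcol (n, o)
    exact ⟨i, by by_contra e; exact ha (hρ i u n o (Ne.symm e))⟩
  have hq' : ∀ i j, i ≠ j → ∀ u v, Sk χ c (ew G (ρ j) - ew G (ρ i)) fun s t =>
      χ (J * (ew G j * c u v)) * (g (i, u) (ρ i, s) * g (j, v) (ρ j, t)) -
        χ (J * (ew G i * c u v)) * (g (i, v) (ρ i, s) * g (j, u) (ρ j, t)) := by
    intro i j hij u v
    convert hq i j hij u v _ _ (hρi.ne hij) using 5 <;> simp [blk, hρ j _ _ _ (hρi.ne hij)]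
  have hne' : ∀ i u, ∃ s, g (i, u) (ρ i, s) ≠ 0 := by
    intro i u
    obtain ⟨⟨m, s⟩, hb⟩ := hne (i, u)
    refine ⟨s, ?_⟩
    by_cases e : m = ρ i
    · rwa [← e]
    · exact absurd (hρ i u m s e) hb
  choose π hπ using hne' 0
  have hpt : ∀ j, 0 ≠ j → ∀ u, (∀ s, s ≠ π u → g (0, u) (ρ 0, s) = 0) ∧
      ∀ s, s ≠ π u → g (j, u) (ρ j, s) = 0 := by
    intro j hj u
    refine point h hχ (hχ.ew_ne (hρi.ne hj)) (hπ u) (Function.ne_iff.2 (hne' j u)) fun r => ?_
    obtain ⟨l, hl⟩ := hsp fun b => if b.2 = r then 1 else 0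
    have e : ∀ s, (if s = r then 1 else 0) = ∑ v, l (0, v) * g (0, v) (ρ 0, s) := by
      intro s
      have := congrFun hl (ρ 0, s)
      simp only [Finset.sum_apply, Pi.smul_apply, smul_eq_mul, Fintype.sum_prod_type] at this
      rw [this, Finset.sum_eq_single 0]
      · intro i _ hi; simp [hρ i _ _ _ (hρi.ne hi.symm)]
      · simp
    refine ⟨fun t => ∑ v, l (0, v) * χ (J * (ew G j * c u v)) * g (j, v) (ρ j, t), ?_⟩
    convert Sk.sum (hq' 0 j hj u) (fun v => l (0, v)) using 3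
    simp [e, Finset.sum_mul, Finset.mul_sum, mul_sub, mul_assoc, mul_left_comm]
  have hz : ∀ i u s, s ≠ π u → g (i, u) (ρ i, s) = 0 := by
    intro i u
    by_cases e : 0 = i
    · rw [← e]; exact (hpt 1 (by decide) u).1
    · exact (hpt i e u).2
  have hγ : ∀ i u, g (i, u) (ρ i, π u) ≠ 0 := by
    intro i u
    obtain ⟨s, hs⟩ := hne' i u
    by_cases e : s = π u
    · rwa [← e]
    · exact absurd (hz i u s e) hs
  have hπs : Function.Surjective π := by
    intro s
    obtain ⟨⟨i, u⟩, ha⟩ := hcol (0, s)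
    refine ⟨u, ?_⟩
    by_contra e
    by_cases e' : 0 = ρ i
    · rw [e'] at ha; exact ha (hz i u s (Ne.symm e))
    · exact ha (hρ i u 0 s e')
  have hπi := Finite.injective_iff_surjective.2 hπs
  have hedge : ∀ i j, i ≠ j → ∀ u v,
      χ (J * ((ew G j - ew G i) * c u v)) * (g (i, u) (ρ i, π u) * g (j, v) (ρ j, π v)) =
        χ ((ew G (ρ j) - ew G (ρ i)) * c (π u) (π v)) *
          (g (i, v) (ρ i, π v) * g (j, u) (ρ j, π u)) := by
    intro i j hij u v
    by_cases e : u = v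
    · simp [e, h.diag]
    have := (hq' i j hij u v).2 (π u) (π v)
    simp only [hz i v (π u) (hπi.ne e), hz i u (π v) (hπi.ne (Ne.symm e))] at this
    apply mul_left_cancel₀ (chi_ne (χ := χ) (J * (ew G i * c u v)))
    rw [← mul_assoc, chi_mul (show _ = J * (ew G j * c u v) by ring)]
    linear_combination this
  obtain ⟨u, hu⟩ := hπs ω
  obtain ⟨v, hv⟩ := hπs o
  obtain ⟨z, hz1⟩ := h.unit (show u ≠ v from fun e => h.ne (by rw [← hu, e, hv]))
  have key := hχ.chir hJ0 (x := hol c u v z) (y := hol c ω o (π z))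
    (by rcases hz1 with e | e <;> simp [e]) ρ hρi fun i j => by
      by_cases hij : i = j
      · simp [hij]
      apply hχ.injective
      have e1 := hedge i j hij u v
      have e2 := hedge i j hij v z
      have e3 := hedge i j hij z u
      rw [← hu, ← hv]
      simp only [hol, mul_add, AddChar.map_add_eq_mul]
      apply mul_right_cancel₀ (mul_ne_zero (mul_ne_zero (mul_ne_zero (hγ i u) (hγ j v))
        (mul_ne_zero (hγ i v) (hγ j z))) (mul_ne_zero (hγ i z) (hγ j u)))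
      calc _ = _ := ?_
        _ = _ := congrArg₂ (· * ·) (congrArg₂ (· * ·) e1 e2) e3
        _ = _ := ?_ <;> ring
  rcases hz1 with e | e <;> rcases h.chir (π z) with e' | e' | e' <;> rw [e, e'] at key
  · exact hJ0 (by linear_combination -key)
  · exact hJ1 (by linear_combination -key)
  · exact hJ2 (by linear_combination -key)
  · exact hJ0 (by linear_combination key)
  · exact hJ2 (by linear_combination key)
  · exact hJ1 (by linear_combination key)

end Pool.Agent.MP_f49c72_ag.All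

end
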