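import Pool.Agent.Mg.Ff49c72.G71e3bc
import Pool.Agent.MP_f49c72_ag.Defs

section

/-! General facts on binomial quadrics: first order deformations, isomorphisms, conjugation. -/

section

namespace Pool.Agent.MP_f49c72_ag

open MvPolynomial

universe u

variable {k : Type u} [Field k]

lemma mem_of_X_mul {ι : Type} (W : Submodule k (MvPolynomial ι k))
    (hW : ∀ a, ∀ f ∈ W, X a * f ∈ W) (g : MvPolynomial ι k) : ∀ f ∈ W, g * f ∈ W := by
  induction g using MvPolynomial.induction_on with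
  | C r => intro f hf; rw [← smul_eq_C_mul]; exact W.smul_mem _ hf
  | add p q hp hq => intro f hf; rw [add_mul]; exact add_mem (hp f hf) (hq f hf)
  | mul_X p e hp => intro f hf; rw [mul_assoc]; exact hp _ (hW e f hf)

lemma Binom.I_le {ι κ : Type} (Q : Binom k ι κ) (W : Submodule k (MvPolynomial ι k))
    (hW : ∀ a, ∀ f ∈ W, X a * f ∈ W) (hq : ∀ j, Q.q j ∈ W) : ∀ f ∈ Q.I, f ∈ W := by
  intro f hf
  induction hf using Submodule.span_induction with
  | mem x hx => obtain ⟨j, rfl⟩ := hx; exact hq j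
  | zero => exact zero_mem _
  | add x y _ _ hx hy => exact add_mem hx hy
  | smul a x _ hx => exact mem_of_X_mul W hW a x hx

/-- dual form of the compatibility with linear syzygies. -/
def Binom.HT {ι κ : Type} (Q : Binom k ι κ) (Ψ : MvPolynomial ι k →ₗ[k] MvPolynomial ι k) : Prop :=
  ∀ L : MvPolynomial ι k →ₗ[k] k, (∀ f ∈ Q.I, L f = 0) →
    ∃ τ : MvPolynomial ι k →ₗ[k] k, ∀ a, ∀ f ∈ Q.I2, τ (X a * f) = L (X a * Ψ f)

lemma Binom.HT.sub {ι κ : Type} {Q : Binom k ι κ} {Ψ : MvPolynomial ι k →ₗ[k] MvPolynomial ι k}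
    (h : Q.HT Ψ) (D : Derivation k (MvPolynomial ι k) (MvPolynomial ι k)) :
    Q.HT (Ψ - D.toLinearMap) := by
  intro L hL
  obtain ⟨τ, hτ⟩ := h L hL
  refine ⟨τ - L ∘ₗ D.toLinearMap, fun a f hf => ?_⟩
  have := hL (f * D (X a)) (Ideal.mul_mem_right _ _ (Q.I2_le hf))
  simp [hτ a f hf, mul_sub, this]

lemma Binom.exists_HT {ι κ : Type} [Fintype ι] [DecidableEq ι] (Q : Binom k ι κ)
    (ψ : Q.I2 →ₗ[k] Q.A)
    (h : ∀ f : ι → Q.I2, ∑ a, X a * (f a : MvPolynomial ι k) = 0 → ∑ a, Q.x a * ψ (f a) = 0) :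
    ∃ Ψ, Q.HT Ψ ∧ ∀ f : Q.I2, Q.pr (Ψ f) = ψ f := by
  obtain ⟨ψ', hψ'⟩ := LinearMap.exists_extend ψ
  obtain ⟨σ, hσ⟩ := LinearMap.exists_rightInverse_of_surjective Q.pr.toLinearMap
    (LinearMap.range_eq_top.2 Q.pr_surj)
  have e : ∀ f : Q.I2, Q.pr ((σ ∘ₗ ψ') f) = ψ f := by
    intro f
    have h1 := LinearMap.congr_fun hσ (ψ' f)
    have h2 := LinearMap.congr_fun hψ' f
    simp only [LinearMap.comp_apply, LinearMap.id_apply, AlgHom.toLinearMap_apply,
      Submodule.subtype_apply] at h1 h2 ⊢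
    rw [h1, h2]
  refine ⟨σ ∘ₗ ψ', fun L hL => ?_, e⟩
  let μ : (ι → Q.I2) →ₗ[k] MvPolynomial ι k :=
    ∑ a, LinearMap.mulLeft k (X a) ∘ₗ Q.I2.subtype ∘ₗ LinearMap.proj a
  let ν : (ι → Q.I2) →ₗ[k] k :=
    ∑ a, L ∘ₗ LinearMap.mulLeft k (X a) ∘ₗ (σ ∘ₗ ψ') ∘ₗ Q.I2.subtype ∘ₗ LinearMap.proj a
  have hμ : ∀ f, μ f = ∑ a, X a * (f a : MvPolynomial ι k) := by
    intro f; simp [μ, LinearMap.sum_apply]
  have hν : ∀ f, ν f = ∑ a, L (X a * (σ ∘ₗ ψ') (f a)) := by
    intro f; simp [ν, LinearMap.sum_apply]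
  have : ν ∈ (LinearMap.ker μ).dualAnnihilator := by
    rw [Submodule.mem_dualAnnihilator]
    intro f hf
    rw [LinearMap.mem_ker, hμ] at hf
    rw [hν, ← map_sum]
    apply hL
    rw [← Q.pr_eq_zero, map_sum, ← h f hf]
    refine Finset.sum_congr rfl fun a _ => ?_
    rw [map_mul, e]; rfl
  rw [← LinearMap.range_dualMap_eq_dualAnnihilator_ker] at this
  obtain ⟨τ, hτ⟩ := this
  refine ⟨τ, fun a f hf => ?_⟩
  have := LinearMap.congr_fun hτ (Pi.single a ⟨f, hf⟩)
  rw [LinearMap.dualMap_apply, hμ, hν, Finset.sum_eq_single a, Finset.sum_eq_single a] at this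
  · simpa using this
  · intro b _ hb; simp [Pi.single_eq_of_ne hb]
  · simp
  · intro b _ hb; simp [Pi.single_eq_of_ne hb]
  · simp

end Pool.Agent.MP_f49c72_ag

end

section

namespace Pool.Agent.MP_f49c72_ag

open MvPolynomial Module

universe u v

variable {ι κ κ' : Type}

section filt
variable {K : Type u} [Field K] {𝒜 : Type v} [CommRing 𝒜] [Algebra K 𝒜]

def F1 (K : Type u) [Field K] {𝒜 : Type v} [CommRing 𝒜] [Algebra K 𝒜] (z : ι → 𝒜) :
    Submodule K 𝒜 := Submodule.span K (Set.range z)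

def N2 (K : Type u) [Field K] {𝒜 : Type v} [CommRing 𝒜] [Algebra K 𝒜] (z : ι → 𝒜) :
    Submodule K 𝒜 := F1 K z * F1 K z ⊔ C3 K z

def N1 (K : Type u) [Field K] {𝒜 : Type v} [CommRing 𝒜] [Algebra K 𝒜] (z : ι → 𝒜) :
    Submodule K 𝒜 := F1 K z ⊔ N2 K z

lemma C3_eq (z : ι → 𝒜) : C3 K z = F1 K z * F1 K z * F1 K z := by
  rw [F1, Submodule.span_mul_span, Submodule.span_mul_span, C3]
  congr 1
  ext y
  constructor
  · rintro ⟨⟨a, b, c⟩, rfl⟩
    exact ⟨_, ⟨_, ⟨a, rfl⟩, _, ⟨b, rfl⟩, rfl⟩, _, ⟨c, rfl⟩, rfl⟩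
  · rintro ⟨_, ⟨_, ⟨a, rfl⟩, _, ⟨b, rfl⟩, rfl⟩, _, ⟨c, rfl⟩, rfl⟩
    exact ⟨(a, b, c), rfl⟩

variable {Q : Binom K ι κ} {z : ι → 𝒜}

lemma Good.F1_C3 (h : Good Q z) : F1 K z * C3 K z ≤ ⊥ := by
  rw [F1, C3, Submodule.span_mul_span, Submodule.span_le]
  rintro _ ⟨_, ⟨a, rfl⟩, _, ⟨⟨b, c, d⟩, rfl⟩, rfl⟩
  have := h.quart a b c d
  simp only [cub, SetLike.mem_coe, Submodule.mem_bot]
  rw [← this]; ring

lemma Good.N1_C3 (h : Good Q z) : N1 K z * C3 K z ≤ ⊥ := by
  have h1 := le_bot_iff.1 h.F1_C3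
  rw [N1, N2, Submodule.sup_mul, Submodule.sup_mul, h1, mul_assoc, h1]
  nth_rewrite 1 [C3_eq]
  rw [mul_assoc, h1]; simp

lemma Good.N1_N2 (h : Good Q z) : N1 K z * N2 K z ≤ C3 K z := by
  have h1 := le_bot_iff.1 h.F1_C3
  rw [N2, Submodule.mul_sup]
  refine sup_le ?_ (h.N1_C3.trans bot_le)
  rw [N1, N2, Submodule.sup_mul, Submodule.sup_mul, ← mul_assoc, ← C3_eq, ← mul_assoc, ← C3_eq,
    ← mul_assoc, mul_comm (C3 K z), h1]
  simp

lemma Good.N1_N1 (h : Good Q z) : N1 K z * N1 K z ≤ N2 K z := by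
  nth_rewrite 2 [N1]
  rw [Submodule.mul_sup]
  refine sup_le ?_ (h.N1_N2.trans le_sup_right)
  rw [N1, Submodule.sup_mul]
  refine sup_le le_sup_left ?_
  rw [mul_comm]
  exact ((mul_le_mul' le_sup_left le_rfl).trans h.N1_N2).trans le_sup_right

lemma mem_F1 (a : ι) : z a ∈ F1 K z := Submodule.subset_span ⟨a, rfl⟩

lemma mem_N1 (a : ι) : z a ∈ N1 K z := Submodule.mem_sup_left (mem_F1 a)

lemma N2_le : N2 K z ≤ N1 K z := le_sup_right

lemma Good.decomp (h : Good Q z) (y : 𝒜) : ∃ c : K, y - algebraMap K 𝒜 c ∈ N1 K z := by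
  have : ∀ a, ∃ c : K, opt z a - algebraMap K 𝒜 c ∈ N1 K z := by
    rintro (_ | a)
    · exact ⟨1, by simp [opt]⟩
    · exact ⟨0, by simpa [opt] using mem_N1 a⟩
  have hmul : ∀ x y : 𝒜, (∃ c : K, x - algebraMap K 𝒜 c ∈ N1 K z) →
      (∃ c : K, y - algebraMap K 𝒜 c ∈ N1 K z) → ∃ c : K, x * y - algebraMap K 𝒜 c ∈ N1 K z := by
    rintro x y ⟨c, hc⟩ ⟨d, hd⟩
    refine ⟨c * d, ?_⟩
    have : x * y - algebraMap K 𝒜 (c * d) = (x - algebraMap K 𝒜 c) * (y - algebraMap K 𝒜 d) +
        c • (y - algebraMap K 𝒜 d) + d • (x - algebraMap K 𝒜 c) := by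
      simp only [Algebra.smul_def, map_mul]; ring
    rw [this]
    exact add_mem (add_mem (N2_le (h.N1_N1 (Submodule.mul_mem_mul hc hd)))
      (Submodule.smul_mem _ _ hd)) (Submodule.smul_mem _ _ hc)
  have hy := h.span y
  induction hy using Submodule.span_induction with
  | mem x hx => obtain ⟨⟨a, b, c⟩, rfl⟩ := hx; exact hmul _ _ (hmul _ _ (this a) (this b)) (this c)
  | zero => exact ⟨0, by simp⟩
  | add x y _ _ hx hy =>
    obtain ⟨c, hc⟩ := hx; obtain ⟨d, hd⟩ := hy
    exact ⟨c + d, by rw [map_add, add_sub_add_comm]; exact add_mem hc hd⟩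
  | smul a x _ hx =>
    obtain ⟨c, hc⟩ := hx
    exact ⟨a * c, by
      rw [map_mul, ← Algebra.smul_def, ← smul_sub]; exact Submodule.smul_mem _ _ hc⟩

lemma Good.mem_N1 [Nontrivial 𝒜] (h : Good Q z) {y : 𝒜} (hy : IsNilpotent y) : y ∈ N1 K z := by
  obtain ⟨c, hc⟩ := h.decomp y
  have h1 : IsNilpotent (y - algebraMap K 𝒜 c) := by
    refine ⟨4, ?_⟩
    have := h.N1_C3 (Submodule.mul_mem_mul hc (h.N1_N2 (Submodule.mul_mem_mul hc
      (h.N1_N1 (Submodule.mul_mem_mul hc hc)))))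
    rw [Submodule.mem_bot] at this
    rw [← this]; ring
  have h2 : IsNilpotent (algebraMap K 𝒜 c) := by
    have := (Commute.all _ _).isNilpotent_sub hy h1
    simpa using this
  have : c = 0 := by
    by_contra h0
    exact ((IsUnit.mk0 c h0).map (algebraMap K 𝒜)).not_isNilpotent h2
  simpa [this] using hc

variable [Fintype ι]

lemma exists_matrix [Nontrivial 𝒜] (h : Good Q z) {Q' : Binom K ι κ'} {z' : ι → 𝒜}
    (h' : Good Q' z') : (∀ b, z' b ∈ N1 K z) ∧
      ∃ g : ι → ι → K, ∀ b, z' b - ∑ a, g b a • z a ∈ N2 K z := by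
  have h1 : ∀ b, z' b ∈ N1 K z := fun b => h.mem_N1 ⟨4, by rw [← h'.quart b b b b]; ring⟩
  refine ⟨h1, ?_⟩
  have : ∀ b, ∃ g : ι → K, z' b - ∑ a, g a • z a ∈ N2 K z := by
    intro b
    obtain ⟨x, hx, y, hy, hxy⟩ := Submodule.mem_sup.1 (h1 b)
    obtain ⟨g, rfl⟩ := (Submodule.mem_span_range_iff_exists_fun K).1 hx
    exact ⟨g, by rw [← hxy, add_sub_cancel_left]; exact hy⟩
  choose g hg using this
  exact ⟨g, hg⟩

end filt

variable {k : Type u} [Field k] {K : Type u} [Field K] [Algebra k K] {𝒜 : Type v} [CommRing 𝒜]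
  [Algebra K 𝒜] [Algebra k 𝒜] [IsScalarTower k K 𝒜]

lemma exists_Phi {Q : Binom k ι κ} {z : ι → 𝒜} (h : Good (Q.map (algebraMap k K)) z) :
    ∃ Φ : MvPolynomial ι k →ₗ[k] 𝒜, (∀ f ∈ Q.I, Φ f = 0) ∧ Φ 1 = 1 ∧ (∀ a, Φ (X a) = z a) ∧
      (∀ a b, Φ (X a * X b) - z a * z b ∈ C3 K z) ∧
      ∀ a b c, Φ (X a * X b * X c) = z a * z b * z c := by
  obtain ⟨s, hs⟩ := LinearMap.exists_rightInverse_of_surjective (C3 K z).mkQ
    (Submodule.range_mkQ _)
  let E : MvPolynomial ι k →ₐ[k] Polynomial 𝒜 := aeval fun a => Polynomial.C (z a) * Polynomial.X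
  let P : ℕ → MvPolynomial ι k →ₗ[k] 𝒜 :=
    fun n => (Polynomial.lcoeff 𝒜 n).restrictScalars k ∘ₗ E.toLinearMap
  have hP : ∀ n f, P n f = (E f).coeff n := fun _ _ => rfl
  have hP0 : ∀ a f, P 0 (X a * f) = 0 := by
    intro a f; simp [hP, E]
  have hPs : ∀ n a f, P (n + 1) (X a * f) = z a * P n f := by
    intro n a f; simp [hP, E, mul_assoc, Polynomial.coeff_X_mul]
  have hP1 : ∀ n, P n 1 = if n = 0 then 1 else 0 := by
    intro n; simp [hP, Polynomial.coeff_one]
  have hX : ∀ n a, P n (X a) = if n = 1 then z a else 0 := by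
    intro n a
    rw [← mul_one (X a)]
    rcases n with _ | n
    · simp only [hP0]; simp
    · rw [hPs, hP1]; simp
  have hXX : ∀ n a b, P n (X a * X b) = if n = 2 then z a * z b else 0 := by
    intro n a b
    rcases n with _ | n
    · simp only [hP0]; simp
    · rw [hPs, hX]; simp
  have hXXX : ∀ n a b c, P n (X a * X b * X c) = if n = 3 then z a * z b * z c else 0 := by
    intro n a b c
    rw [mul_assoc]
    rcases n with _ | n
    · simp only [hP0]; simp
    · rw [hPs, hXX]; simp [mul_assoc]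
  let π : 𝒜 →ₗ[K] 𝒜 := s ∘ₗ (C3 K z).mkQ
  refine ⟨P 0 + P 1 + π.restrictScalars k ∘ₗ P 2 + P 3, fun f hf => ?_, ?_, ?_, ?_, ?_⟩
  · let W : Submodule k (MvPolynomial ι k) := LinearMap.ker (P 0) ⊓ LinearMap.ker (P 1) ⊓
      ((C3 K z).restrictScalars k).comap (P 2) ⊓ LinearMap.ker (P 3)
    have hW : ∀ f, f ∈ W ↔ ((P 0 f = 0 ∧ P 1 f = 0) ∧ P 2 f ∈ C3 K z) ∧ P 3 f = 0 := fun f => Iff.rfl
    have := Q.I_le W (fun a f hf => by
      rw [hW] at hf ⊢
      rw [hP0, hPs 0, hPs 1, hPs 2, hf.1.1.1, hf.1.1.2, mul_zero]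
      exact ⟨⟨⟨rfl, rfl⟩, zero_mem _⟩, h.F1_C3 (Submodule.mul_mem_mul (mem_F1 a) hf.1.2)⟩)
      (fun j => by
        rw [hW]
        have := h.quad j
        simpa [Binom.q, Binom.ev, hXX, Binom.map] using this) f hf
    rw [hW] at this
    have h2 : (C3 K z).mkQ (P 2 f) = 0 := (Submodule.Quotient.mk_eq_zero _).2 this.1.2
    simp [this.1.1.1, this.1.1.2, this.2, π, h2]
  · simp [hP1]
  · intro a; simp [hX]
  · intro a b
    have := LinearMap.congr_fun hs ((C3 K z).mkQ (z a * z b))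
    rw [← Submodule.Quotient.eq]
    simpa [hXX, π] using this
  · intro a b c; simp [hXXX]

lemma exists_eta {Q : Binom k ι κ} {z : ι → 𝒜} (h : Good (Q.map (algebraMap k K)) z) {τ : Type}
    [Fintype τ] (e : Basis τ k Q.A) (hd : Fintype.card τ = finrank K 𝒜)
    (L : MvPolynomial ι k →ₗ[k] k) (hL : ∀ f ∈ Q.I, L f = 0)
    (hL3 : ∀ a b c, L (X a * X b * X c) = 0) : ∃ η : 𝒜 →ₗ[K] K,
      (∀ a, η (z a) = algebraMap k K (L (X a))) ∧
      (∀ a b, η (z a * z b) = algebraMap k K (L (X a * X b))) ∧ ∀ y ∈ C3 K z, η y = 0 := by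
  obtain ⟨Φ, hI, h0, h1, h2, h3⟩ := exists_Phi h
  choose ee hee using fun i => Q.pr_surj (e i)
  have key : ∀ f, f - ∑ i, e.repr (Q.pr f) i • ee i ∈ Q.I := by
    intro f; rw [← Q.pr_eq_zero]; simp [hee]
  have hΦ : ∀ f, Φ f = ∑ i, algebraMap k K (e.repr (Q.pr f) i) • Φ (ee i) := by
    intro f
    have := hI _ (key f)
    rw [map_sub, sub_eq_zero] at this
    simpa using this
  have hspan : ⊤ ≤ Submodule.span K (Set.range fun i => Φ (ee i)) := by
    have hm : ∀ f, Φ f ∈ Submodule.span K (Set.range fun i => Φ (ee i)) := fun f => by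
      rw [hΦ]
      exact Submodule.sum_mem _ fun i _ => Submodule.smul_mem _ _ (Submodule.subset_span ⟨i, rfl⟩)
    have hC : C3 K z ≤ Submodule.span K (Set.range fun i => Φ (ee i)) := by
      rw [C3, Submodule.span_le]
      rintro _ ⟨⟨a, b, c⟩, rfl⟩
      have := hm (X a * X b * X c)
      rwa [h3] at this
    have hq : ∀ a b, z a * z b ∈ Submodule.span K (Set.range fun i => Φ (ee i)) := fun a b => by
      have := sub_mem (hm (X a * X b)) (hC (h2 a b))
      rwa [sub_sub_cancel] at this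
    intro y _
    refine (Submodule.span_le.2 ?_) (h.span y)
    rintro _ ⟨⟨_ | a, _ | b, _ | c⟩, rfl⟩ <;> simp only [cub, opt, Option.elim, one_mul, mul_one]
    · exact h0 ▸ hm 1
    · exact h1 c ▸ hm _
    · exact h1 b ▸ hm _
    · exact hq _ _
    · exact h1 a ▸ hm _
    · exact hq _ _
    · exact hq _ _
    · exact hC (cub_mem K z _ _ _)
  let bb := basisOfTopLeSpanOfCardEqFinrank _ hspan hd
  have hbb : ∀ i, bb i = Φ (ee i) := fun i => by simp [bb]
  let η := bb.constr K fun i => algebraMap k K (L (ee i))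
  have hη : ∀ f, η (Φ f) = algebraMap k K (L f) := by
    intro f
    have := hL _ (key f)
    rw [map_sub, sub_eq_zero] at this
    rw [hΦ, this]
    simp only [η, ← hbb, map_sum, map_smul, Basis.constr_basis, smul_eq_mul, map_mul]
  have hC : ∀ y ∈ C3 K z, η y = 0 := by
    intro y hy
    refine (Submodule.span_le (p := LinearMap.ker η)).2 ?_ hy
    rintro _ ⟨⟨a, b, c⟩, rfl⟩
    simp [cub, ← h3, hη, hL3]
  refine ⟨η, fun a => by rw [← h1, hη], fun a b => ?_, hC⟩
  have := hC _ (h2 a b)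
  rw [map_sub, sub_eq_zero] at this
  rw [← this, hη]

theorem iso_matrix [Fintype ι] [DecidableEq ι] [Nontrivial 𝒜] {Q : Binom k ι κ} {z : ι → 𝒜}
    (h : Good (Q.map (algebraMap k K)) z) {τ : Type} [Fintype τ] (e : Basis τ k Q.A)
    (hd : Fintype.card τ = finrank K 𝒜) {Q' : Binom K ι κ'} {z' : ι → 𝒜} (h' : Good Q' z') :
    ∃ g g' : ι → ι → K, (∀ a a', ∑ b, g' a b * g b a' = if a = a' then 1 else 0) ∧
      ∀ L : MvPolynomial ι k →ₗ[k] k, (∀ f ∈ Q.I, L f = 0) →
        (∀ a b c, L (X a * X b * X c) = 0) → ∀ j,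
        Q'.α j * (∑ a, ∑ b, g (Q'.a j) a * g (Q'.b j) b * algebraMap k K (L (X a * X b))) +
        Q'.β j * (∑ a, ∑ b, g (Q'.a' j) a * g (Q'.b' j) b * algebraMap k K (L (X a * X b))) =
          0 := by
  obtain ⟨h1, g, hg⟩ := exists_matrix h h'
  obtain ⟨-, g', hg'⟩ := exists_matrix h' h
  have hF : F1 K z' ≤ N1 K z := by
    rw [F1, Submodule.span_le]; rintro _ ⟨b, rfl⟩; exact h1 b
  have hC : C3 K z' ≤ C3 K z := by
    rw [C3_eq, mul_comm]
    exact (mul_le_mul' hF ((mul_le_mul' hF hF).trans h.N1_N1)).trans h.N1_N2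
  have hN : N2 K z' ≤ N2 K z := sup_le ((mul_le_mul' hF hF).trans h.N1_N1) (hC.trans le_sup_right)
  refine ⟨g, g', fun a a' => ?_, fun L hL hL3 j => ?_⟩
  · obtain ⟨η, e1, e2, e3⟩ := exists_eta h e hd (d1 a') (fun f hf => (Q.c0_d1_I hf).2 a')
      (fun a b c => by simp [d1_mul])
    have hk : N2 K z ≤ LinearMap.ker η := by
      refine sup_le ?_ e3
      rw [F1, Submodule.span_mul_span, Submodule.span_le]
      rintro _ ⟨_, ⟨a, rfl⟩, _, ⟨b, rfl⟩, rfl⟩
      simp [e2, d1_mul]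
    have e4 : ∀ b, η (z' b) = g b a' := by
      intro b
      have := hk (hg b)
      rw [LinearMap.mem_ker, map_sub, sub_eq_zero] at this
      simp [this, e1, apply_ite (algebraMap k K)]
    have := hk (hN (hg' a))
    rw [LinearMap.mem_ker, map_sub, sub_eq_zero] at this
    simp only [map_sum, map_smul, e4, smul_eq_mul, e1, d1_X, apply_ite (algebraMap k K), map_one,
      map_zero] at this
    rw [← this]; simp [eq_comm]
  · obtain ⟨η, -, e2, e3⟩ := exists_eta h e hd L hL hL3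
    have e4 : ∀ b b', η (z' b * z' b') =
        ∑ a, ∑ a', g b a * g b' a' * algebraMap k K (L (X a * X a')) := by
      intro b b'
      have hl : ∀ b, ∑ a, g b a • z a ∈ N1 K z := fun b =>
        Submodule.sum_mem _ fun a _ => Submodule.smul_mem _ _ (mem_N1 a)
      have : z' b * z' b' = (∑ a, g b a • z a) * (∑ a, g b' a • z a) +
          (z' b * (z' b' - ∑ a, g b' a • z a) + (∑ a, g b' a • z a) * (z' b - ∑ a, g b a • z a)) := by
        ring
      rw [this, map_add, e3 _ (add_mem (h.N1_N2 (Submodule.mul_mem_mul (h1 b) (hg b')))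
        (h.N1_N2 (Submodule.mul_mem_mul (hl b') (hg b)))), add_zero, Finset.sum_mul_sum]
      simp only [map_sum, smul_mul_smul_comm, map_smul, e2, smul_eq_mul]
    have := e3 _ (hC (h'.quad j))
    simpa only [Binom.ev, map_add, map_smul, e4, smul_eq_mul] using this

end Pool.Agent.MP_f49c72_ag

end

section

namespace Pool.Agent.MP_f49c72_ag

open Module MvPolynomial

universe u v

lemma extend_aut {F : Type} {k : Type u} [Field F] [Field k] [Algebra F k] [IsAlgClosed k]
    (τ : F ≃+* F) : ∃ σ : k ≃+* k, ∀ x, σ (algebraMap F k x) = algebraMap F k (τ x) := by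
  obtain ⟨s, hv⟩ := exists_isTranscendenceBasis F k
  let _ := IsAlgClosed.isAlgClosure_of_transcendence_basis _ hv
  let e : Algebra.adjoin F (Set.range ((↑) : s → k)) ≃+* Algebra.adjoin F (Set.range ((↑) : s → k)) :=
    (hv.1.aevalEquiv.symm.toRingEquiv.trans (MvPolynomial.mapEquiv s τ)).trans
      hv.1.aevalEquiv.toRingEquiv
  refine ⟨IsAlgClosure.equivOfEquiv k k e, fun x => ?_⟩
  have h1 : algebraMap F k x =
      algebraMap (Algebra.adjoin F (Set.range ((↑) : s → k))) k (algebraMap F _ x) := rfl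
  rw [h1, IsAlgClosure.equivOfEquiv_algebraMap]
  have : e (algebraMap F _ x) = algebraMap F _ (τ x) := by
    simp only [e, RingEquiv.trans_apply, AlgEquiv.coe_ringEquiv, AlgEquiv.commutes]
    rw [MvPolynomial.algebraMap_eq, MvPolynomial.mapEquiv_apply, MvPolynomial.map_C,
      ← MvPolynomial.algebraMap_eq, AlgEquiv.commutes]
    rfl
  rw [this]; rfl

variable {k : Type u} [Field k]

lemma exists_unit_basis (A : Type v) [CommRing A] [Algebra k A] [Module.Finite k A] [Nontrivial A] :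
    ∃ (n : ℕ) (e : Basis (Fin (n + 1)) k A), e 0 = 1 := by
  obtain ⟨ε, hε⟩ := Module.Projective.exists_dual_eq_one k (one_ne_zero (α := A))
  refine ⟨_, Basis.mkFinCons 1 (finBasis k (LinearMap.ker ε)) (fun c x hx h => ?_)
    (fun z => ⟨- ε z, by simp [hε]⟩), by simp⟩
  have := congrArg ε h
  simpa [hε, LinearMap.mem_ker.1 hx] using this

lemma valid_of_basis {A : Type v} [CommRing A] [Algebra k A] {n : ℕ} (e : Basis (Fin (n + 1)) k A)
    (h0 : e 0 = 1) : Valid fun i j l => e.repr (e i * e j) l where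
  comm i j l := by rw [mul_comm]
  unit j l := by simp [h0, Finsupp.single_apply]
  assoc i j l m := by
    have h1 : ∀ x y, ∑ a, e.repr x a * e.repr (e a * y) m = e.repr (x * y) m := by
      intro x y
      conv_rhs => rw [← e.sum_repr x]
      simp only [Finset.sum_mul, map_sum, smul_mul_assoc, map_smul, Finsupp.finsetSum_apply,
        Finsupp.smul_apply, smul_eq_mul]
    simp only [mul_comm (e i) (e _)]
    rw [h1, h1]
    congr 2; ring

lemma exists_conj {ι κ : Type} (Q : Binom k ι κ) (σ : k ≃+* k) {τ : Type} [Fintype τ]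
    (e : Basis τ k Q.A) : ∃ (F : Q.A →+* (Q.map σ).A) (e' : Basis τ k (Q.map σ).A),
      (∀ (r : k) a, F (r • a) = σ r • F a) ∧ ∀ i, e' i = F (e i) := by
  let F : Q.A ≃+* (Q.map σ).A := Ideal.quotientEquiv _ _ (mapEquiv ι σ) (by
    rw [Binom.I, Binom.I, Ideal.map_span, ← Set.range_comp]
    congr 2
    funext j
    simp [Binom.q, Binom.ev, Binom.map, smul_eq_C_mul])
  have hF : ∀ (r : k) a, F (r • a) = σ r • F a := by
    intro r a
    obtain ⟨f, rfl⟩ := Q.pr_surj a
    have hpr : ∀ f, F (Q.pr f) = (Q.map σ).pr (MvPolynomial.map (σ : k →+* k) f) := fun _ => rfl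
    rw [← map_smul, hpr, hpr, ← map_smul, smul_eq_C_mul, smul_eq_C_mul, map_mul, map_C]
    rfl
  have hF' : ∀ g : τ → k, ∑ i, g i • F (e i) = F (∑ i, σ.symm (g i) • e i) := by
    intro g; simp [hF]
  refine ⟨F, Basis.mk (v := fun i => F (e i)) ?_ ?_, hF, fun i => Basis.mk_apply _ _ _⟩
  · rw [Fintype.linearIndependent_iff]
    intro g hg i
    rw [hF', map_eq_zero_iff _ F.injective] at hg
    simpa using Fintype.linearIndependent_iff.1 e.linearIndependent _ hg i
  · intro y _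
    obtain ⟨x, rfl⟩ := F.surjective y
    rw [← e.sum_repr x, map_sum]
    exact Submodule.sum_mem _ fun i _ => by
      rw [hF]; exact Submodule.smul_mem _ _ (Submodule.subset_span ⟨i, rfl⟩)

lemma core_gen {ι κ : Type} [Fintype ι] {Q : Binom k ι κ} (σ : k ≃+* k) (hR : Q.Rigid)
    (hR' : (Q.map σ).Rigid)
    (H : ∀ (n : ℕ) (_ : Basis (Fin (n + 1)) k Q.A) (K : Type u) [Field K] (φ : k →+* K)
      (γ : Fin (n + 1) → Fin (n + 1) → Fin (n + 1) → K) (h : Valid γ),
      (∃ z : ι → Alg h, Good (Q.map φ) z) → (∃ z : ι → Alg h, Good ((Q.map σ).map φ) z) → False) :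
    ∃ (n : ℕ) (γ : Fin (n + 1) → Fin (n + 1) → Fin (n + 1) → k) (_ : Valid γ)
      (s₁ s₂ : MvPolynomial (Fin (n + 1) × Fin (n + 1) × Fin (n + 1)) k),
      eval (fun p => γ p.1 p.2.1 p.2.2) s₁ ≠ 0 ∧ eval (fun p => σ (γ p.1 p.2.1 p.2.2)) s₂ ≠ 0 ∧
      ∀ γ' : Fin (n + 1) → Fin (n + 1) → Fin (n + 1) → k, Valid γ' →
        eval (fun p => γ' p.1 p.2.1 p.2.2) s₁ * eval (fun p => γ' p.1 p.2.1 p.2.2) s₂ = 0 := by
  have : Module.Finite k Q.A :=
    ⟨⟨(Set.finite_range (cub (opt Q.x))).toFinset, by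
      rw [Set.Finite.coe_toFinset, eq_top_iff]
      exact fun y _ => span_opt _ hR.quart_x y⟩⟩
  have : Nontrivial Q.A := Ideal.Quotient.nontrivial_iff.2 fun h => by
    have := (Q.c0_d1_I (f := 1) (by rw [h]; trivial)).1
    simp at this
  obtain ⟨n, e, he⟩ := exists_unit_basis (k := k) Q.A
  obtain ⟨F, e', hF, he'⟩ := exists_conj _ σ e
  obtain ⟨γ, hv, hγ⟩ : ∃ γ : Fin (n + 1) → Fin (n + 1) → Fin (n + 1) → k, Valid γ ∧
      ∀ i j, e i * e j = ∑ l, γ i j l • e l :=
    ⟨_, valid_of_basis e he, fun i j => (e.sum_repr _).symm⟩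
  have hv' : Valid fun i j l => σ (γ i j l) := hv.map σ.toRingHom
  have h1 : e' 0 = 1 := by rw [he', he, map_one]
  have h2 : ∀ i j, e' i * e' j = ∑ l, σ (γ i j l) • e' l := by
    intro i j
    rw [he', he', ← map_mul, hγ]
    simp only [map_sum, hF, he']
  obtain ⟨s₁, s₂, a1, a2, a3⟩ := separate hv hv' hR hR' e e' he h1 hγ h2 (H n e)
  refine ⟨n, γ, hv, s₁, s₂, a1, ?_, a3⟩
  simpa only using a2

/-- an algebra which is separated from a conjugate of itself. -/
def CoreStmt (k : Type u) [Field k] : Prop :=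
  ∃ (σ : k ≃+* k) (n : ℕ) (γ : Fin (n + 1) → Fin (n + 1) → Fin (n + 1) → k) (_ : Valid γ)
    (s₁ s₂ : MvPolynomial (Fin (n + 1) × Fin (n + 1) × Fin (n + 1)) k),
    eval (fun p => γ p.1 p.2.1 p.2.2) s₁ ≠ 0 ∧ eval (fun p => σ (γ p.1 p.2.1 p.2.2)) s₂ ≠ 0 ∧
    ∀ γ' : Fin (n + 1) → Fin (n + 1) → Fin (n + 1) → k, Valid γ' →
      eval (fun p => γ' p.1 p.2.1 p.2.2) s₁ * eval (fun p => γ' p.1 p.2.1 p.2.2) s₂ = 0

end Pool.Agent.MP_f49c72_ag

end

end

section

/-! From a separated conjugate pair of algebras to two components. -/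

section

namespace Pool.Agent.MP_f49c72_ag

open Module MvPolynomial

universe u

lemma two_components {X : Type*} [TopologicalSpace X] (T : X ≃ X) (hT : Continuous T)
    (hT' : Continuous T.symm) (M : X → Prop) (hM : ∀ x, M x → T x = x) {p : X} {U V : Set X}
    (hU : IsOpen U) (hV : IsOpen V) (hp : p ∈ U) (hp' : T p ∈ V) (hUV : ∀ x, x ∈ U → x ∈ V → False) :
    ∃ Z₁ ∈ irreducibleComponents X, ∃ Z₂ ∈ irreducibleComponents X, Z₁ ≠ Z₂ ∧
      {x ∈ Z₁ | M x} = {x ∈ Z₂ | M x} := by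
  let H : X ≃ₜ X := ⟨T, hT, hT'⟩
  refine ⟨_, irreducibleComponent_mem_irreducibleComponents p, H.symm ⁻¹' irreducibleComponent p,
    preimage_mem_irreducibleComponents (irreducibleComponent_mem_irreducibleComponents p)
      H.symm.isOpenEmbedding ⟨p, mem_irreducibleComponent, H.symm.surjective p⟩, fun h => ?_, ?_⟩
  · have h1 : T p ∈ irreducibleComponent p := by
      rw [h]
      change T.symm (T p) ∈ irreducibleComponent p
      rw [T.symm_apply_apply]; exact mem_irreducibleComponent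
    obtain ⟨x, -, h2, h3⟩ := (isIrreducible_irreducibleComponent (x := p)).2 U V hU hV
      ⟨p, mem_irreducibleComponent, hp⟩ ⟨T p, h1, hp'⟩
    exact hUV x h2 h3
  · ext x
    refine and_congr_left fun hx => ?_
    have : H.symm x = x := T.symm_apply_eq.2 (hM x hx).symm
    rw [Set.mem_preimage, this]

variable {k : Type u} [Field k] {σ : Type}

lemma map_symm_map (τ : k ≃+* k) (f : MvPolynomial σ k) :
    map (τ.symm : k →+* k) (map (τ : k →+* k) f) = f := by
  rw [map_map]; simp [map_id]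

lemma map_map_symm (τ : k ≃+* k) (f : MvPolynomial σ k) :
    map (τ : k →+* k) (map (τ.symm : k →+* k) f) = f := map_symm_map τ.symm f

lemma comap_comap_symm (τ : k ≃+* k) (I : Ideal (MvPolynomial σ k)) :
    (I.comap (map (τ : k →+* k))).comap (map (τ.symm : k →+* k)) = I := by
  ext f; simp [Ideal.mem_comap, map_map_symm]

lemma IsMonomialIdeal.comap {I : Ideal (MvPolynomial σ k)} (h : IsMonomialIdeal I) (τ : k ≃+* k) :
    I.comap (map (τ : k →+* k)) = I := by
  obtain ⟨s, rfl⟩ := h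
  ext f
  rw [Ideal.mem_comap, mem_ideal_span_monomial_image, mem_ideal_span_monomial_image,
    support_map_of_injective _ τ.injective]

lemma map_smul_sum (τ : k ≃+* k) {r : ℕ} (f : MvPolynomial σ k) (c : Fin r → k)
    (b : Fin r → MvPolynomial σ k) : map (τ : k →+* k) (f - ∑ i, c i • b i) =
      map (τ : k →+* k) f - ∑ i, τ (c i) • map (τ : k →+* k) (b i) := by
  simp [smul_eq_C_mul]

lemma chart_comap {W : Type u} (ι : W → MvPolynomial σ k) (τ : k ≃+* k) (s : W ≃ W)
    (hs : ∀ w, ι (s w) = map (τ : k →+* k) (ι w)) {r : ℕ} (b : Fin r → W)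
    (Φ : MvPolynomial (W × Fin r) k) (I : Ideal (MvPolynomial σ k)) :
    (∃ c : W × Fin r → k, (∀ f, ι f - ∑ i, c (f, i) • ι (b i) ∈ I.comap (map (τ : k →+* k))) ∧
      eval c Φ ≠ 0) ↔
    ∃ c : W × Fin r → k, (∀ f, ι f - ∑ i, c (f, i) • ι (s (b i)) ∈ I) ∧
      eval c (rename (fun p => (s p.1, p.2)) (map (τ : k →+* k) Φ)) ≠ 0 := by
  have key : ∀ c c' : W × Fin r → k, (∀ p, c' (s p.1, p.2) = τ (c p)) →
      eval c' (rename (fun p => (s p.1, p.2)) (map (τ : k →+* k) Φ)) = τ (eval c Φ) := by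
    intro c c' h
    rw [eval_rename, eval_map, show τ (eval c Φ) = (τ : k →+* k) (eval₂ (RingHom.id k) c Φ) from rfl,
      eval₂_comp_left]
    congr 1
    funext p; exact h p
  constructor
  · rintro ⟨c, h1, h2⟩
    refine ⟨fun p => τ (c (s.symm p.1, p.2)), fun f => ?_, ?_⟩
    · have := h1 (s.symm f)
      rw [Ideal.mem_comap, map_smul_sum, ← hs, s.apply_symm_apply] at this
      simpa only [hs] using this
    · rw [key c _ (by simp)]; simpa using h2
  · rintro ⟨c, h1, h2⟩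
    refine ⟨fun p => τ.symm (c (s p.1, p.2)), fun f => ?_, ?_⟩
    · rw [Ideal.mem_comap, map_smul_sum, ← hs]
      simpa only [hs, τ.apply_symm_apply] using h1 (s f)
    · rw [key (fun p => τ.symm (c (s p.1, p.2))) c (by simp)] at h2; simpa using h2

lemma exists_quot_equiv (τ : k ≃+* k) (I : Ideal (MvPolynomial σ k)) :
    ∃ F : (MvPolynomial σ k ⧸ I.comap (map (τ : k →+* k))) ≃+* (MvPolynomial σ k ⧸ I),
      (∀ f, F (Ideal.Quotient.mk _ f) = Ideal.Quotient.mk _ (map (τ : k →+* k) f)) ∧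
      ∀ (r : k) x, F (r • x) = τ r • F x := by
  let F : (MvPolynomial σ k ⧸ I.comap (map (τ : k →+* k))) ≃+* (MvPolynomial σ k ⧸ I) :=
    Ideal.quotientEquiv _ _ (mapEquiv σ τ)
      (Ideal.map_comap_of_surjective _ (mapEquiv σ τ).surjective I).symm
  have hF : ∀ f, F (Ideal.Quotient.mk _ f) = Ideal.Quotient.mk _ (map (τ : k →+* k) f) :=
    fun _ => rfl
  refine ⟨F, hF, fun r x => ?_⟩
  obtain ⟨f, rfl⟩ := Ideal.Quotient.mk_surjective x
  rw [← Ideal.Quotient.mkₐ_eq_mk k, ← map_smul, Ideal.Quotient.mkₐ_eq_mk, hF, hF,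
    ← Ideal.Quotient.mkₐ_eq_mk k, ← map_smul, smul_eq_C_mul, smul_eq_C_mul, map_mul, map_C]
  rfl

variable {n d : ℕ}

lemma HilbA.ext' {I J : HilbA k n d} (h : I.ideal = J.ideal) : I = J := by
  cases I; cases J; simpa using h

noncomputable def HilbA.act (τ : k ≃+* k) (I : HilbA k n d) : HilbA k n d :=
  ⟨I.ideal.comap (map (τ : k →+* k)), by
    obtain ⟨F, -, hF⟩ := exists_quot_equiv τ I.ideal
    rw [← I.colength]
    exact rank_eq_of_equiv_equiv τ F.toAddEquiv τ.bijective hF⟩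

lemma HilbA.continuous_act (τ : k ≃+* k) : Continuous (HilbA.act (n := n) (d := d) τ) := by
  refine continuous_generateFrom_iff.2 ?_
  rintro _ ⟨b, Φ, rfl⟩
  refine TopologicalSpace.isOpen_generateFrom_of_mem ⟨fun i => map (τ : k →+* k) (b i),
    rename (fun p => (map (τ : k →+* k) p.1, p.2)) (map (τ : k →+* k) Φ), ?_⟩
  ext I
  exact chart_comap id τ (mapEquiv (Fin n) τ).toEquiv (fun _ => rfl) b Φ I.ideal

lemma HilbA.coord (I : HilbA k n (n + 1)) {c : MvPolynomial (Fin n) k × Fin (n + 1) → k}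
    (hc : ∀ f, f - ∑ i, c (f, i) • (Fin.cons 1 X : Fin (n + 1) → MvPolynomial (Fin n) k) i ∈
      I.ideal) : ∃ e : Basis (Fin (n + 1)) k (MvPolynomial (Fin n) k ⧸ I.ideal),
      (∀ i, e i = Ideal.Quotient.mk _ ((Fin.cons 1 X : Fin (n + 1) → MvPolynomial (Fin n) k) i)) := by
  refine ⟨basisOfTopLeSpanOfCardEqFinrank _ (fun y _ => ?_) ?_,
    fun i => congrFun (coe_basisOfTopLeSpanOfCardEqFinrank _ _ _) i⟩
  · obtain ⟨f, rfl⟩ := Ideal.Quotient.mkₐ_surjective k _ y
    have := Ideal.Quotient.eq.2 (hc f)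
    rw [← Ideal.Quotient.mkₐ_eq_mk k] at this
    rw [this, map_sum]
    exact Submodule.sum_mem _ fun i _ => by
      rw [map_smul]; exact Submodule.smul_mem _ _ (Submodule.subset_span ⟨i, rfl⟩)
  · rw [finrank, I.colength]; simp

lemma HilbA.coord_eq (I : HilbA k n d) {b : Fin d → MvPolynomial (Fin n) k}
    (e : Basis (Fin d) k (MvPolynomial (Fin n) k ⧸ I.ideal))
    (he : ∀ i, e i = Ideal.Quotient.mk _ (b i)) {c : MvPolynomial (Fin n) k × Fin d → k}
    (hc : ∀ f, f - ∑ i, c (f, i) • b i ∈ I.ideal) (f : MvPolynomial (Fin n) k) (l : Fin d) :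
    c (f, l) = e.repr (Ideal.Quotient.mk _ f) l := by
  have := Ideal.Quotient.eq.2 (hc f)
  rw [this, ← Ideal.Quotient.mkₐ_eq_mk k, map_sum]
  simp only [map_smul, Ideal.Quotient.mkₐ_eq_mk, ← he]
  simp [Finsupp.single_apply]

theorem mainA_of (k : Type u) [Field k] (hcore : CoreStmt k) :
    ∃ n d : ℕ, ∃ Z₁ ∈ irreducibleComponents (HilbA k n d),
      ∃ Z₂ ∈ irreducibleComponents (HilbA k n d), Z₁ ≠ Z₂ ∧
        {I ∈ Z₁ | IsMonomialIdeal I.ideal} = {I ∈ Z₂ | IsMonomialIdeal I.ideal} := by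
  obtain ⟨σ, n, γ, h, s₁, s₂, h₁, h₂, h₃⟩ := hcore
  let b : Fin (n + 1) → MvPolynomial (Fin n) k := Fin.cons 1 X
  let ι : Fin (n + 1) × Fin (n + 1) × Fin (n + 1) → MvPolynomial (Fin n) k × Fin (n + 1) :=
    fun p => (b p.1 * b p.2.1, p.2.2)
  let ψ : MvPolynomial (Fin n) k →ₐ[k] Alg h := aeval fun i => Alg.basis h i.succ
  have hψ : ∀ i, ψ (b i) = Alg.basis h i := by
    intro i
    refine Fin.cases ?_ (fun i => ?_) i
    · simp [b, Alg.basis_zero]
    · simp [b, ψ]
  have hsurj : Function.Surjective ψ := fun y =>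
    ⟨∑ i, (Alg.basis h).repr y i • b i, by simp [hψ]⟩
  let p : HilbA k n (n + 1) := ⟨RingHom.ker ψ, by
    rw [(Ideal.quotientKerAlgEquivOfSurjective hsurj).toLinearEquiv.rank_eq,
      rank_eq_card_basis (Alg.basis h)]
    simp⟩
  have hp : ∀ f, f - ∑ i, (Alg.basis h).repr (ψ f) i • b i ∈ p.ideal := fun f => by
    change ψ _ = 0
    simp [hψ]
  have hγ : ∀ i j l, (Alg.basis h).repr (ψ (b i * b j)) l = γ i j l := fun i j l => by
    simp [hψ, Alg.basis_mul, Finsupp.single_apply]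
  let T : HilbA k n (n + 1) ≃ HilbA k n (n + 1) :=
    ⟨HilbA.act σ.symm, HilbA.act σ, fun I => HilbA.ext' (comap_comap_symm σ.symm I.ideal),
      fun I => HilbA.ext' (comap_comap_symm σ I.ideal)⟩
  refine ⟨n, n + 1, two_components T (HilbA.continuous_act _) (HilbA.continuous_act _) _
    (fun I hI => HilbA.ext' (hI.comap σ.symm)) (p := p)
    (TopologicalSpace.isOpen_generateFrom_of_mem ⟨b, rename ι s₁, rfl⟩)
    (TopologicalSpace.isOpen_generateFrom_of_mem ⟨b, rename ι s₂, rfl⟩) ?_ ?_ ?_⟩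
  · refine ⟨fun q => (Alg.basis h).repr (ψ q.1) q.2, hp, ?_⟩
    rw [eval_rename]
    convert h₁ using 3
    funext q; exact hγ _ _ _
  · have hb : ∀ i, map (σ.symm : k →+* k) (b i) = b i := by
      intro i; refine Fin.cases ?_ (fun i => ?_) i <;> simp [b]
    refine ⟨fun q => σ ((Alg.basis h).repr (ψ (map (σ.symm : k →+* k) q.1)) q.2), fun f => ?_, ?_⟩
    · change map (σ.symm : k →+* k) _ ∈ p.ideal
      rw [map_smul_sum]
      simpa only [hb, σ.symm_apply_apply] using hp (map (σ.symm : k →+* k) f)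
    · rw [eval_rename]
      convert h₂ using 3
      funext q
      simp only [Function.comp_apply, ι, map_mul (map _), hb, hγ]
  · rintro I ⟨c, hc, hc1⟩ ⟨c', hc', hc2⟩
    obtain ⟨e, he⟩ := I.coord hc
    have hv := valid_of_basis e (by rw [he]; simp)
    have := h₃ _ hv
    rw [eval_rename] at hc1 hc2
    refine mul_ne_zero hc1 hc2 ?_
    convert this using 4
    · funext q; simp only [Function.comp_apply, ι, I.coord_eq e he hc, he, map_mul, b]
    · funext q; simp only [Function.comp_apply, ι, I.coord_eq e he hc', he, map_mul, b]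

end Pool.Agent.MP_f49c72_ag

end

section

namespace Pool.Agent.MP_f49c72_ag

open Module MvPolynomial

universe u

variable {k : Type u} [Field k] {σ : Type}

lemma hc_map (τ : k ≃+* k) (t : ℕ) (f : MvPolynomial σ k) :
    map (τ : k →+* k) (homogeneousComponent t f) = homogeneousComponent t (map (τ : k →+* k) f) := by
  ext d
  simp only [coeff_map, coeff_homogeneousComponent]
  split_ifs <;> simp

/-- the action on forms of degree `m`. -/
noncomputable def formEquiv (τ : k ≃+* k) (m : ℕ) :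
    homogeneousSubmodule σ k m ≃ homogeneousSubmodule σ k m where
  toFun f := ⟨map (τ : k →+* k) f, f.2.map _⟩
  invFun f := ⟨map (τ.symm : k →+* k) f, f.2.map _⟩
  left_inv f := Subtype.ext (map_symm_map τ f.1)
  right_inv f := Subtype.ext (map_map_symm τ f.1)

lemma finrank_comap (τ : k ≃+* k) (I : Ideal (MvPolynomial σ k)) (t : ℕ) :
    finrank k ((homogeneousSubmodule σ k t).map
      (Ideal.Quotient.mkₐ k (I.comap (map (τ : k →+* k)))).toLinearMap) =
    finrank k ((homogeneousSubmodule σ k t).map (Ideal.Quotient.mkₐ k I).toLinearMap) := by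
  obtain ⟨F, hF1, hF⟩ := exists_quot_equiv τ I
  have hm : ∀ x, x ∈ (homogeneousSubmodule σ k t).map
      (Ideal.Quotient.mkₐ k (I.comap (map (τ : k →+* k)))).toLinearMap ↔
      F x ∈ (homogeneousSubmodule σ k t).map (Ideal.Quotient.mkₐ k I).toLinearMap := by
    intro x
    constructor
    · rintro ⟨f, hf, rfl⟩
      exact ⟨map (τ : k →+* k) f, hf.map _, (hF1 f).symm⟩
    · rintro ⟨f, hf, h⟩
      refine ⟨map (τ.symm : k →+* k) f, hf.map _, F.injective ?_⟩
      rw [← h]
      exact (hF1 _).trans (by rw [map_map_symm]; rfl)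
  let j : ((homogeneousSubmodule σ k t).map
      (Ideal.Quotient.mkₐ k (I.comap (map (τ : k →+* k)))).toLinearMap) ≃+
      ((homogeneousSubmodule σ k t).map (Ideal.Quotient.mkₐ k I).toLinearMap) :=
    { F.toEquiv.subtypeEquiv hm with map_add' := fun x y => Subtype.ext (F.map_add x.1 y.1) }
  unfold finrank
  rw [rank_eq_of_equiv_equiv τ j τ.bijective fun r x => Subtype.ext (hF r x.1)]

variable {n : ℕ} {P : Polynomial ℚ}

lemma HilbP.ext' {I J : HilbP k n P} (h : I.ideal = J.ideal) : I = J := by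
  cases I; cases J; simpa using h

noncomputable def HilbP.act (τ : k ≃+* k) (I : HilbP k n P) : HilbP k n P where
  ideal := I.ideal.comap (map (τ : k →+* k))
  homogeneous f hf t := by
    rw [Ideal.mem_comap, hc_map]; exact I.homogeneous _ hf t
  saturated f hf := I.saturated _ fun i => by simpa [Ideal.mem_comap] using hf i
  hilbert := by simpa only [finrank_comap] using I.hilbert

lemma HilbP.continuous_act (τ : k ≃+* k) (m : ℕ) :
    @Continuous _ _ (zariskiP k n P m) (zariskiP k n P m) (HilbP.act τ) := by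
  let _ := zariskiP k n P m
  refine continuous_generateFrom_iff.2 ?_
  rintro _ ⟨r, hr, b, Φ, rfl⟩
  refine TopologicalSpace.isOpen_generateFrom_of_mem ⟨r, hr, fun i => formEquiv τ m (b i),
    rename (fun p => (formEquiv τ m p.1, p.2)) (map (τ : k →+* k) Φ), ?_⟩
  ext I
  exact chart_comap Subtype.val τ (formEquiv τ m) (fun _ => rfl) b Φ I.ideal

/-- the forms `x_0^{m+1} x_i`. -/
noncomputable def bb (k : Type u) [Field k] (n m : ℕ) (i : Fin (n + 1)) :
    homogeneousSubmodule (Fin (n + 1)) k (m + 2) :=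
  ⟨X 0 ^ (m + 1) * X i, (isHomogeneous_X_pow 0 (m + 1)).mul (isHomogeneous_X k i)⟩

/-- the forms `x_0^m x_i x_j`. -/
noncomputable def qq (k : Type u) [Field k] (n m : ℕ) (i j : Fin (n + 1)) :
    homogeneousSubmodule (Fin (n + 1)) k (m + 2) :=
  ⟨X 0 ^ m * X i * X j,
    ((isHomogeneous_X_pow 0 m).mul (isHomogeneous_X k i)).mul (isHomogeneous_X k j)⟩

lemma HilbP.indep (I : HilbP k n (Polynomial.C ((n + 1 : ℕ) : ℚ))) {m : ℕ}
    {c : homogeneousSubmodule (Fin (n + 1)) k (m + 2) × Fin (n + 1) → k}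
    (hc : ∀ f : homogeneousSubmodule (Fin (n + 1)) k (m + 2), (f : MvPolynomial (Fin (n + 1)) k) -
      ∑ i, c (f, i) • (bb k n m i : MvPolynomial (Fin (n + 1)) k) ∈ I.ideal) (a : ℕ)
    (g : Fin (n + 1) → k) (hg : ∑ i, g i • (X 0 ^ a * X i : MvPolynomial (Fin (n + 1)) k) ∈ I.ideal) :
    ∀ i, g i = 0 := by
  let π := Ideal.Quotient.mkₐ k I.ideal
  let v : ℕ → Fin (n + 1) → MvPolynomial (Fin (n + 1)) k ⧸ I.ideal := fun t i => π (X 0 ^ t * X i)
  have h0 : ∀ f ∈ homogeneousSubmodule (Fin (n + 1)) k (m + 2),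
      π f ∈ Submodule.span k (Set.range (v (m + 1))) := by
    intro f hf
    have : π f = π _ := Ideal.Quotient.eq.2 (hc ⟨f, hf⟩)
    rw [this, map_sum]
    exact Submodule.sum_mem _ fun i _ => by
      rw [map_smul]; exact Submodule.smul_mem _ _ (Submodule.subset_span ⟨i, rfl⟩)
  have hx : ∀ s t, ∀ y ∈ Submodule.span k (Set.range (v t)),
      π (X 0 ^ s) * y ∈ Submodule.span k (Set.range (v (s + t))) := by
    intro s t y hy
    induction hy using Submodule.span_induction with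
    | mem x hx =>
      obtain ⟨i, rfl⟩ := hx
      exact Submodule.subset_span ⟨i, by simp only [v, ← map_mul, pow_add, mul_assoc]⟩
    | zero => simp
    | add x y _ _ hx hy => rw [mul_add]; exact add_mem hx hy
    | smul a x _ hx => rw [mul_smul_comm]; exact Submodule.smul_mem _ _ hx
  have h1 : ∀ t, ∀ f ∈ homogeneousSubmodule (Fin (n + 1)) k (m + 2 + t),
      π f ∈ Submodule.span k (Set.range (v (m + 1 + t))) := by
    intro t
    induction t with
    | zero => exact h0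
    | succ t ih =>
      intro f hf
      rw [← add_assoc, ← homogeneousSubmodule_one_pow, pow_succ, homogeneousSubmodule_one_pow,
        homogeneousSubmodule_one_eq_span_X] at hf
      refine Submodule.mul_induction_on hf (fun x hx' y hy => ?_) (fun x y hx hy => ?_)
      · rw [map_mul]
        have hx2 := ih x hx'
        generalize π x = w at hx2
        induction hy using Submodule.span_induction with
        | mem y hy =>
          obtain ⟨j, rfl⟩ := hy
          induction hx2 using Submodule.span_induction with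
          | mem x hx3 =>
            obtain ⟨i, rfl⟩ := hx3
            have := hx (t + 1) _ _ (h0 _ (qq k n m i j).2)
            rw [show t + 1 + (m + 1) = m + 1 + (t + 1) by ring] at this
            convert this using 1
            simp only [v, qq, ← map_mul]; congr 1; ring
          | zero => simp
          | add x y _ _ hx hy => rw [add_mul]; exact add_mem hx hy
          | smul a x _ hx => rw [smul_mul_assoc]; exact Submodule.smul_mem _ _ hx
        | zero => simp
        | add x y _ _ hx hy => rw [map_add, mul_add]; exact add_mem hx hy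
        | smul a x _ hx => rw [map_smul, mul_smul_comm]; exact Submodule.smul_mem _ _ hx
      · rw [map_add]; exact add_mem hx hy
  obtain ⟨t₀, ht₀⟩ := I.hilbert
  have h2 := ht₀ (m + 2 + (t₀ + a)) (by omega)
  rw [Polynomial.eval_C, Nat.cast_inj] at h2
  have h3 : (homogeneousSubmodule (Fin (n + 1)) k (m + 2 + (t₀ + a))).map π.toLinearMap =
      Submodule.span k (Set.range (v (m + 1 + (t₀ + a)))) := by
    apply le_antisymm
    · rintro _ ⟨f, hf, rfl⟩; exact h1 _ f hf
    · rw [Submodule.span_le]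
      rintro _ ⟨i, rfl⟩
      refine ⟨_, ?_, rfl⟩
      have := (isHomogeneous_X_pow (R := k) (0 : Fin (n + 1)) (m + 1 + (t₀ + a))).mul
        (isHomogeneous_X k i)
      rwa [show m + 1 + (t₀ + a) + 1 = m + 2 + (t₀ + a) by ring] at this
  have h4 : LinearIndependent k (v (m + 1 + (t₀ + a))) := by
    rw [linearIndependent_iff_card_eq_finrank_span, Set.finrank, ← h3, h2, Fintype.card_fin]
  refine Fintype.linearIndependent_iff.1 h4 g ?_
  have h5 : π _ = 0 := Ideal.Quotient.eq_zero_iff_mem.2 (I.ideal.mul_mem_left (X 0 ^ (m + 1 + t₀)) hg)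
  rw [← h5, Finset.mul_sum, map_sum]
  refine Finset.sum_congr rfl fun i _ => ?_
  simp only [v, mul_smul_comm, map_smul]
  congr 2; ring

lemma assoc_aux {S : Type*} [CommRing S] [Algebra k S] (J : Ideal S) {ι : Type} [Fintype ι]
    (x : ι → S) (y w : S) (γ : ι → ι → ι → k)
    (h : ∀ i j, w * x i * x j - ∑ a, γ i j a • (w * y * x a) ∈ J) (i j l : ι) :
    w * x i * x j * x l - ∑ b, (∑ a, γ i j a * γ a l b) • (w * y * y * x b) ∈ J := by
  have := add_mem (J.mul_mem_right (x l) (h i j))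
    (J.sum_mem (t := Finset.univ) fun a _ => J.mul_mem_left (γ i j a • y) (h a l))
  have e1 : (∑ a, γ i j a • (w * y * x a)) * x l = ∑ a, γ i j a • y * (w * x a * x l) := by
    rw [Finset.sum_mul]
    exact Finset.sum_congr rfl fun a _ => by simp only [Algebra.smul_def]; ring
  have e2 : ∑ b, (∑ a, γ i j a * γ a l b) • (w * y * y * x b) =
      ∑ a, γ i j a • y * ∑ b, γ a l b • (w * y * x b) := by
    simp only [Finset.sum_smul, Finset.mul_sum]
    rw [Finset.sum_comm]
    exact Finset.sum_congr rfl fun a _ => Finset.sum_congr rfl fun b _ => by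
      simp only [Algebra.smul_def, map_mul]; ring
  simp only [mul_sub, Finset.sum_sub_distrib, sub_mul] at this
  rwa [e1, ← e2, sub_add_sub_cancel] at this

lemma HilbP.valid (I : HilbP k n (Polynomial.C ((n + 1 : ℕ) : ℚ))) {m : ℕ}
    {c : homogeneousSubmodule (Fin (n + 1)) k (m + 2) × Fin (n + 1) → k}
    (hc : ∀ f : homogeneousSubmodule (Fin (n + 1)) k (m + 2), (f : MvPolynomial (Fin (n + 1)) k) -
      ∑ i, c (f, i) • (bb k n m i : MvPolynomial (Fin (n + 1)) k) ∈ I.ideal) :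
    Valid fun i j l => c (qq k n m i j, l) := by
  refine ⟨fun i j l => ?_, fun j l => ?_, fun i j l a => ?_⟩
  · have : qq k n m i j = qq k n m j i := Subtype.ext (mul_right_comm _ _ _)
    rw [this]
  · have := I.indep hc (m + 1) (fun l => (if j = l then 1 else 0) - c (qq k n m 0 j, l)) (by
      convert hc (qq k n m 0 j) using 1
      simp [sub_smul, Finset.sum_sub_distrib, qq, bb, pow_succ]) l
    exact (sub_eq_zero.1 this).symm
  · have key : ∀ i j l, (X 0 ^ m * X i * X j * X l : MvPolynomial (Fin (n + 1)) k) -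
        ∑ b, (∑ a, c (qq k n m i j, a) * c (qq k n m a l, b)) • (X 0 ^ (m + 2) * X b) ∈
          I.ideal := by
      simp only [pow_succ]
      exact assoc_aux I.ideal X (X 0) (X 0 ^ m) (fun i j a => c (qq k n m i j, a))
        fun i j => by simpa only [qq, bb, pow_succ] using hc (qq k n m i j)
    have := I.indep hc (m + 2) (fun b => (∑ a, c (qq k n m i j, a) * c (qq k n m a l, b)) -
      ∑ a, c (qq k n m j l, a) * c (qq k n m a i, b)) (by
      convert sub_mem (key j l i) (key i j l) using 1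
      simp only [sub_smul, Finset.sum_sub_distrib]; ring) a
    rw [sub_eq_zero.1 this]
    refine Finset.sum_congr rfl fun b _ => ?_
    have : qq k n m b i = qq k n m i b := Subtype.ext (mul_right_comm _ _ _)
    rw [this]

lemma coeff_aeval_T {A : Type*} [CommRing A] [Algebra k A] (e : σ → A) (f : MvPolynomial σ k)
    (t : ℕ) : (aeval (fun i => Polynomial.C (e i) * Polynomial.X) f : Polynomial A).coeff t =
      aeval e (homogeneousComponent t f) := by
  induction f using MvPolynomial.induction_on' with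
  | monomial s a =>
    rw [homogeneousComponent_of_mem (isHomogeneous_monomial a rfl), aeval_monomial]
    have : (s.prod fun i n => (Polynomial.C (e i) * Polynomial.X) ^ n) =
        Polynomial.C (s.prod fun i n => e i ^ n) * Polynomial.X ^ s.degree := by
      simp only [Finsupp.prod, mul_pow, Finset.prod_mul_distrib, map_prod, map_pow,
        Finset.prod_pow_eq_pow_sum, Finsupp.degree_apply]
    rw [this, Polynomial.algebraMap_apply, ← mul_assoc, ← map_mul, Polynomial.coeff_C_mul_X_pow]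
    split_ifs
    · rw [aeval_monomial]
    · simp
  | add p q hp hq => simp only [map_add, Polynomial.coeff_add, hp, hq]

lemma finrank_map_eq {M N N' : Type*} [AddCommGroup M] [Module k M] [AddCommGroup N] [Module k N]
    [AddCommGroup N'] [Module k N'] (W : Submodule k M) (f : M →ₗ[k] N) (g : M →ₗ[k] N')
    (h : ∀ x ∈ W, f x = 0 ↔ g x = 0) : finrank k (W.map f) = finrank k (W.map g) := by
  rw [← LinearMap.range_domRestrict, ← LinearMap.range_domRestrict,
    ← (f.domRestrict W).quotKerEquivRange.finrank_eq, ← (g.domRestrict W).quotKerEquivRange.finrank_eq]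
  have : LinearMap.ker (f.domRestrict W) = LinearMap.ker (g.domRestrict W) := by
    ext x; exact h x.1 x.2
  rw [this]

theorem mainP_of (k : Type u) [Field k] (hcore : CoreStmt k) :
    ∃ (n : ℕ) (P : Polynomial ℚ), ∀ m ≥ 2,
      ∃ Z₁ ∈ @irreducibleComponents _ (zariskiP k n P m),
      ∃ Z₂ ∈ @irreducibleComponents _ (zariskiP k n P m), Z₁ ≠ Z₂ ∧
        {I ∈ Z₁ | IsMonomialIdeal I.ideal} = {I ∈ Z₂ | IsMonomialIdeal I.ideal} := by
  obtain ⟨σ, n, γ, h, s₁, s₂, h₁, h₂, h₃⟩ := hcore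
  refine ⟨n, Polynomial.C ((n + 1 : ℕ) : ℚ), fun m hm => ?_⟩
  obtain ⟨m, rfl⟩ : ∃ m', m = m' + 2 := ⟨m - 2, by omega⟩
  let _ := zariskiP k n (Polynomial.C ((n + 1 : ℕ) : ℚ)) (m + 2)
  let ι : Fin (n + 1) × Fin (n + 1) × Fin (n + 1) →
      homogeneousSubmodule (Fin (n + 1)) k (m + 2) × Fin (n + 1) :=
    fun p => (qq k n m p.1 p.2.1, p.2.2)
  let ψ : MvPolynomial (Fin (n + 1)) k →ₐ[k] Alg h := aeval (Alg.basis h)
  let φ : MvPolynomial (Fin (n + 1)) k →ₐ[k] Polynomial (Alg h) :=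
    aeval fun i => Polynomial.C (Alg.basis h i) * Polynomial.X
  have hφ : ∀ f, φ f = 0 ↔ ∀ t, ψ (homogeneousComponent t f) = 0 := by
    intro f
    rw [Polynomial.ext_iff]
    exact forall_congr' fun t => by rw [coeff_aeval_T]; rfl
  have hφ' : ∀ t, ∀ f ∈ homogeneousSubmodule (Fin (n + 1)) k t, φ f = 0 ↔ ψ f = 0 := by
    intro t f hf
    rw [hφ]
    constructor
    · intro H; simpa [homogeneousComponent_of_mem hf] using H t
    · intro H s; rw [homogeneousComponent_of_mem hf]; split_ifs <;> simp [H]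
  have hψ : ∀ a i, ψ (X 0 ^ a * X i) = Alg.basis h i := by
    intro a i; simp [ψ, Alg.basis_zero]
  let p : HilbP k n (Polynomial.C ((n + 1 : ℕ) : ℚ)) :=
    { ideal := RingHom.ker φ
      homogeneous := fun f hf t =>
        (hφ' t _ (homogeneousComponent_mem t f)).2 ((hφ f).1 hf t)
      saturated := fun f hf => by
        have := hf 0
        rw [RingHom.mem_ker] at this ⊢
        simpa [φ, Alg.basis_zero] using this
      hilbert := ⟨1, fun t ht => by
        obtain ⟨t, rfl⟩ : ∃ t', t = t' + 1 := ⟨t - 1, by omega⟩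
        rw [Polynomial.eval_C, finrank_map_eq _ _ ψ.toLinearMap fun f hf =>
          Ideal.Quotient.eq_zero_iff_mem.trans (hφ' _ f hf)]
        have : (homogeneousSubmodule (Fin (n + 1)) k (t + 1)).map ψ.toLinearMap = ⊤ := by
          rw [eq_top_iff, ← (Alg.basis h).span_eq, Submodule.span_le]
          rintro _ ⟨i, rfl⟩
          exact ⟨_, (isHomogeneous_X_pow 0 t).mul (isHomogeneous_X k i), hψ t i⟩
        rw [this, finrank_top, finrank_eq_card_basis (Alg.basis h), Fintype.card_fin]⟩ }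
  have hp : ∀ f : homogeneousSubmodule (Fin (n + 1)) k (m + 2), (f : MvPolynomial (Fin (n + 1)) k) -
      ∑ i, (Alg.basis h).repr (ψ f) i • (bb k n m i : MvPolynomial (Fin (n + 1)) k) ∈ p.ideal := by
    intro f
    refine (hφ' (m + 2) _ (sub_mem f.2 (Submodule.sum_mem _ fun i _ =>
      Submodule.smul_mem _ _ (bb k n m i).2))).2 ?_
    simp only [bb, map_sub, map_sum, map_smul, hψ, Basis.sum_repr, sub_self]
  have hγ : ∀ i j l, (Alg.basis h).repr (ψ (qq k n m i j)) l = γ i j l := fun i j l => by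
    simp [ψ, qq, Alg.basis_zero, Alg.basis_mul, Finsupp.single_apply]
  let T : HilbP k n (Polynomial.C ((n + 1 : ℕ) : ℚ)) ≃ HilbP k n (Polynomial.C ((n + 1 : ℕ) : ℚ)) :=
    ⟨HilbP.act σ.symm, HilbP.act σ, fun I => HilbP.ext' (comap_comap_symm σ.symm I.ideal),
      fun I => HilbP.ext' (comap_comap_symm σ I.ideal)⟩
  refine two_components T (HilbP.continuous_act _ _) (HilbP.continuous_act _ _) _
    (fun I hI => HilbP.ext' (hI.comap σ.symm)) (p := p)
    (TopologicalSpace.isOpen_generateFrom_of_mem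
      ⟨n + 1, Polynomial.eval_C.symm, bb k n m, rename ι s₁, rfl⟩)
    (TopologicalSpace.isOpen_generateFrom_of_mem
      ⟨n + 1, Polynomial.eval_C.symm, bb k n m, rename ι s₂, rfl⟩) ?_ ?_ ?_
  · refine ⟨fun q => (Alg.basis h).repr (ψ q.1) q.2, hp, ?_⟩
    rw [eval_rename]
    convert h₁ using 3
    funext q; exact hγ _ _ _
  · have hb : ∀ i, map (σ.symm : k →+* k) (bb k n m i : MvPolynomial (Fin (n + 1)) k) =
        bb k n m i := by
      intro i; simp [bb]
    have hq : ∀ i j, map (σ.symm : k →+* k) (qq k n m i j : MvPolynomial (Fin (n + 1)) k) =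
        qq k n m i j := by
      intro i j; simp [qq]
    refine ⟨fun q => σ ((Alg.basis h).repr (ψ (map (σ.symm : k →+* k) q.1)) q.2), fun f => ?_, ?_⟩
    · change map (σ.symm : k →+* k) _ ∈ p.ideal
      rw [map_smul_sum]
      simp only [hb, σ.symm_apply_apply]
      exact hp (formEquiv σ.symm _ f)
    · rw [eval_rename]
      convert h₂ using 3
      funext q
      simp only [Function.comp_apply, ι, hq, hγ]
  · rintro I ⟨c, hc, hc1⟩ ⟨c', hc', hc2⟩
    have e : c' = c := by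
      funext ⟨f, l⟩
      have := I.indep hc (m + 1) (fun l => c' (f, l) - c (f, l)) (by
        convert sub_mem (hc f) (hc' f) using 1
        simp [sub_smul, Finset.sum_sub_distrib, bb]) l
      exact sub_eq_zero.1 this
    subst e
    rw [eval_rename] at hc1 hc2
    have := h₃ _ (I.valid hc)
    refine mul_ne_zero hc1 hc2 ?_
    convert this using 4 <;> rfl

end Pool.Agent.MP_f49c72_ag

end

end
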