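import Pool.Agent.MP_f49c72_ag.All.PartA
import Pool.Agent.MP_f49c72_ag.All.PartB

section

/-! The twisted quadrics and the functionals vanishing on the ideal. -/

namespace Pool.Agent.MP_f49c72_ag.All

open MvPolynomial

universe u

variable {k : Type u} [Field k] {G : Type} [Field G] {V : Type}

/-- the family of quadrics. -/
def QQ (χ : AddChar G k) (c : V → V → G) : Binom k (Fin 3 × V) (V × V × Fin 3 × Fin 3) where
  a := fun p => (p.2.2.1, p.1)
  b := fun p => (p.2.2.2, p.2.1)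
  a' := fun p => (p.2.2.2, p.1)
  b' := fun p => (p.2.2.1, p.2.1)
  α := fun p => χ (ew G p.2.2.2 * c p.1 p.2.1)
  β := fun p => if p.2.2.1 = p.2.2.2 then 0 else - χ (ew G p.2.2.1 * c p.1 p.2.1)

variable (χ : AddChar G k)

noncomputable def xf (u : V) (a : G) (i : Fin 3) : MvPolynomial (Fin 3 × V) k :=
  χ (ew G i * a) • X (i, u)

noncomputable def qf (u : V) (a : G) (v : V) (b : G) (i j : Fin 3) :
    MvPolynomial (Fin 3 × V) k :=
  xf χ u a i * xf χ v b j - xf χ u a j * xf χ v b i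

lemma xf_zero (u : V) (i : Fin 3) : xf χ u 0 i = X (i, u) := by simp [xf]

lemma xf_re (u : V) (a a' : G) (i : Fin 3) :
    xf χ u a i = χ (ew G i * (a - a')) • xf χ u a' i := by
  rw [xf, xf, smul_smul, ← AddChar.map_add_eq_mul]; congr 2; ring

lemma qf_shift (u : V) (a : G) (v : V) (b δ : G) (i j : Fin 3) :
    qf χ u (a + δ) v (b + δ) i j = χ ((ew G i + ew G j) * δ) • qf χ u a v b i j := by
  unfold qf
  rw [xf_re χ u (a + δ) a i, xf_re χ u (a + δ) a j, xf_re χ v (b + δ) b i, xf_re χ v (b + δ) b j]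
  rw [add_mul (ew G i), AddChar.map_add_eq_mul]
  simp only [add_sub_cancel_left, mul_smul_comm, smul_smul, smul_sub, mul_comm]

variable (c : V → V → G)

lemma q_ne (u v : V) {i j : Fin 3} (h : i ≠ j) :
    (QQ χ c).q (u, v, i, j) = qf χ u 0 v (c u v) i j := by
  simp [qf, xf, Binom.q, Binom.ev, QQ, h, sub_eq_add_neg]

lemma q_eq (u v : V) (i : Fin 3) :
    (QQ χ c).q (u, v, i, i) = xf χ u 0 i * xf χ v (c u v) i := by
  simp [xf, Binom.q, Binom.ev, QQ]

lemma qf_mem {u v : V} {a b : G} (h : b = a + c u v) (i j : Fin 3) :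
    qf χ u a v b i j ∈ (QQ χ c).I2 := by
  by_cases hij : i = j
  · subst hij; simp [qf]
  have := qf_shift χ u 0 v (c u v) a i j
  rw [zero_add, add_comm, ← h, ← q_ne χ c u v hij] at this
  rw [this]
  exact Submodule.smul_mem _ _ ((QQ χ c).q_mem_I2 _)

lemma mm_mem (u : V) (a : G) (v : V) (b : G) (i : Fin 3) :
    xf χ u a i * xf χ v b i ∈ (QQ χ c).I2 := by
  rw [xf_re χ u a 0, xf_re χ v b (c u v), smul_mul_smul_comm, ← q_eq]
  exact Submodule.smul_mem _ _ ((QQ χ c).q_mem_I2 _)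

noncomputable def Phi (p : V → G) :
    MvPolynomial (Fin 3 × V) k →ₐ[k] MvPolynomial (Fin 3) (MvPolynomial V k) :=
  aeval fun a => X a.1 * C (χ (-(ew G a.1 * p a.2)) • X a.2)

variable [DecidableEq V]

/-- coefficient functionals in the frame `p`. -/
noncomputable def LL (p : V → G) (ε : Multiset (Fin 3)) (ρ : Multiset V) :
    MvPolynomial (Fin 3 × V) k →ₗ[k] k :=
  lcoeff k (Multiset.toFinsupp ρ) ∘ₗ
    (lcoeff (MvPolynomial V k) (Multiset.toFinsupp ε)).restrictScalars k ∘ₗ (Phi χ p).toLinearMap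

lemma LL_apply (p : V → G) (ε : Multiset (Fin 3)) (ρ : Multiset V) (g : MvPolynomial (Fin 3 × V) k) :
    LL χ p ε ρ g = coeff (Multiset.toFinsupp ρ) (coeff (Multiset.toFinsupp ε) (Phi χ p g)) := rfl

lemma pswap {α : Type} (a b : α) : (a ::ₘ {b} : Multiset α) = b ::ₘ {a} := Multiset.pair_comm a b

lemma toFinsupp_erase {α : Type} [DecidableEq α] (s : Multiset α) (a : α) :
    Multiset.toFinsupp s - Finsupp.single a 1 = Multiset.toFinsupp (s.erase a) := by
  ext b
  by_cases h : b = a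
  · subst h; simp
  · simp [Multiset.count_erase_of_ne h, Finsupp.single_eq_of_ne h]

lemma LL_xf_mul (p : V → G) (ε : Multiset (Fin 3)) (ρ : Multiset V) (u : V) (a : G) (i : Fin 3)
    (g : MvPolynomial (Fin 3 × V) k) : LL χ p ε ρ (xf χ u a i * g) =
      if i ∈ ε ∧ u ∈ ρ then χ (ew G i * (a - p u)) * LL χ p (ε.erase i) (ρ.erase u) g else 0 := by
  rw [xf, smul_mul_assoc, map_smul, LL_apply, map_mul (Phi χ p), Phi, aeval_X, mul_assoc,
    coeff_X_mul']
  by_cases hi : i ∈ ε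
  · simp only [Multiset.toFinsupp_support, Multiset.mem_toFinset, hi, if_true, coeff_C_mul,
      smul_mul_assoc, coeff_smul, coeff_X_mul', true_and, toFinsupp_erase]
    by_cases hu : u ∈ ρ
    · simp only [hu, if_true, smul_eq_mul, LL_apply, Phi]
      rw [← mul_assoc, chi_mul rfl]; congr 2; ring
    · simp [hu]
  · simp [hi]

lemma LL_C (p : V → G) (ε : Multiset (Fin 3)) (ρ : Multiset V) (r : k) :
    LL χ p ε ρ (C r) = if ε = 0 ∧ ρ = 0 then r else 0 := by
  rw [LL_apply, Phi, aeval_C, MvPolynomial.algebraMap_apply, coeff_C]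
  by_cases h : ε = 0
  · by_cases h' : ρ = 0
    · simp [h, h']
    · have : ¬ 0 = Multiset.toFinsupp ρ := fun e => h' (by simpa using e.symm)
      simp [h, h', coeff_C, this]
  · have : ¬ 0 = Multiset.toFinsupp ε := fun e => h (by simpa using e.symm)
    simp [h, this]

lemma LL_hit {p : V → G} {ε ε' : Multiset (Fin 3)} {ρ ρ' : Multiset V} {u : V} {i : Fin 3}
    (h1 : ε = i ::ₘ ε') (h2 : ρ = u ::ₘ ρ') (a : G) (g : MvPolynomial (Fin 3 × V) k) :
    LL χ p ε ρ (xf χ u a i * g) = χ (ew G i * (a - p u)) * LL χ p ε' ρ' g := by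
  rw [LL_xf_mul, h1, h2]; simp

lemma LL_missV {p : V → G} {ε : Multiset (Fin 3)} {ρ : Multiset V} {u : V} (h : u ∉ ρ) (i : Fin 3)
    (a : G) (g : MvPolynomial (Fin 3 × V) k) : LL χ p ε ρ (xf χ u a i * g) = 0 := by
  rw [LL_xf_mul]; simp [h]

lemma LL_missI {p : V → G} {ε : Multiset (Fin 3)} {ρ : Multiset V} {i : Fin 3} (h : i ∉ ε) (u : V)
    (a : G) (g : MvPolynomial (Fin 3 × V) k) : LL χ p ε ρ (xf χ u a i * g) = 0 := by
  rw [LL_xf_mul]; simp [h]

lemma LL_xf (p : V → G) (ε : Multiset (Fin 3)) (ρ : Multiset V) (u : V) (a : G) (i : Fin 3) :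
    LL χ p ε ρ (xf χ u a i) = if ε = {i} ∧ ρ = {u} then χ (ew G i * (a - p u)) else 0 := by
  rw [← mul_one (xf χ u a i), ← C_1]
  by_cases h1 : i ∈ ε
  · by_cases h2 : u ∈ ρ
    · obtain ⟨ε', rfl⟩ := Multiset.exists_cons_of_mem h1
      obtain ⟨ρ', rfl⟩ := Multiset.exists_cons_of_mem h2
      rw [LL_hit χ rfl rfl, LL_C]
      simp [← Multiset.cons_zero]
    · rw [LL_missV χ h2, if_neg]; rintro ⟨-, rfl⟩; simp at h2
  · rw [LL_missI χ h1, if_neg]; rintro ⟨rfl, -⟩; simp at h1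

lemma LL_xf_xf (p : V → G) (ε : Multiset (Fin 3)) (ρ : Multiset V) (u : V) (a : G) (i : Fin 3)
    (v : V) (b : G) (j : Fin 3) : LL χ p ε ρ (xf χ u a i * xf χ v b j) =
      if ε = i ::ₘ {j} ∧ ρ = u ::ₘ {v} then χ (ew G i * (a - p u)) * χ (ew G j * (b - p v)) else 0 := by
  by_cases h1 : i ∈ ε
  · by_cases h2 : u ∈ ρ
    · obtain ⟨ε', rfl⟩ := Multiset.exists_cons_of_mem h1
      obtain ⟨ρ', rfl⟩ := Multiset.exists_cons_of_mem h2
      rw [LL_hit χ rfl rfl, LL_xf]
      simp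
    · rw [LL_missV χ h2, if_neg]; rintro ⟨-, rfl⟩; simp at h2
  · rw [LL_missI χ h1, if_neg]; rintro ⟨rfl, -⟩; simp at h1

lemma LL_shift {p p' : V → G} {δ : G} (g : MvPolynomial (Fin 3 × V) k) :
    ∀ (ε : Multiset (Fin 3)) (ρ : Multiset V), (∀ a ∈ ρ, p' a = p a + δ) →
      LL χ p' ε ρ g = χ (-((ε.map (ew G)).sum * δ)) * LL χ p ε ρ g := by
  induction g using MvPolynomial.induction_on with
  | C r => intro ε ρ _; rw [LL_C, LL_C]; split_ifs with h <;> simp [h]
  | add f g hf hg => intro ε ρ h; rw [map_add, map_add, hf ε ρ h, hg ε ρ h, mul_add]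
  | mul_X f e hf =>
    obtain ⟨i, u⟩ := e
    intro ε ρ h
    rw [mul_comm, ← xf_zero χ]
    by_cases h1 : i ∈ ε
    · by_cases h2 : u ∈ ρ
      · obtain ⟨ε', rfl⟩ := Multiset.exists_cons_of_mem h1
        obtain ⟨ρ', rfl⟩ := Multiset.exists_cons_of_mem h2
        rw [LL_hit χ rfl rfl, LL_hit χ rfl rfl, hf ε' ρ' fun a ha => h a (by simp [ha]),
          h u h2, ← mul_assoc, ← mul_assoc, chi_mul rfl, chi_mul rfl]
        congr 2; simp; ring
      · simp [LL_missV χ h2]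
    · simp [LL_missI χ h1]

/-- the frame is compatible with the cochain on the given vertices. -/
def Cons (p : V → G) (ρ : Multiset V) : Prop := ∀ a ∈ ρ, ∀ b ∈ ρ, p b = p a + c a b

/-- a component of `g` vanishes. -/
def Van (ε : Multiset (Fin 3)) (ρ : Multiset V) (g : MvPolynomial (Fin 3 × V) k) : Prop :=
  ∀ p, Cons c p ρ → LL χ p ε ρ g = 0

variable {χ c}

lemma Van.intro {ε : Multiset (Fin 3)} {ρ : Multiset V} {g : MvPolynomial (Fin 3 × V) k}
    {p : V → G} (hp : Cons c p ρ) (h : LL χ p ε ρ g = 0) : Van χ c ε ρ g := by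
  intro p' hp'
  obtain ⟨δ, hδ⟩ : ∃ δ, ∀ a ∈ ρ, p' a = p a + δ := by
    rcases Multiset.empty_or_exists_mem ρ with rfl | ⟨a, ha⟩
    · exact ⟨0, by simp⟩
    · exact ⟨p' a - p a, fun b hb => by rw [hp a ha b hb, hp' a ha b hb]; ring⟩
  rw [LL_shift χ g ε ρ hδ, h, mul_zero]

omit [DecidableEq V] in
lemma Cons.mono {p : V → G} {ρ ρ' : Multiset V} (h : Cons c p ρ) (h' : ∀ a ∈ ρ', a ∈ ρ) :
    Cons c p ρ' := fun a ha b hb => h a (h' a ha) b (h' b hb)

lemma LL_kill {f : MvPolynomial (Fin 3 × V) k} (hf : f ∈ (QQ χ c).I) :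
    ∀ ε ρ, ε.Nodup → Van χ c ε ρ f := by
  let W : Submodule k (MvPolynomial (Fin 3 × V) k) :=
    { carrier := {f | ∀ ε ρ, ε.Nodup → Van χ c ε ρ f}
      add_mem' := fun h1 h2 ε ρ h p hp => by rw [map_add, h1 ε ρ h p hp, h2 ε ρ h p hp, add_zero]
      zero_mem' := fun _ _ _ _ _ => map_zero _
      smul_mem' := fun r f h1 ε ρ h p hp => by rw [map_smul, h1 ε ρ h p hp, smul_zero] }
  refine (QQ χ c).I_le W ?_ ?_ f hf
  · rintro ⟨i, u⟩ f h ε ρ h1 p hp
    rw [← xf_zero χ, LL_xf_mul, h _ _ (h1.erase i) p (hp.mono fun a => Multiset.mem_of_mem_erase)]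
    simp
  · rintro ⟨u, v, i, j⟩ ε ρ h1 p hp
    by_cases hij : i = j
    · subst hij
      rw [q_eq, LL_xf_xf, if_neg]
      rintro ⟨rfl, -⟩; simp at h1
    · rw [q_ne χ c u v hij, qf, map_sub, LL_xf_xf, LL_xf_xf, pswap j i]
      split_ifs with h
      · obtain ⟨-, rfl⟩ := h
        rw [hp u (by simp) v (by simp), chi_mul rfl, chi_mul rfl, sub_eq_zero]; congr 1; ring
      · simp

lemma LL_zero (p : V → G) (g : MvPolynomial (Fin 3 × V) k) : LL χ p 0 0 g = c0 g := by
  induction g using MvPolynomial.induction_on with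
  | C r => simp [LL_C]
  | add f g hf hg => simp [hf, hg]
  | mul_X f e _ =>
    obtain ⟨i, u⟩ := e
    rw [map_mul c0, c0_X, mul_zero, mul_comm, ← xf_zero χ, LL_missI χ (by simp)]

lemma LL_one (p : V → G) (i : Fin 3) (s : V) (g : MvPolynomial (Fin 3 × V) k) :
    LL χ p {i} {s} g = χ (-(ew G i * p s)) * d1 (i, s) g := by
  induction g using MvPolynomial.induction_on with
  | C r => simp [LL_C]
  | add f g hf hg => simp [hf, hg, mul_add]
  | mul_X f e _ =>
    obtain ⟨j, u⟩ := e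
    rw [d1_mul, d1_X, c0_X, mul_comm f, ← xf_zero χ, LL_xf_mul]
    by_cases h1 : j = i <;> by_cases h2 : u = s
    · subst h1; subst h2; simp [LL_zero]
    · simp [h2, Ne.symm h2]
    · simp [h1, Ne.symm h1]
    · simp [h1, Ne.symm h1]

lemma LL_two (p : V → G) {i j : Fin 3} (hij : i ≠ j) (s t : V) (g : MvPolynomial (Fin 3 × V) k) :
    LL χ p (i ::ₘ {j}) (s ::ₘ {t}) g = χ (-(ew G i * p s)) * χ (-(ew G j * p t)) * d2 (i, s) (j, t) g +
      if s = t then 0 else χ (-(ew G i * p t)) * χ (-(ew G j * p s)) * d2 (i, t) (j, s) g := by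
  induction g using MvPolynomial.induction_on with
  | C r => simp [LL_C]
  | add f g hf hg => rw [map_add, hf, hg]; split_ifs <;> simp only [map_add] <;> ring
  | mul_X f e _ =>
    obtain ⟨l, u⟩ := e
    simp only [d2_mul, d1_X, d2_X, c0_X, mul_zero, zero_add, add_zero, Prod.mk.injEq]
    rw [mul_comm f, ← xf_zero χ]
    by_cases h1 : l = i
    · subst h1
      by_cases h2 : u = s
      · subst h2
        rw [LL_hit χ rfl rfl, LL_one]
        by_cases h3 : u = t <;> simp [h3, hij.symm, Ne.symm, mul_assoc]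
      by_cases h3 : u = t
      · subst h3
        rw [LL_hit χ rfl (pswap _ _), LL_one]
        simp [Ne.symm h2, hij.symm, mul_assoc]
      · rw [LL_missV χ (by simp [h2, h3])]
        simp [Ne.symm h2, Ne.symm h3]
    by_cases h1' : l = j
    · subst h1'
      by_cases h2 : u = t
      · subst h2
        rw [LL_hit χ (pswap _ _) (pswap _ _), LL_one]
        by_cases h3 : s = u <;> simp [h3, hij, mul_assoc, mul_left_comm]
      by_cases h3 : u = s
      · subst h3
        rw [LL_hit χ (pswap _ _) rfl, LL_one]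
        simp [h2, Ne.symm h2, hij, mul_assoc, mul_left_comm]
      · rw [LL_missV χ (by simp [h2, h3])]
        simp [Ne.symm h2, Ne.symm h3]
    · rw [LL_missI χ (by simp [h1, h1'])]
      simp [Ne.symm h1, Ne.symm h1']

end Pool.Agent.MP_f49c72_ag.All

end

section

/-! A criterion for lying in the cubic part. -/

namespace Pool.Agent.MP_f49c72_ag.All

open MvPolynomial

universe u

variable {k : Type u} [Field k] {G : Type} [Field G] {V : Type} {χ : AddChar G k}
  {c : V → V → G} {ω o : V}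

lemma Ext.cons (h : Ext c ω o) {s t r : V} (hf : hol c s t r = 0) {ρ : Multiset V}
    (hρ : ∀ a ∈ ρ, a = s ∨ a = t ∨ a = r) : Cons c (c s) ρ := by
  rw [h.hol_eq] at hf
  intro a ha b hb
  rcases hρ a ha with rfl | rfl | rfl <;> rcases hρ b hb with rfl | rfl | rfl <;>
    first | (rw [h.diag]; ring1) | linear_combination h.diag b - h.anti b a |
      linear_combination -hf | linear_combination hf - h.anti b a

lemma Ext.cons2 (h : Ext c ω o) (s t : V) {ρ : Multiset V} (hρ : ∀ a ∈ ρ, a = s ∨ a = t) :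
    Cons c (c s) ρ :=
  h.cons (h.hol_self₂ s t) fun a ha => (hρ a ha).imp_right Or.inl

lemma quart (a b d e : Fin 3 × V) :
    ∃ (f g : Fin 3 × V) (j : V × V × Fin 3 × Fin 3) (γ : k),
      (X a * X b * X d * X e : MvPolynomial (Fin 3 × V) k) = γ • (X f * X g * (QQ χ c).q j) := by
  have key : ∀ (a b : Fin 3 × V), a.1 = b.1 → ∃ (j : V × V × Fin 3 × Fin 3) (γ : k),
      (X a * X b : MvPolynomial (Fin 3 × V) k) = γ • (QQ χ c).q j := by
    rintro ⟨i, u⟩ ⟨j, v⟩ (rfl : i = j)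
    refine ⟨(u, v, i, i), χ (-(ew G i * c u v)), ?_⟩
    rw [q_eq, xf_zero, xf, mul_smul_comm, smul_smul, mul_comm (χ _), chi_mul_neg, one_smul]
  have ph : ∀ i j l m : Fin 3, i = j ∨ i = l ∨ i = m ∨ j = l ∨ j = m ∨ l = m := by decide
  rcases ph a.1 b.1 d.1 e.1 with h | h | h | h | h | h <;> obtain ⟨j, γ, hj⟩ := key _ _ h
  · exact ⟨d, e, j, γ, by rw [← mul_smul_comm, ← hj]; ring⟩
  · exact ⟨b, e, j, γ, by rw [← mul_smul_comm, ← hj]; ring⟩
  · exact ⟨b, d, j, γ, by rw [← mul_smul_comm, ← hj]; ring⟩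
  · exact ⟨a, e, j, γ, by rw [← mul_smul_comm, ← hj]; ring⟩
  · exact ⟨a, d, j, γ, by rw [← mul_smul_comm, ← hj]; ring⟩
  · exact ⟨a, b, j, γ, by rw [← mul_smul_comm, ← hj]; ring⟩

variable [DecidableEq V] [Fintype V]

lemma taylor (Q : Binom k (Fin 3 × V) (V × V × Fin 3 × Fin 3))
    (hq : ∀ a b c d, Q.x a * Q.x b * Q.x c * Q.x d = 0)
    (hm : ∀ a b : Fin 3 × V, a.1 = b.1 → Q.x a * Q.x b = 0) (f : MvPolynomial (Fin 3 × V) k) :
    Q.pr f - (algebraMap k _ (c0 f) + ∑ a, d1 a f • Q.x a +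
      ∑ a, ∑ b, (if a.1 < b.1 then d2 a b f else 0) • (Q.x a * Q.x b)) ∈ Q.M3 := by
  have hM : ∀ a {y : Q.A}, y ∈ Q.M3 → y * Q.x a = 0 := by
    intro a y hy
    induction hy using Submodule.span_induction with
    | mem x hx => obtain ⟨p, rfl⟩ := hx; exact hq _ _ _ _
    | zero => simp
    | add x y _ _ hx hy => rw [add_mul, hx, hy, add_zero]
    | smul a x _ hx => rw [smul_mul_assoc, hx, smul_zero]
  induction f using MvPolynomial.induction_on with
  | C r =>
    have : Q.pr (C r) = algebraMap k _ r := Q.pr.commutes r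
    simp [this]
  | add p q hp hq =>
    convert add_mem hp hq using 1
    simp only [map_add, add_smul, Finset.sum_add_distrib, ite_add_zero]; abel
  | mul_X p e hp =>
    have h1 := hM e hp
    have hx : Q.pr (X e) = Q.x e := rfl
    have h3 : (∑ a, ∑ b, (if a.1 < b.1 then d2 a b p else 0) • (Q.x a * Q.x b)) * Q.x e ∈
        Q.M3 := by
      rw [Finset.sum_mul]
      refine Submodule.sum_mem _ fun a _ => ?_
      rw [Finset.sum_mul]
      refine Submodule.sum_mem _ fun b _ => ?_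
      rw [smul_mul_assoc]
      exact Submodule.smul_mem _ _ (Submodule.subset_span ⟨(a, b, e), rfl⟩)
    convert h3 using 1
    rw [sub_mul, sub_eq_zero] at h1
    rw [map_mul, hx, h1]
    have e1 : ∑ a, ∑ b, (if a.1 < b.1 then d2 a b (p * X e) else 0) • (Q.x a * Q.x b) =
        ∑ a, d1 a p • (Q.x a * Q.x e) := by
      have e2 : ∀ a b : Fin 3 × V, (if a.1 < b.1 then d2 a b (p * X e) else 0) • (Q.x a * Q.x b) =
          (if b = e then (if a.1 < e.1 then d1 a p else 0) • (Q.x a * Q.x e) else 0) +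
          (if a = e then (if e.1 < b.1 then d1 b p else 0) • (Q.x b * Q.x e) else 0) := by
        intro a b
        simp only [d2_mul, d1_X, d2_X, c0_X, mul_zero, zero_add, add_zero]
        by_cases h1 : b = e <;> by_cases h2 : a = e
        · simp [h1, h2]
        · simp [h1, h2]
        · simp [h1, h2, mul_comm]
        · simp [h1, h2]
      simp only [e2, Finset.sum_add_distrib]
      rw [Finset.sum_comm (f := fun a b => if a = e then _ else 0)]
      simp only [Finset.sum_ite_eq', Finset.mem_univ, if_true, ← Finset.sum_add_distrib]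
      refine Finset.sum_congr rfl fun a _ => ?_
      rcases lt_trichotomy a.1 e.1 with h | h | h
      · simp [h, h.not_gt]
      · simp [hm a e h]
      · simp [h, h.not_gt]
    rw [e1]
    simp only [map_mul, c0_X, mul_zero, map_zero, zero_add, d1_mul, d1_X, mul_ite, mul_one,
      ite_smul, zero_smul, Finset.sum_ite_eq', Finset.mem_univ, if_true]
    rw [add_mul, add_mul, Finset.sum_mul, ← Algebra.smul_def]
    simp only [smul_mul_assoc]
    abel

lemma mem_M3 (h : Ext c ω o) (g : MvPolynomial (Fin 3 × V) k) (h0 : Van χ c 0 0 g)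
    (h1 : ∀ i s, Van χ c {i} {s} g)
    (h2 : ∀ i j, i ≠ j → ∀ s t, Van χ c (i ::ₘ {j}) (s ::ₘ {t}) g) :
    (QQ χ c).pr g ∈ (QQ χ c).M3 := by
  have hq : ∀ a b d e, (QQ χ c).x a * (QQ χ c).x b * (QQ χ c).x d * (QQ χ c).x e = 0 := by
    intro a b d e
    obtain ⟨f, g, j, γ, h⟩ := quart (χ := χ) (c := c) a b d e
    have := congrArg (QQ χ c).pr h
    rw [map_smul, map_mul (QQ χ c).pr _ ((QQ χ c).q j),
      (QQ χ c).pr_eq_zero.2 ((QQ χ c).q_mem_I j)] at this
    simpa [Binom.x] using this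
  have := taylor (QQ χ c) hq (by
    rintro ⟨i, u⟩ ⟨j, v⟩ (rfl : i = j)
    simpa [xf_zero, Binom.x] using (QQ χ c).pr_eq_zero.2 ((QQ χ c).I2_le (mm_mem χ c u 0 v 0 i))) g
  have e0 : c0 g = 0 := by rw [← LL_zero (χ := χ) 0]; exact h0 _ (by simp [Cons])
  have e1 : ∀ a, d1 a g = 0 := by
    rintro ⟨m, s⟩
    have := h1 m s _ (h.cons2 s s (by simp))
    rw [LL_one] at this
    exact (mul_eq_zero.1 this).resolve_left (chi_ne _)
  have e2 : ∑ a, ∑ b, (if a.1 < b.1 then d2 a b g else 0) • ((QQ χ c).x a * (QQ χ c).x b) = 0 := by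
    simp only [Fintype.sum_prod_type]
    refine Finset.sum_eq_zero fun i _ => ?_
    rw [Finset.sum_comm]
    refine Finset.sum_eq_zero fun j _ => ?_
    by_cases hij : i < j
    swap
    · simp [hij]
    simp only [hij, if_true, ← Fintype.sum_prod_type']
    have key : ∀ s t, d2 (i, s) (j, t) g • ((QQ χ c).x (i, s) * (QQ χ c).x (j, t)) +
        (if s = t then 0 else d2 (i, t) (j, s) g • ((QQ χ c).x (i, t) * (QQ χ c).x (j, s))) = 0 := by
      intro s t
      have a1 := h2 i j hij.ne s t _ (h.cons2 s t (by simp))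
      rw [LL_two _ hij.ne] at a1
      have a2 := (QQ χ c).pr_eq_zero.2 ((QQ χ c).I2_le (qf_mem χ c (zero_add (c s t)).symm i j))
      simp only [qf, xf, h.diag, mul_zero, neg_zero, AddChar.map_zero_eq_one, one_smul, one_mul,
        mul_one, mul_smul_comm, map_sub, map_smul, map_mul, sub_eq_zero] at a1 a2
      by_cases hst : s = t
      · subst hst
        simp only [h.diag, mul_zero, neg_zero, AddChar.map_zero_eq_one, if_true, one_mul,
          add_zero] at a1
        simp [a1]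
      · rw [if_neg hst] at a1 ⊢
        have a3 : d2 (i, t) (j, s) g = - (d2 (i, s) (j, t) g * χ (-(ew G j * c s t))) *
            χ (ew G i * c s t) := by
          linear_combination χ (ew G i * c s t) * a1 -
            d2 (i, t) (j, s) g * chi_mul_neg (χ := χ) (ew G i * c s t)
        rw [a3, mul_smul, mul_comm ((QQ χ c).x (i, t))]
        simp only [Binom.x]
        rw [← a2, smul_smul, ← add_smul, neg_mul, mul_assoc, mul_comm (χ _), chi_mul_neg]
        simp
    refine Finset.sum_involution (fun p _ => p.swap) (fun p _ => ?_) (fun p _ hp e => hp ?_)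
      (fun _ _ => Finset.mem_univ _) (fun p _ => rfl)
    · have := key p.1 p.2
      by_cases hst : p.1 = p.2
      · rw [if_pos hst, add_zero] at this
        simp only [Prod.fst_swap, Prod.snd_swap, ← hst] at this ⊢
        rw [this, add_zero]
      · rwa [if_neg hst] at this
    · have := key p.1 p.2
      rwa [if_pos (show p.1 = p.2 from congrArg Prod.snd e), add_zero] at this
  rw [e2] at this
  simpa [e0, e1] using this

end Pool.Agent.MP_f49c72_ag.All

end

section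

/-! First order deformations: the parts governed by the monomial quadrics. -/

namespace Pool.Agent.MP_f49c72_ag.All

open MvPolynomial

universe u

variable {k : Type u} [Field k] {G : Type} [Field G] {V : Type}

noncomputable def mm (χ : AddChar G k) (u v : V) (i : Fin 3) : MvPolynomial (Fin 3 × V) k :=
  xf χ u 0 i * xf χ v 0 i

noncomputable def qq (χ : AddChar G k) (c : V → V → G) (u v : V) (i j : Fin 3) :
    MvPolynomial (Fin 3 × V) k := qf χ u 0 v (c u v) i j

variable {χ : AddChar G k} {c : V → V → G} {ω o : V}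
  {Ψ : MvPolynomial (Fin 3 × V) k →ₗ[k] MvPolynomial (Fin 3 × V) k}

lemma mm_comm (u v : V) (i : Fin 3) : mm χ v u i = mm χ u v i := mul_comm _ _

lemma qq_mem (u v : V) (i j : Fin 3) : qq χ c u v i j ∈ (QQ χ c).I2 :=
  qf_mem χ c (zero_add _).symm i j

lemma qf_eq {u v : V} {a b : G} (h : b = a + c u v) (i j : Fin 3) :
    qf χ u a v b i j = χ ((ew G i + ew G j) * a) • qq χ c u v i j := by
  rw [qq, ← qf_shift, zero_add, h, add_comm]

lemma qq_swap (u v : V) (i j : Fin 3) : qq χ c u v j i = - qq χ c u v i j := by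
  unfold qq qf; ring

lemma Ext.qq_comm (h : Ext c ω o) (u v : V) (i j : Fin 3) :
    qq χ c v u i j = - (χ ((ew G i + ew G j) * c v u) • qq χ c u v i j) := by
  rw [← qf_eq (b := 0) (by rw [h.anti u v]; ring)]
  unfold qq qf; ring

lemma Ext.qq_self (h : Ext c ω o) (u : V) (i j : Fin 3) : qq χ c u u i j = 0 := by
  rw [qq, h.diag, qf]; ring

variable [DecidableEq V]

lemma Van.swapI {ε : Multiset (Fin 3)} {σ : Multiset V} {u v : V} {i j : Fin 3}
    (H : Van χ c ε σ (Ψ (qq χ c u v i j))) : Van χ c ε σ (Ψ (qq χ c u v j i)) := fun p hp => by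
  rw [qq_swap, map_neg, map_neg, H p hp, neg_zero]

lemma Van.swapV (h : Ext c ω o) {ε : Multiset (Fin 3)} {σ : Multiset V} {u v : V} {i j : Fin 3}
    (H : Van χ c ε σ (Ψ (qq χ c u v i j))) : Van χ c ε σ (Ψ (qq χ c v u i j)) := fun p hp => by
  rw [h.qq_comm, map_neg, map_neg, map_smul, map_smul, H p hp]; simp

lemma HT_xf (hΨ : (QQ χ c).HT Ψ) {p : V → G} {ε : Multiset (Fin 3)} {ρ : Multiset V}
    (hε : ε.Nodup) (hp : Cons c p ρ) : ∃ τ : MvPolynomial (Fin 3 × V) k →ₗ[k] k,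
      ∀ w d l, ∀ f ∈ (QQ χ c).I2, τ (xf χ w d l * f) = LL χ p ε ρ (xf χ w d l * Ψ f) := by
  obtain ⟨τ, hτ⟩ := hΨ (LL χ p ε ρ) fun f hf => LL_kill hf ε ρ hε p hp
  refine ⟨τ, fun w d l f hf => ?_⟩
  simp only [xf, smul_mul_assoc, map_smul]
  rw [hτ _ _ hf]

lemma synA (hΨ : (QQ χ c).HT Ψ) {p : V → G} {ε : Multiset (Fin 3)} {ρ : Multiset V}
    (hε : ε.Nodup) (hp : Cons c p ρ) (r u v : V) (i : Fin 3) :
    LL χ p ε ρ (xf χ r 0 i * Ψ (mm χ u v i)) = LL χ p ε ρ (xf χ u 0 i * Ψ (mm χ r v i)) := by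
  obtain ⟨τ, hτ⟩ := HT_xf hΨ hε hp
  rw [mm, mm, ← hτ _ _ _ _ (mm_mem χ c _ _ _ _ _), ← hτ _ _ _ _ (mm_mem χ c _ _ _ _ _)]
  congr 1; ring

lemma synB (hΨ : (QQ χ c).HT Ψ) {p : V → G} {ε : Multiset (Fin 3)} {ρ : Multiset V}
    (hε : ε.Nodup) (hp : Cons c p ρ) (r u v : V) (i l : Fin 3) :
    LL χ p ε ρ (xf χ r 0 i * Ψ (qq χ c u v i l)) =
      LL χ p ε ρ (xf χ v (c u v) l * Ψ (mm χ r u i)) -
        χ (ew G i * c u v) * LL χ p ε ρ (xf χ u 0 l * Ψ (mm χ r v i)) := by
  obtain ⟨τ, hτ⟩ := HT_xf hΨ hε hp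
  rw [mm, mm, ← hτ _ _ _ _ (mm_mem χ c _ _ _ _ _), ← hτ _ _ _ _ (mm_mem χ c _ _ _ _ _),
    ← hτ _ _ _ _ (qq_mem _ _ _ _), ← smul_eq_mul (χ _), ← map_smul, ← map_sub, qq, qf,
    xf_re χ v (c u v) 0 i, sub_zero]
  congr 1
  simp only [smul_eq_C_mul]; ring

omit [DecidableEq V] in
lemma Cons.cons_mem {p : V → G} {σ : Multiset V} (hp : Cons c p σ) {s : V} (hs : s ∈ σ) :
    Cons c p (s ::ₘ σ) := hp.mono fun a ha => by
  rcases Multiset.mem_cons.1 ha with rfl | e <;> assumption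

section out
variable (h : Ext c ω o) (hΨ : (QQ χ c).HT Ψ) {i : Fin 3} {ε : Multiset (Fin 3)}
  (hε : (i ::ₘ ε).Nodup)
include h hΨ hε

lemma mA2 {σ : Multiset V} {u : V} (hu : u ∉ σ) (v : V) : Van χ c ε σ (Ψ (mm χ u v i)) := by
  intro p hp
  obtain ⟨r, hr, hr'⟩ : ∃ r, r ≠ u ∧ Cons c p (r ::ₘ σ) := by
    rcases Multiset.empty_or_exists_mem σ with rfl | ⟨s, hs⟩
    · obtain ⟨r, -, hr⟩ := h.exists_fresh u
      exact ⟨r, hr, by simp [Cons, h.diag]⟩
    · exact ⟨s, fun e => hu (e ▸ hs), hp.cons_mem hs⟩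
  have := synA hΨ hε hr' r u v i
  rw [LL_hit χ rfl rfl, LL_missV χ (by simp [hu, hr.symm])] at this
  exact (mul_eq_zero.1 this).resolve_left (chi_ne _)

lemma mA3 {σ : Multiset V} {u r : V} (hu : u ∉ σ) (hr : r ≠ u) {p : V → G}
    (hp : Cons c p (r ::ₘ u ::ₘ σ)) : Van χ c ε (u ::ₘ σ) (Ψ (mm χ u u i)) := by
  refine Van.intro (hp.mono (by simp +contextual)) ?_
  have := synA hΨ hε hp r u u i
  rw [LL_hit χ rfl rfl, LL_hit χ rfl (Multiset.cons_swap _ _ _), mm_comm u r,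
    mA2 h hΨ hε (by simp [hu, hr.symm]) r p (hp.mono (by simp +contextual [or_imp])),
    mul_zero] at this
  exact (mul_eq_zero.1 this).resolve_left (chi_ne _)

lemma mA4 [Fintype G] (hχ : GoodChar χ) (hw : (ε.map (ew G)).sum - 2 * ew G i ≠ 0) (u v : V) :
    Van χ c ε (u ::ₘ {v}) (Ψ (mm χ u v i)) := by
  have e2 : ∀ u v, LL χ (c u) ε (u ::ₘ {v}) (Ψ (mm χ u v i)) =
      χ (-(ew G i * c u v)) * LL χ (c u) ε (u ::ₘ {u}) (Ψ (mm χ u u i)) := by
    intro u v
    have := synA hΨ hε (h.cons2 u v (ρ := u ::ₘ u ::ₘ {v}) (by simp)) u v u i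
    rw [LL_hit χ rfl rfl, LL_hit χ rfl (ρ' := u ::ₘ {u}) (by simp [pswap u v, Multiset.cons_swap]),
      mm_comm u v, h.diag] at this
    simpa using this
  have := h.h0 hχ hw (fun u => LL χ (c u) ε (u ::ₘ {u}) (Ψ (mm χ u u i))) (fun u v => by
    have := synA hΨ hε (h.cons2 u v (ρ := v ::ₘ u ::ₘ {v}) (by simp)) v u v i
    rw [LL_hit χ rfl rfl, LL_hit χ rfl (Multiset.cons_swap _ _ _), e2, h.diag,
      LL_shift χ (p := c v) (δ := c u v) _ ε (v ::ₘ {v}) (by simp [h.diag]), ← mul_assoc,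
      ← mul_assoc, chi_mul rfl, chi_mul rfl] at this
    apply mul_left_cancel₀ (chi_ne (χ := χ) _)
    rw [← this, ← mul_assoc, chi_mul rfl]
    congr 2; ring) u
  exact Van.intro (h.cons2 u v (by simp)) (by rw [e2, this, mul_zero])

lemma q_out {l : Fin 3} (hl : l ∉ i ::ₘ ε) (σ : Multiset V) (u v : V) :
    Van χ c ε σ (Ψ (qq χ c u v i l)) := by
  intro p hp
  obtain ⟨r, hr⟩ : ∃ r, Cons c p (r ::ₘ σ) := by
    rcases Multiset.empty_or_exists_mem σ with rfl | ⟨s, hs⟩
    · exact ⟨u, by simp [Cons, h.diag]⟩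
    · exact ⟨s, hp.cons_mem hs⟩
  have := synB hΨ hε hr r u v i l
  rw [LL_hit χ rfl rfl, LL_missI χ hl, LL_missI χ hl, mul_zero, sub_zero] at this
  exact (mul_eq_zero.1 this).resolve_left (chi_ne _)

end out

lemma m_out1 (h : Ext c ω o) (hΨ : (QQ χ c).HT Ψ) {i j : Fin 3} (hij : i ≠ j) (u v s : V) :
    Van χ c {j} {s} (Ψ (mm χ u v i)) := by
  have hε : (i ::ₘ {j} : Multiset (Fin 3)).Nodup := by simp [hij]
  by_cases h1 : u = s
  · by_cases h2 : v = s
    · subst h1; subst h2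
      obtain ⟨r, -, hr⟩ := h.exists_fresh v
      exact mA3 h hΨ hε (σ := 0) (by simp) hr (h.cons2 v r (by simp))
    · rw [mm_comm]; exact mA2 h hΨ hε (by simpa using h2) u
  · exact mA2 h hΨ hε (by simpa using h1) v

lemma m_out2 [Fintype G] (h : Ext c ω o) (hχ : GoodChar χ) (hΨ : (QQ χ c).HT Ψ) {i j l : Fin 3}
    (hij : i ≠ j) (hil : i ≠ l) (hjl : j ≠ l) (u v s t : V) :
    Van χ c (j ::ₘ {l}) (s ::ₘ {t}) (Ψ (mm χ u v i)) := by
  have hε : (i ::ₘ j ::ₘ {l} : Multiset (Fin 3)).Nodup := by simp [hij, hil, hjl]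
  have hw : ((j ::ₘ {l} : Multiset (Fin 3)).map (ew G)).sum - 2 * ew G i ≠ 0 := by
    simpa using hχ.ew_ne' hij hil hjl
  have key : ∀ u v t, Van χ c (j ::ₘ {l}) (u ::ₘ {t}) (Ψ (mm χ u v i)) := by
    intro u v t
    by_cases h1 : v = t
    · subst h1; exact mA4 h hΨ hε hχ hw u v
    by_cases h2 : v = u
    · subst h2
      exact mA3 h hΨ hε (by simpa using h1) (Ne.symm h1) (h.cons2 v t (by simp))
    · rw [mm_comm]; exact mA2 h hΨ hε (by simp [h1, h2]) u
  by_cases h1 : u = s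
  · subst h1; exact key u v t
  by_cases h2 : u = t
  · subst h2; rw [pswap s u]; exact key u v s
  · exact mA2 h hΨ hε (by simp [h1, h2]) v

section inn
variable (hΨ : (QQ χ c).HT Ψ) {i l : Fin 3} {ε : Multiset (Fin 3)} (hε : (i ::ₘ l ::ₘ ε).Nodup)
include hΨ hε

lemma B_q_far {σ : Multiset V} {u v s : V} (hu : u ∉ σ) (hv : v ∉ σ) (hs : s ∈ σ) :
    Van χ c (l ::ₘ ε) σ (Ψ (qq χ c u v i l)) := by
  intro p hp
  have := synB hΨ hε (hp.cons_mem hs) s u v i l
  have n1 : u ≠ s := fun e => hu (e ▸ hs)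
  have n2 : v ≠ s := fun e => hv (e ▸ hs)
  rw [LL_hit χ rfl rfl, LL_missV χ (by simp [hv, n2]), LL_missV χ (by simp [hu, n1]), mul_zero,
    sub_zero] at this
  exact (mul_eq_zero.1 this).resolve_left (chi_ne _)

lemma B_m_far {σ : Multiset V} {r u s : V} (hr : r ∉ σ) (hu : u ∉ σ) (hs : s ∈ σ) :
    Van χ c (i ::ₘ ε) σ (Ψ (mm χ r u i)) := by
  intro p hp
  have := synB hΨ hε (hp.cons_mem hs) r u s i l
  have n1 : u ≠ s := fun e => hu (e ▸ hs)
  have n2 : r ≠ s := fun e => hr (e ▸ hs)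
  rw [LL_missV χ (by simp [hr, n2]), LL_hit χ (Multiset.cons_swap _ _ _) rfl,
    LL_missV χ (by simp [hu, n1]), mul_zero, sub_zero] at this
  exact (mul_eq_zero.1 this.symm).resolve_left (chi_ne _)

lemma B_one {σ : Multiset V} {r u v : V} (hr : r ≠ u) (hv : v ≠ u) (hu : u ∉ σ) {p : V → G}
    (hp : Cons c p (r ::ₘ v ::ₘ σ)) : Van χ c (l ::ₘ ε) (v ::ₘ σ) (Ψ (qq χ c u v i l)) ↔
      Van χ c (i ::ₘ ε) (r ::ₘ σ) (Ψ (mm χ r u i)) := by
  have := synB hΨ hε hp r u v i l
  rw [LL_hit χ rfl rfl, LL_hit χ (Multiset.cons_swap _ _ _) (Multiset.cons_swap _ _ _),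
    LL_missV χ (by simp [hu, hr.symm, hv.symm]), mul_zero, sub_zero] at this
  have c1 : Cons c p (v ::ₘ σ) := hp.mono (by simp +contextual)
  have c2 : Cons c p (r ::ₘ σ) := hp.mono (by simp +contextual [or_imp])
  refine ⟨fun H => Van.intro c2 ?_, fun H => Van.intro c1 ?_⟩
  · rw [H p c1, mul_zero] at this
    exact (mul_eq_zero.1 this.symm).resolve_left (chi_ne _)
  · rw [H p c2, mul_zero] at this
    exact (mul_eq_zero.1 this).resolve_left (chi_ne _)

lemma B_loop {σ : Multiset V} {u v : V} {p : V → G} (hp : Cons c p (u ::ₘ v ::ₘ σ))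
    (h1 : Van χ c (l ::ₘ ε) (v ::ₘ σ) (Ψ (qq χ c u v i l)))
    (h2 : Van χ c (i ::ₘ ε) (v ::ₘ σ) (Ψ (mm χ v u i))) :
    Van χ c (i ::ₘ ε) (u ::ₘ σ) (Ψ (mm χ u u i)) := by
  have := synB hΨ hε hp u u v i l
  have c1 : Cons c p (v ::ₘ σ) := hp.mono (by simp +contextual)
  rw [LL_hit χ rfl rfl, LL_hit χ (Multiset.cons_swap _ _ _) (Multiset.cons_swap _ _ _),
    LL_hit χ (Multiset.cons_swap _ _ _) rfl, h1 p c1, mm_comm v u, h2 p c1] at this
  refine Van.intro (hp.mono (by simp +contextual [or_imp])) ?_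
  simpa [chi_ne] using this

end inn

/-- degree `-1`. -/
lemma deg1 (h : Ext c ω o) (hΨ : (QQ χ c).HT Ψ) {i l : Fin 3} (hil : i ≠ l)
    (hn : ∀ u, ∃ r, r ≠ u ∧ Van χ c {i} {r} (Ψ (mm χ r u i))) :
    (∀ u v s, Van χ c {l} {s} (Ψ (qq χ c u v i l))) ∧ ∀ u v s, Van χ c {i} {s} (Ψ (mm χ u v i)) := by
  have hε : (i ::ₘ l ::ₘ 0 : Multiset (Fin 3)).Nodup := by simp [hil]
  have a1 : ∀ u v, Van χ c {l} {v} (Ψ (qq χ c u v i l)) := by
    intro u v
    by_cases hv : v = u
    · subst hv; intro p _; simp [h.qq_self]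
    obtain ⟨r, hr, H⟩ := hn u
    exact (B_one hΨ hε (σ := 0) hr hv (by simp) (h.cons2 r v (by simp))).2 H
  have a2 : ∀ u r, r ≠ u → Van χ c {i} {r} (Ψ (mm χ r u i)) := fun u r hr =>
    (B_one hΨ hε (σ := 0) hr hr (by simp) (h.cons2 r r (by simp))).1 (a1 u r)
  have a3 : ∀ u r, Van χ c {i} {r} (Ψ (mm χ r u i)) := by
    intro u r
    by_cases hr : r = u
    · subst hr
      obtain ⟨v, -, hv⟩ := h.exists_fresh r
      exact B_loop hΨ hε (σ := 0) (h.cons2 r v (by simp)) (a1 r v) (a2 r v hv)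
    · exact a2 u r hr
  refine ⟨fun u v s => ?_, fun u v s => ?_⟩
  · by_cases h1 : v = s
    · subst h1; exact a1 u v
    by_cases h2 : u = s
    · subst h2; exact (a1 v u).swapV h
    · exact B_q_far hΨ hε (s := s) (by simpa using h2) (by simpa using h1) (by simp)
  · by_cases h1 : v = s
    · subst h1; rw [mm_comm]; exact a3 u v
    by_cases h2 : u = s
    · subst h2; exact a3 v u
    · exact B_m_far hΨ hε (s := s) (by simpa using h2) (by simpa using h1) (by simp)

lemma B_diag (h : Ext c ω o) (hΨ : (QQ χ c).HT Ψ) {i l j : Fin 3}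
    (hε : (i ::ₘ l ::ₘ {j} : Multiset (Fin 3)).Nodup) {u v t : V} (hf : hol c u v t = 0) :
    χ ((ew G i - ew G j) * c u v) * LL χ (c v) (l ::ₘ {j}) (v ::ₘ {t}) (Ψ (qq χ c v t i l)) =
      χ (ew G i * c u v) * LL χ (c u) (i ::ₘ {j}) (u ::ₘ {v}) (Ψ (mm χ u v i)) -
        χ (ew G i * c u t) * LL χ (c u) (i ::ₘ {j}) (u ::ₘ {t}) (Ψ (mm χ u t i)) := by
  have hp := h.cons hf (ρ := u ::ₘ v ::ₘ {t}) (by simp)
  have e : c u t = c u v + c v t := hp v (by simp) t (by simp)
  have := synB hΨ hε hp u v t i l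
  rw [LL_hit χ rfl rfl, LL_hit χ (Multiset.cons_swap _ _ _) (ρ' := u ::ₘ {v})
      (by simp [pswap v t, Multiset.cons_swap]),
    LL_hit χ (Multiset.cons_swap _ _ _) (Multiset.cons_swap _ _ _), h.diag,
    LL_shift χ (p := c v) (δ := c u v) _ (l ::ₘ {j}) (v ::ₘ {t}) (by simp [h.diag, e, add_comm])]
    at this
  simp only [sub_self, mul_zero, AddChar.map_zero_eq_one, one_mul, Multiset.map_cons,
    Multiset.map_singleton, Multiset.sum_cons, Multiset.sum_singleton] at this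
  have e1 : χ ((ew G i + ew G l) * c u v) * χ (-((ew G l + ew G j) * c u v)) =
    χ ((ew G i - ew G j) * c u v) := chi_mul (by ring)
  have e2 : χ ((ew G i + ew G l) * c u v) * χ (ew G l * (c v t - c u t)) =
    χ (ew G i * c u v) := chi_mul (by rw [e]; ring)
  have e3 : χ ((ew G i + ew G l) * c u v) * (χ (ew G i * c v t) * χ (ew G l * (0 - c u v))) =
    χ (ew G i * c u t) := by rw [chi_mul rfl]; exact chi_mul (by rw [e]; ring)
  rw [← e1, ← e2, ← e3]
  linear_combination χ ((ew G i + ew G l) * c u v) * this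

/-- the diagonal part in the degree moving the row `i` to the row `j` is a coboundary. -/
lemma diag7 [Fintype G] (h : Ext c ω o) (hχ : GoodChar χ) (hΨ : (QQ χ c).HT Ψ) {i l j : Fin 3}
    (hε : (i ::ₘ l ::ₘ {j} : Multiset (Fin 3)).Nodup) : ∃ b : V → k, ∀ u v,
      LL χ (c u) (l ::ₘ {j}) (u ::ₘ {v}) (Ψ (qq χ c u v i l)) =
        b u - χ ((ew G i - ew G j) * c u v) * b v := by
  refine h.h1 hχ _ _ fun u v t hf => ?_
  have e1 := B_diag h hΨ hε hf
  have e2 := B_diag h hΨ hε (u := u) (v := u) (t := v) (by rw [h.hol_eq, h.diag]; ring)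
  have e3 := B_diag h hΨ hε (u := u) (v := u) (t := t) (by rw [h.hol_eq, h.diag]; ring)
  simp only [h.diag, mul_zero, AddChar.map_zero_eq_one, one_mul] at e2 e3
  linear_combination e3 - e2 - e1

/-- degree `0`, moving the row `i` to the row `j`. -/
lemma deg0 [Fintype G] (h : Ext c ω o) (hχ : GoodChar χ) (hΨ : (QQ χ c).HT Ψ) {i l j : Fin 3}
    (hε : (i ::ₘ l ::ₘ {j} : Multiset (Fin 3)).Nodup)
    (hn1 : ∀ u t, t ≠ u → Van χ c (i ::ₘ {j}) (t ::ₘ {t}) (Ψ (mm χ t u i)))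
    (hn2 : ∀ u v, Van χ c (l ::ₘ {j}) (u ::ₘ {v}) (Ψ (qq χ c u v i l))) :
    (∀ u v s t, Van χ c (l ::ₘ {j}) (s ::ₘ {t}) (Ψ (qq χ c u v i l))) ∧
      ∀ u v s t, Van χ c (i ::ₘ {j}) (s ::ₘ {t}) (Ψ (mm χ u v i)) := by
  have hij : i ≠ j := by rintro rfl; simp at hε
  have a1 : ∀ u v t, Van χ c (l ::ₘ {j}) (v ::ₘ {t}) (Ψ (qq χ c u v i l)) := by
    intro u v t
    by_cases hv : v = u
    · subst hv; intro p _; simp [h.qq_self]
    by_cases ht : t = u
    · subst ht; rw [pswap v t]; exact hn2 t v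
    exact (B_one hΨ hε ht hv (by simpa using Ne.symm ht) (h.cons2 t v (by simp))).2 (hn1 u t ht)
  have a2 : ∀ u r t, r ≠ u → t ≠ u → Van χ c (i ::ₘ {j}) (r ::ₘ {t}) (Ψ (mm χ r u i)) :=
    fun u r t hr ht => (B_one hΨ hε hr ht (by simpa using Ne.symm ht)
      (h.cons2 r t (by simp))).1 (a1 u t t)
  have e2 : ∀ u v, LL χ (c u) (i ::ₘ {j}) (u ::ₘ {u}) (Ψ (mm χ u u i)) =
      χ (ew G i * c u v) * LL χ (c u) (i ::ₘ {j}) (u ::ₘ {v}) (Ψ (mm χ u v i)) := by
    intro u v
    have := B_diag h hΨ hε (u := u) (v := u) (t := v) (by rw [h.hol_eq, h.diag]; ring)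
    rw [hn2 u v _ (h.cons2 u v (by simp)), h.diag] at this
    simp only [mul_zero, AddChar.map_zero_eq_one, one_mul] at this
    linear_combination -this
  have a3 : ∀ u v, Van χ c (i ::ₘ {j}) (u ::ₘ {v}) (Ψ (mm χ u v i)) := by
    intro u v
    have := h.h0 hχ (hχ.ew_ne hij) (fun u => LL χ (c u) (i ::ₘ {j}) (u ::ₘ {u}) (Ψ (mm χ u u i)))
      (fun u v => by
        rw [e2 u v, e2 v u, pswap v u, mm_comm u v, LL_shift χ (p := c u) (p' := c v) (δ := c v u)
          _ _ _ (by simp [h.diag, h.anti u v]), ← mul_assoc, ← mul_assoc, chi_mul rfl, chi_mul rfl,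
          h.anti u v]
        congr 2; simp; ring) u
    rw [e2 u v] at this
    exact Van.intro (h.cons2 u v (by simp)) ((mul_eq_zero.1 this).resolve_left (chi_ne _))
  have a4 : ∀ u r t, Van χ c (i ::ₘ {j}) (r ::ₘ {t}) (Ψ (mm χ r u i)) := by
    intro u r t
    by_cases ht : t = u
    · subst ht; exact a3 r t
    by_cases hr : r = u
    · subst hr
      exact B_loop hΨ hε (h.cons2 r t (by simp)) (a1 r t t) (a2 r t t ht ht)
    · exact a2 u r t hr ht
  refine ⟨fun u v s t => ?_, fun u v s t => ?_⟩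
  · by_cases h1 : v = s
    · subst h1; exact a1 u v t
    by_cases h2 : v = t
    · subst h2; rw [pswap s v]; exact a1 u v s
    by_cases h3 : u = s
    · subst h3; exact (a1 v u t).swapV h
    by_cases h4 : u = t
    · subst h4; rw [pswap s u]; exact (a1 v u s).swapV h
    · exact B_q_far hΨ hε (s := s) (by simp [h3, h4]) (by simp [h1, h2]) (by simp)
  · by_cases h1 : v = s
    · subst h1; rw [mm_comm]; exact a4 u v t
    by_cases h2 : v = t
    · subst h2; rw [pswap s v, mm_comm]; exact a4 u v s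
    by_cases h3 : u = s
    · subst h3; exact a4 v u t
    by_cases h4 : u = t
    · subst h4; rw [pswap s u]; exact a4 v u s
    · exact B_m_far hΨ hε (s := s) (by simp [h3, h4]) (by simp [h1, h2]) (by simp)

end Pool.Agent.MP_f49c72_ag.All

end

section

/-! First order deformations preserving all three rows. -/

namespace Pool.Agent.MP_f49c72_ag.All

open MvPolynomial

universe u

variable {k : Type u} [Field k] {G : Type} [Field G] {V : Type} [DecidableEq V]
  {χ : AddChar G k} {c : V → V → G} {ω o : V}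
  {Ψ : MvPolynomial (Fin 3 × V) k →ₗ[k] MvPolynomial (Fin 3 × V) k}

lemma exists_third {i j : Fin 3} (h : i ≠ j) : ∃ l, l ≠ i ∧ l ≠ j := by revert i j; decide

lemma all3 {l i j : Fin 3} (h1 : l ≠ i) (h2 : l ≠ j) (h3 : i ≠ j) :
    (0 ::ₘ 1 ::ₘ {2} : Multiset (Fin 3)) = l ::ₘ i ::ₘ {j} := by revert l i j; decide

lemma far8 (h : Ext c ω o) (hΨ : (QQ χ c).HT Ψ) {i j : Fin 3} (hij : i ≠ j) {s t u v : V}
    (hsu : s ≠ u) (hsv : s ≠ v) (htu : t ≠ u) (htv : t ≠ v) :
    Van χ c (i ::ₘ {j}) (s ::ₘ {t}) (Ψ (qq χ c u v i j)) := by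
  obtain ⟨r, r1, r2, f1, f2⟩ := h.far hsu hsv htu htv
  obtain ⟨l, l1, l2⟩ := exists_third hij
  have hp := h.cons (s := r) (t := s) (r := t) (by rw [← f1]; unfold hol; ring)
    (ρ := r ::ₘ s ::ₘ {t}) (by simp)
  have e : c r v = c r u + c u v := by
    rw [hol, h.anti r v] at f2; linear_combination -f2
  obtain ⟨τ, hτ⟩ := HT_xf hΨ (ε := 0 ::ₘ 1 ::ₘ {2}) (by decide) hp
  have e1 := hτ r 0 l _ (qf_mem χ c e i j)
  have e2 := hτ v (c r v) j _ (qq_mem r u l i)
  have e3 := hτ u (c r u) l _ (qq_mem r v i j)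
  have e4 := hτ v (c r v) i _ (qq_mem r u j l)
  rw [LL_missV χ (by simp [r1.symm, r2.symm, hsu.symm, hsv.symm, htu.symm, htv.symm])] at e2 e3 e4
  rw [LL_hit χ (all3 l1 l2 hij) rfl, qf_eq e, map_smul, map_smul, ← qf_eq e] at e1
  have e5 : τ (xf χ r 0 l * qf χ u (c r u) v (c r v) i j) = 0 := by
    rw [← add_zero (0 : k), ← add_zero (0 + 0 : k)]
    nth_rewrite 1 [← e2]
    nth_rewrite 1 [← e3, ← e4]
    rw [← map_add, ← map_add]; congr 1; unfold qq qf; ring
  refine Van.intro (hp.mono (by simp)) ?_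
  simpa [e5, chi_ne] using e1

/-- components on an edge `t v` of the image of the quadrics on `u v`. -/
noncomputable def NN (χ : AddChar G k) (c : V → V → G)
    (Ψ : MvPolynomial (Fin 3 × V) k →ₗ[k] MvPolynomial (Fin 3 × V) k) (t u v : V) (i j : Fin 3) :
    k := LL χ (c t) (i ::ₘ {j}) (t ::ₘ {v}) (Ψ (qq χ c u v i j))

def cr (χ : AddChar G k) (φ : Fin 3 → k) (γ : G) (i j : Fin 3) : k :=
  χ (ew G j * γ) * φ i - χ (ew G i * γ) * φ j

lemma pair8 (h : Ext c ω o) (hΨ : (QQ χ c).HT Ψ) {t u v w : V} (ht : t ≠ u) (hv : v ≠ u)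
    (hw : w ≠ u) (hf : hol c t v w = 0) : ∃ φ : Fin 3 → k,
      (∀ i j, i ≠ j → NN χ c Ψ t u v i j = cr χ φ (c u v - c t v) i j) ∧
      ∀ i j, i ≠ j → NN χ c Ψ t u w i j = cr χ φ (c u w - c t w) i j := by
  have hp := h.cons hf (ρ := t ::ₘ v ::ₘ {w}) (by simp)
  obtain ⟨τ, hτ⟩ := HT_xf hΨ (ε := 0 ::ₘ 1 ::ₘ {2}) (by decide) hp
  obtain ⟨T, hT⟩ : ∃ T : Fin 3 → Fin 3 → Fin 3 → k, ∀ i j l,
    T i j l = τ (xf χ u 0 i * xf χ v (c t v) j * xf χ w (c t w) l) := ⟨_, fun _ _ _ => rfl⟩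
  have sy : ∀ i j l, T i j l = T i l j := by
    intro i j l
    have := hτ u 0 i _ (qf_mem χ c (hp v (by simp) w (by simp)) j l)
    rw [LL_missV χ (by simp [ht.symm, hv.symm, hw.symm])] at this
    rw [← sub_eq_zero, hT, hT, ← map_sub, ← this]; congr 1; unfold qf; ring
  have key : ∀ i j l, l ≠ i → l ≠ j → i ≠ j → T i j l = T i (i + 1) (i + 2) := by
    intro i j l h1 h2 h3
    have : (j = i + 1 ∧ l = i + 2) ∨ (l = i + 1 ∧ j = i + 2) := by revert i j l; decide
    rcases this with ⟨rfl, rfl⟩ | ⟨rfl, rfl⟩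
    · rfl
    · exact sy _ _ _
  refine ⟨fun i => T i (i + 1) (i + 2), fun i j hij => ?_, fun i j hij => ?_⟩
  · obtain ⟨l, l1, l2⟩ := exists_third hij
    have := hτ w (c t w) l _ (qq_mem u v i j)
    rw [LL_hit χ (all3 l1 l2 hij) (ρ' := t ::ₘ {v}) (by simp [pswap v w, Multiset.cons_swap])]
      at this
    simp only [sub_self, mul_zero, AddChar.map_zero_eq_one, one_mul] at this
    rw [NN, ← this, cr, ← key i j l l1 l2 hij, ← key j i l l2 l1 hij.symm, hT, hT, qq, qf,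
      xf_re χ v (c u v) (c t v) i, xf_re χ v (c u v) (c t v) j]
    simp only [mul_sub, map_sub, mul_smul_comm, map_smul, smul_eq_mul]
    congr 3 <;> ring
  · obtain ⟨l, l1, l2⟩ := exists_third hij
    have := hτ v (c t v) l _ (qq_mem u w i j)
    rw [LL_hit χ (all3 l1 l2 hij) (Multiset.cons_swap _ _ _)] at this
    simp only [sub_self, mul_zero, AddChar.map_zero_eq_one, one_mul] at this
    rw [NN, ← this, cr, ← key i j l l1 l2 hij, ← key j i l l2 l1 hij.symm, sy i, sy j, hT, hT, qq,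
      qf, xf_re χ w (c u w) (c t w) i, xf_re χ w (c u w) (c t w) j]
    simp only [mul_sub, map_sub, mul_smul_comm, map_smul, smul_eq_mul]
    congr 3 <;> ring

lemma cr_zero {φ : Fin 3 → k} {γ : G} (H : ∀ i j, i ≠ j → cr χ φ γ i j = 0) (δ : G) (i j : Fin 3) :
    cr χ φ δ i j = φ 0 * (χ (ew G j * δ) * χ (ew G i * γ) - χ (ew G i * δ) * χ (ew G j * γ)) := by
  have : ∀ i, φ i = φ 0 * χ (ew G i * γ) := by
    intro i
    by_cases hi : i = 0
    · simp [hi]
    · have := H i 0 hi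
      simp only [cr, ew_zero, zero_mul, AddChar.map_zero_eq_one, one_mul] at this
      linear_combination this
  rw [cr, this i, this j]; ring

lemma chi_three (x : G) : χ (3 * x) = χ x ^ 3 := by
  rw [show 3 * x = x + x + x by ring, AddChar.map_add_eq_mul, AddChar.map_add_eq_mul]; ring

lemma edge8 [Fintype G] (h : Ext c ω o) (hχ : GoodChar χ) (hΨ : (QQ χ c).HT Ψ) {t u w : V}
    (ht : t ≠ u) (hw : hol c u t w ≠ 0) (h0 : ∀ i j, i ≠ j → NN χ c Ψ t u t i j = 0)
    (h1 : ∀ i j, i ≠ j → NN χ c Ψ t u w i j = 0) {v : V} (hv : v ≠ u) :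
    ∀ i j, i ≠ j → NN χ c Ψ t u v i j = 0 := by
  have base : ∀ v, v ≠ u → ∃ μ : k, ∀ i j, i ≠ j → NN χ c Ψ t u v i j =
      μ * (χ (ew G j * (c u v - c t v)) * χ (ew G i * c u t) -
        χ (ew G i * (c u v - c t v)) * χ (ew G j * c u t)) := by
    intro v hv
    obtain ⟨φ, e1, e2⟩ := pair8 h hΨ ht hv ht (h.hol_self₁ t v)
    refine ⟨φ 0, fun i j hij => ?_⟩
    rw [e1 i j hij, cr_zero (fun i j hij => by rw [← e2 i j hij, h0 i j hij]), h.diag, sub_zero]
  by_cases hf : hol c u t v = 0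
  · obtain ⟨μ, hμ⟩ := base v hv
    rw [h.hol_eq, sub_eq_zero] at hf
    intro i j hij
    rw [hμ i j hij, ← hf]; ring
  refine h.conn (fun x y => 1 + χ (-x) + χ (-y) ≠ 0)
    (fun v => ∀ i j, i ≠ j → NN χ c Ψ t u v i j = 0) ?_ hχ.big ht.symm ?_ ?_ hf hw h1
  · intro v a hv ha hf hR H
    obtain ⟨μ, hμ⟩ := base v hv
    obtain ⟨φ, e1, e2⟩ := pair8 h hΨ ht hv (fun e => ha (by rw [e, h.hol_self₁])) hf
    have e3 := fun i j hij => (e1 i j hij).trans
      (cr_zero (fun i j hij => by rw [← e2 i j hij, H i j hij]) _ i j)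
    rw [h.hol_eq, h.hol_eq] at hR
    rw [h.hol_eq] at ha
    generalize c u v - c t v = γ at *
    generalize c u a - c t a = γ' at *
    by_cases hγ : γ = γ'
    · intro i j hij; rw [e3 i j hij, hγ]; ring
    have hR' := hR.resolve_left fun e => hγ (by linear_combination -e)
    have n1 : χ (c u t) - χ γ' ≠ 0 := fun e =>
      ha (sub_eq_zero.2 (hχ.injective (sub_eq_zero.1 e)))
    have n2 : χ γ - χ γ' ≠ 0 := fun e => hγ (hχ.injective (sub_eq_zero.1 e))
    have n3 : χ (c u t) + χ γ + χ γ' ≠ 0 := by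
      rw [← chi_mul (show c u t + -(c u t - γ) = γ by ring),
        ← chi_mul (show c u t + -(c u t - γ') = γ' by ring)]
      intro e
      exact mul_ne_zero (chi_ne (c u t)) hR' (by linear_combination e)
    have a1 := (hμ 0 1 (by decide)).symm.trans (e3 0 1 (by decide))
    have a2 := (hμ 0 2 (by decide)).symm.trans (e3 0 2 (by decide))
    simp only [ew_zero, ew_one, ew_two, zero_mul, one_mul, AddChar.map_zero_eq_one, mul_one,
      chi_three] at a1 a2
    have : φ 0 = 0 := by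
      by_contra n
      refine mul_ne_zero (mul_ne_zero n n2) (mul_ne_zero n1 n3) ?_
      linear_combination a2 - (χ γ ^ 2 + χ γ * χ (c u t) + χ (c u t) ^ 2) * a1
    intro i j hij; rw [e3 i j hij, this, zero_mul]
  · intro x y y' n1 n2
    push Not at n1 n2
    exact neg_injective (hχ.injective (by linear_combination n1 - n2))
  · intro x y n e
    exact n (by linear_combination e)

lemma NN_frame {u v : V} {p : V → G} (hd : c u u = 0) (hp : p v = p u + c u v) (i j : Fin 3) :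
    LL χ p (i ::ₘ {j}) (u ::ₘ {v}) (Ψ (qf χ u (p u) v (p v) i j)) = NN χ c Ψ u u v i j := by
  rw [qf_eq hp, map_smul, map_smul, LL_shift χ (p := c u) (δ := p u) _ _ _
    (by simp [hd, hp, add_comm]), smul_eq_mul, ← mul_assoc, NN]
  simp [chi_mul_neg]

lemma NN_swapV (h : Ext c ω o) (u v : V) (i j : Fin 3) :
    NN χ c Ψ v v u i j = - NN χ c Ψ u u v i j := by
  rw [← NN_frame (p := c u) (h.diag v) (by rw [h.diag, h.anti u v]; ring), pswap v u,
    ← NN_frame (p := c u) (h.diag u) (by rw [h.diag]; ring), ← map_neg, ← map_neg]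
  congr 2; unfold qf; ring

lemma NN_swapI (t u v : V) (i j : Fin 3) : NN χ c Ψ t u v j i = - NN χ c Ψ t u v i j := by
  rw [NN, NN, qq_swap, map_neg, map_neg, pswap j i]

lemma tri8 (h : Ext c ω o) (hΨ : (QQ χ c).HT Ψ) {u v w : V} (hf : hol c u v w = 0) {i j l : Fin 3}
    (l1 : l ≠ i) (l2 : l ≠ j) (hij : i ≠ j) :
    NN χ c Ψ v v w i j + NN χ c Ψ w w u i j = NN χ c Ψ u u v j l + NN χ c Ψ u u v l i := by
  have hp := h.cons hf (ρ := u ::ₘ v ::ₘ {w}) (by simp)
  obtain ⟨τ, hτ⟩ := HT_xf hΨ (ε := 0 ::ₘ 1 ::ₘ {2}) (by decide) hp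
  have c1 := hp u (by simp) v (by simp)
  have c2 := hp v (by simp) w (by simp)
  have c3 := hp w (by simp) u (by simp)
  have e1 := hτ u (c u u) l _ (qf_mem χ c c2 i j)
  have e2 := hτ v (c u v) l _ (qf_mem χ c c3 i j)
  have e3 := hτ w (c u w) i _ (qf_mem χ c c1 j l)
  have e4 := hτ w (c u w) j _ (qf_mem χ c c1 l i)
  rw [LL_hit χ (all3 l1 l2 hij) rfl, NN_frame (h.diag v) c2] at e1
  rw [LL_hit χ (all3 l1 l2 hij) (ρ' := w ::ₘ {u}) (by simp [pswap w u, Multiset.cons_swap]),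
    NN_frame (h.diag w) c3] at e2
  rw [LL_hit χ (all3 hij l1.symm l2.symm) (ρ' := u ::ₘ {v})
    (by simp [pswap v w, Multiset.cons_swap]), NN_frame (h.diag u) c1] at e3
  rw [LL_hit χ (all3 l2.symm hij.symm l1) (ρ' := u ::ₘ {v})
    (by simp [pswap v w, Multiset.cons_swap]), NN_frame (h.diag u) c1] at e4
  simp only [sub_self, mul_zero, AddChar.map_zero_eq_one, one_mul] at e1 e2 e3 e4
  rw [← e1, ← e2, ← e3, ← e4, ← map_add, ← map_add]; congr 1; unfold qf; ring

lemma diag8 [Fintype G] (h : Ext c ω o) (hχ : GoodChar χ) (hΨ : (QQ χ c).HT Ψ) :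
    ∃ b : Fin 3 → V → k, ∀ u v i j, i ≠ j →
      NN χ c Ψ u u v i j = b i u + b j v - b j u - b i v := by
  have d0 : ∀ u i j, NN χ c Ψ u u u i j = 0 := fun u i j => by simp [NN, h.qq_self]
  have Q : ∀ u v {i j l : Fin 3}, l ≠ i → l ≠ j → i ≠ j →
      NN χ c Ψ u u v i j + NN χ c Ψ u u v j l + NN χ c Ψ u u v l i = 0 := by
    intro u v i j l l1 l2 hij
    have := tri8 h hΨ (h.hol_self₁ u v) l1 l2 hij
    rw [d0, NN_swapV h] at this
    linear_combination -this
  have co : ∀ j, j ≠ 0 → ∃ b : V → k, ∀ u v, NN χ c Ψ u u v 0 j = b u - b v := by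
    intro j hj
    obtain ⟨l, l1, l2⟩ := exists_third hj.symm
    simpa using h.h1 hχ 0 (fun u v => NN χ c Ψ u u v 0 j) fun u v t hf => by
      have := tri8 h hΨ hf l1 l2 hj.symm
      rw [NN_swapV h u t] at this
      simp only [zero_mul, AddChar.map_zero_eq_one, one_mul]
      linear_combination -this - Q u v l1 l2 hj.symm
  obtain ⟨b1, h1⟩ := co 1 (by decide)
  obtain ⟨b2, h2⟩ := co 2 (by decide)
  refine ⟨![0, -b1, -b2], fun u v i j hij => ?_⟩
  have q := Q u v (i := 0) (j := 1) (l := 2) (by decide) (by decide) (by decide)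
  have s1 := NN_swapI (χ := χ) (c := c) (Ψ := Ψ) u u v 0 1
  have s2 := NN_swapI (χ := χ) (c := c) (Ψ := Ψ) u u v 0 2
  have s3 := NN_swapI (χ := χ) (c := c) (Ψ := Ψ) u u v 1 2
  fin_cases i <;> fin_cases j <;> simp at hij ⊢
  · linear_combination h1 u v
  · linear_combination h2 u v
  · linear_combination s1 - h1 u v
  · linear_combination q - s2 - h1 u v + h2 u v
  · linear_combination s2 - h2 u v
  · linear_combination s3 - q + s2 + h1 u v - h2 u v

end Pool.Agent.MP_f49c72_ag.All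

end

section

/-! Rigidity of the twisted quadrics in non-positive degrees. -/

namespace Pool.Agent.MP_f49c72_ag.All

open MvPolynomial

universe u

variable {k : Type u} [Field k] {G : Type} [Field G] {V : Type} [DecidableEq V] [Fintype V]
  {χ : AddChar G k} {c : V → V → G} {ω o : V}

/-- the vector field with constant part `g` and linear part `H`. -/
noncomputable def vf (g : Fin 3 × V → k) (H : Fin 3 × V → Fin 3 × V → k) (a : Fin 3 × V) :
    MvPolynomial (Fin 3 × V) k := C (g a) + ∑ b, H a b • X b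

section vf
variable (g : Fin 3 × V → k) (H : Fin 3 × V → Fin 3 × V → k)

omit [DecidableEq V] in
lemma der_xf (u : V) (a : G) (i : Fin 3) :
    mkDerivation k (vf g H) (xf χ u a i) = χ (ew G i * a) • vf g H (i, u) := by simp [xf]

lemma LL0_vf (p : V → G) (a : Fin 3 × V) : LL χ p 0 0 (vf g H a) = g a := by simp [LL_zero, vf]

lemma LL1_vf (p : V → G) (j : Fin 3) (t : V) (a : Fin 3 × V) :
    LL χ p {j} {t} (vf g H a) = χ (-(ew G j * p t)) * H a (j, t) := by simp [LL_one, vf]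

lemma V6 (hd : ∀ u, c u u = 0) {r u : V} (hr : r ≠ u) (i : Fin 3) :
    LL χ (c r) {i} {r} (mkDerivation k (vf g H) (mm χ r u i)) = g (i, u) := by
  rw [mm, Derivation.leibniz, der_xf, der_xf, map_add, smul_eq_mul, smul_eq_mul,
    LL_hit χ (Multiset.cons_zero i).symm (Multiset.cons_zero r).symm,
    LL_missV χ (by simpa using hr.symm)]
  simp [hd, LL0_vf]

lemma V7a (hd : ∀ u, c u u = 0) {t u : V} (ht : t ≠ u) (i j : Fin 3) :
    LL χ (c t) (i ::ₘ {j}) (t ::ₘ {t}) (mkDerivation k (vf g H) (mm χ t u i)) =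
      H (i, u) (j, t) := by
  rw [mm, Derivation.leibniz, der_xf, der_xf, map_add, smul_eq_mul, smul_eq_mul,
    LL_hit χ rfl rfl, LL_missV χ (by simpa using ht.symm)]
  simp [hd, LL1_vf]

omit [DecidableEq V] in
lemma der_qq (u v : V) (i j : Fin 3) : mkDerivation k (vf g H) (qq χ c u v i j) =
    xf χ u 0 i * χ (ew G j * c u v) • vf g H (j, v) + xf χ v (c u v) j * vf g H (i, u) -
      (xf χ u 0 j * χ (ew G i * c u v) • vf g H (i, v) + xf χ v (c u v) i * vf g H (j, u)) := by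
  simp [qq, qf, Derivation.leibniz, der_xf]

lemma V7b (hd : ∀ u, c u u = 0) (u v : V) {i l j : Fin 3} (h1 : i ≠ l) (h2 : i ≠ j) :
    LL χ (c u) (l ::ₘ {j}) (u ::ₘ {v}) (mkDerivation k (vf g H) (qq χ c u v i l)) =
      H (i, u) (j, u) - χ ((ew G i - ew G j) * c u v) * H (i, v) (j, v) := by
  rw [der_qq, map_sub, map_add, map_add, LL_missI χ (by simp [h1, h2]), LL_hit χ rfl (pswap _ _),
    LL_hit χ rfl rfl, LL_missI χ (by simp [h1, h2]),
    ← chi_mul (show ew G i * c u v + -(ew G j * c u v) = (ew G i - ew G j) * c u v by ring)]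
  simp [hd, LL1_vf, mul_assoc]

lemma V8a (hd : ∀ u, c u u = 0) {t u v : V} (ht : t ≠ u) (hv : v ≠ u) (i j : Fin 3) :
    NN χ c (mkDerivation k (vf g H)).toLinearMap t u v i j =
      cr χ (fun i => H (i, u) (i, t)) (c u v - c t v) i j := by
  rw [NN, Derivation.coeFn_coe, der_qq, map_sub, map_add, map_add,
    LL_missV χ (by simp [ht.symm, hv.symm]), LL_hit χ (pswap _ _) (pswap _ _),
    LL_missV χ (by simp [ht.symm, hv.symm]), LL_hit χ rfl (pswap _ _)]
  simp [hd, LL1_vf, cr]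

lemma V8b (hd : ∀ u, c u u = 0) (u v : V) (i j : Fin 3) :
    NN χ c (mkDerivation k (vf g H)).toLinearMap u u v i j =
      H (i, u) (i, u) + H (j, v) (j, v) - H (j, u) (j, u) - H (i, v) (i, v) := by
  rw [NN, Derivation.coeFn_coe, der_qq, map_sub, map_add, map_add, LL_hit χ rfl rfl,
    LL_hit χ (pswap _ _) (pswap _ _), LL_hit χ (pswap _ _) rfl, LL_hit χ rfl (pswap _ _)]
  simp only [hd, LL1_vf, map_smul, smul_eq_mul, ← mul_assoc, chi_mul_neg, sub_self, mul_zero,
    neg_zero, AddChar.map_zero_eq_one, one_mul]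
  ring

end vf

theorem rigid [Fintype G] (h : Ext c ω o) (hχ : GoodChar χ) : (QQ χ c).Rigid := by
  refine ⟨quart, fun ψ hψ => ?_⟩
  obtain ⟨Ψ, hΨ, hψΨ⟩ := (QQ χ c).exists_HT ψ hψ
  choose r0 hr0' hr0 using h.exists_fresh
  obtain ⟨b8, hb8⟩ := diag8 h hχ hΨ
  have : ∀ i j : Fin 3, i ≠ j → ∃ b : V → k, ∀ l, l ≠ i → l ≠ j → ∀ u v,
      LL χ (c u) (l ::ₘ {j}) (u ::ₘ {v}) (Ψ (qq χ c u v i l)) =
        b u - χ ((ew G i - ew G j) * c u v) * b v := by
    intro i j hij
    obtain ⟨l, l1, l2⟩ := exists_third hij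
    obtain ⟨b, hb⟩ := diag7 h hχ hΨ (i := i) (l := l) (j := j) (by simp [hij, l1.symm, l2])
    refine ⟨b, fun l' e1 e2 => ?_⟩
    have : l' = l := by clear hb; revert i j l l'; decide
    rw [this]; exact hb
  choose! b7 hb7 using this
  choose! w hw using fun u t (hut : u ≠ t) => h.nonflat hut
  have := fun u t (hut : u ≠ t) => pair8 h hΨ (t := t) (v := t) (w := w u t) hut.symm hut.symm
    (fun e => hw u t hut (by rw [e, h.hol_self₁])) (by rw [h.hol_eq, h.diag]; ring)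
  choose! φ hφ1 hφ2 using this
  obtain ⟨g, hg⟩ : ∃ g : Fin 3 × V → k, ∀ i u,
    g (i, u) = LL χ (c (r0 u)) {i} {r0 u} (Ψ (mm χ (r0 u) u i)) :=
    ⟨fun a => LL χ (c (r0 a.2)) {a.1} {r0 a.2} (Ψ (mm χ (r0 a.2) a.2 a.1)), fun _ _ => rfl⟩
  obtain ⟨H, hH⟩ : ∃ H : Fin 3 × V → Fin 3 × V → k, ∀ i u j t, H (i, u) (j, t) =
      if i = j then (if u = t then b8 i u else φ u t i) else if u = t then b7 i j u else
        LL χ (c t) (i ::ₘ {j}) (t ::ₘ {t}) (Ψ (mm χ t u i)) :=
    ⟨fun a b => if a.1 = b.1 then (if a.2 = b.2 then b8 a.1 a.2 else φ a.2 b.2 a.1) else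
      if a.2 = b.2 then b7 a.1 b.1 a.2 else
        LL χ (c b.2) (a.1 ::ₘ {b.1}) (b.2 ::ₘ {b.2}) (Ψ (mm χ b.2 a.2 a.1)), fun _ _ _ _ => rfl⟩
  set D := mkDerivation k (vf g H) with hD
  have h' := hΨ.sub D
  set Φ := Ψ - D.toLinearMap with hΦ
  have hN : ∀ t u v i j, NN χ c Φ t u v i j =
      NN χ c Ψ t u v i j - NN χ c D.toLinearMap t u v i j := fun t u v i j => by simp [NN, hΦ]
  have z1 := fun i l (hil : i ≠ l) => deg1 h h' hil fun u => ⟨r0 u, hr0 u,
    Van.intro (h.cons2 (r0 u) (r0 u) (by simp)) (by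
      rw [hΦ, LinearMap.sub_apply, map_sub, Derivation.coeFn_coe, V6 g H h.diag (hr0 u), hg,
        sub_self])⟩
  have z0 := fun i l j (hil : i ≠ l) (hij : i ≠ j) (hlj : l ≠ j) =>
    deg0 h hχ h' (i := i) (l := l) (j := j) (by simp [hil, hij, hlj])
      (fun u t ht => Van.intro (h.cons2 t t (by simp)) (by
        rw [hΦ, LinearMap.sub_apply, map_sub, Derivation.coeFn_coe, V7a g H h.diag ht, hH]
        simp [hij, ht.symm]))
      (fun u v => Van.intro (h.cons2 u v (by simp)) (by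
        rw [hΦ, LinearMap.sub_apply, map_sub, Derivation.coeFn_coe, V7b g H h.diag u v hil hij,
          hH, hH, hb7 i j hij l hil.symm hlj]
        simp [hij]))
  have e8 : ∀ u v t i j, i ≠ j → Van χ c (i ::ₘ {j}) (t ::ₘ {v}) (Φ (qq χ c u v i j)) := by
    intro u v t i j hij
    by_cases hv : v = u
    · subst hv; intro p _; simp [h.qq_self]
    refine Van.intro (h.cons2 t v (by simp)) ?_
    change NN χ c Φ t u v i j = 0
    by_cases ht : u = t
    · subst ht
      rw [hN, V8b g H h.diag, hb8 u v i j hij]; simp [hH]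
    have e : (fun i => H (i, u) (i, t)) = φ u t := by funext i; simp [hH, ht]
    refine edge8 h hχ h' (Ne.symm ht) (hw u t ht) (fun i j hij => ?_) (fun i j hij => ?_) hv i j hij
    · rw [hN, V8a g H h.diag (Ne.symm ht) (Ne.symm ht), hφ1 u t ht i j hij, e, sub_self]
    · rw [hN, V8a g H h.diag (Ne.symm ht) (fun e => hw u t ht (by rw [e, h.hol_self₁])),
        hφ2 u t ht i j hij, e, sub_self]
  have z8 : ∀ u v s t i j, i ≠ j → Van χ c (i ::ₘ {j}) (s ::ₘ {t}) (Φ (qq χ c u v i j)) := by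
    intro u v s t i j hij
    by_cases h1 : t = v
    · subst h1; exact e8 u t s i j hij
    by_cases h2 : s = v
    · subst h2; rw [pswap s t]; exact e8 u s t i j hij
    by_cases h3 : t = u
    · subst h3; exact (e8 v t s i j hij).swapV h
    by_cases h4 : s = u
    · subst h4; rw [pswap s t]; exact (e8 v s t i j hij).swapV h
    exact far8 h h' hij h4 h2 h3 h1
  have km : ∀ u v i, (QQ χ c).pr (Φ (mm χ u v i)) ∈ (QQ χ c).M3 := by
    intro u v i
    refine mem_M3 h _ (mA2 h h' (by simp) (by simp) v) (fun n s => ?_) (fun n m hnm s t => ?_)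
    · by_cases e : i = n
      · subst e
        exact (z1 i (i + 1) (by revert i; decide)).2 u v s
      · exact m_out1 h h' e u v s
    · obtain ⟨l, l1, l2⟩ := exists_third hnm
      by_cases e1 : i = n
      · subst e1; exact (z0 i l m l1.symm hnm l2).2 u v s t
      by_cases e2 : i = m
      · subst e2; rw [pswap n i]; exact (z0 i l n l2.symm e1 l1).2 u v s t
      · exact m_out2 h hχ h' e1 e2 hnm u v s t
  have kq : ∀ u v i j, i ≠ j → (QQ χ c).pr (Φ (qq χ c u v i j)) ∈ (QQ χ c).M3 := by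
    intro u v i j hij
    refine mem_M3 h _ (q_out h h' (by simp) (by simpa using hij.symm) 0 u v) (fun n s => ?_)
      (fun n m hnm s t => ?_)
    · by_cases e1 : j = n
      · subst e1; exact (z1 i j hij).1 u v s
      by_cases e2 : i = n
      · subst e2; exact ((z1 j i hij.symm).1 u v s).swapI
      · exact q_out h h' (by simpa using e2) (by simp [hij.symm, e1]) _ u v
    · have key : ∀ n m, n ≠ m → i = n ∨ j = n →
          Van χ c (n ::ₘ {m}) (s ::ₘ {t}) (Φ (qq χ c u v i j)) := by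
        rintro n m hnm (rfl | rfl)
        · by_cases e : j = m
          · subst e; exact z8 u v s t i j hij
          · exact ((z0 j i m hij.symm e hnm).1 u v s t).swapI
        · by_cases e : i = m
          · subst e; exact (z8 u v s t j i hnm).swapI
          · exact (z0 i j m hij e hnm).1 u v s t
      by_cases e : i = n ∨ j = n
      · exact key n m hnm e
      · rw [pswap n m]
        refine key m n hnm.symm ?_
        clear key; revert i j n m; decide
  refine ⟨fun a => (QQ χ c).pr (vf g H a), ?_⟩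
  rintro ⟨u, v, i, j⟩
  have key : (QQ χ c).pr (Φ ((QQ χ c).q (u, v, i, j))) ∈ (QQ χ c).M3 := by
    by_cases hij : i = j
    · subst hij
      rw [q_eq, xf_re χ v _ 0, mul_smul_comm, map_smul, map_smul]
      exact Submodule.smul_mem _ _ (km u v i)
    · rw [q_ne χ c u v hij]; exact kq u v i j hij
  convert key using 1
  rw [hΦ, LinearMap.sub_apply, map_sub, ← hψΨ]
  congr 1
  simp only [Binom.q, Binom.ev, hD, Derivation.coeFn_coe, map_add,
    Derivation.leibniz, mkDerivation_X, smul_eq_mul, map_smul, map_mul, Binom.x, smul_add]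
  simp only [mul_comm]; abel

end Pool.Agent.MP_f49c72_ag.All

end

section

/-! An algebra which is separated from its Galois conjugate, in every characteristic. -/

namespace Pool.Agent.MP_f49c72_ag.All

open Module MvPolynomial

universe u

variable {k : Type u} [Field k] {G : Type} [Field G]

lemma Sk.of {K : Type*} [Field K] {V : Type} [DecidableEq V] {χ : AddChar G K} {c : V → V → G}
    (hd : ∀ u, c u u = 0) {M : V → V → K} {a b : G}
    (H : ∀ s t, χ (-(a * c s t)) * M s t + (if s = t then 0 else χ (-(b * c s t)) * M t s) = 0) :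
    Sk χ c (a - b) M := by
  have h0 : ∀ s, M s s = 0 := fun s => by simpa [hd] using H s s
  refine ⟨h0, fun s t => ?_⟩
  by_cases e : s = t
  · simp [e, h0]
  · have := H s t
    rw [if_neg e] at this
    rw [← chi_mul (show a * c s t + -(b * c s t) = (a - b) * c s t by ring)]
    linear_combination χ (a * c s t) * this - M s t * chi_mul_neg (χ := χ) (a * c s t)

lemma GoodChar.map [Fintype G] {K : Type u} [Field K] (φ : k →+* K) {χ : AddChar G k}
    (h : GoodChar χ) : GoodChar (φ.toMonoidHom.compAddChar χ) :=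
  ⟨h.two, h.three, h.five, h.seven, h.big, by
    rw [← map_natCast φ]; exact (map_ne_zero φ).2 h.card,
    fun x hx => h.inj x (φ.injective (by simpa using hx))⟩

lemma iso_false [Fintype G] {V : Type} [Fintype V] [DecidableEq V] {χ : AddChar G k}
    {c : V → V → G} {ω o : V} (hC : Ext c ω o) (hχ : GoodChar χ) {J : G} (hJ0 : J ≠ 0)
    (hJ1 : J ≠ 1) (hJ2 : J ≠ -1) {n : ℕ}
    (e : Basis (Fin (n + 1)) k (QQ χ c).A) (K : Type u) [Field K] (φ : k →+* K)
    (γ : Fin (n + 1) → Fin (n + 1) → Fin (n + 1) → K) (h : Valid γ)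
    (H₁ : ∃ z : Fin 3 × V → Alg h, Good ((QQ χ c).map φ) z)
    (H₂ : ∃ z : Fin 3 × V → Alg h, Good ((QQ (χ.mulShift J) c).map φ) z) : False := by
  obtain ⟨z, hz⟩ := H₁
  obtain ⟨z', hz'⟩ := H₂
  let _ : Algebra k K := φ.toAlgebra
  let _ : Algebra k (Alg h) := ((algebraMap K (Alg h)).comp (algebraMap k K)).toAlgebra
  have : IsScalarTower k K (Alg h) := IsScalarTower.of_algebraMap_eq fun _ => rfl
  have : Nontrivial (Alg h) := inferInstanceAs (Nontrivial (Fin (n + 1) → K))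
  obtain ⟨g, g', hg, hL⟩ := iso_matrix (k := k) (K := K) hz e
    (finrank_eq_card_basis (Alg.basis h)).symm hz'
  have h1 : Matrix.of g' * Matrix.of g = 1 := by
    ext a a'; simp [Matrix.mul_apply, hg, Matrix.one_apply]
  have h2 : IsUnit (Matrix.of g) := IsUnit.of_mul_eq_one_right _ h1
  have d2s : ∀ (y y' : Fin 3 × V → K) (e f : Fin 3 × V),
      ∑ a, ∑ b, y a * y' b * φ (d2 e f (X a * X b)) = y e * y' f + y' e * y f := by
    intro y y' e f
    simp [d2_mul, apply_ite φ, mul_add, Finset.sum_add_distrib, mul_comm]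
  have key : ∀ n m, n ≠ m → ∀ s t (y y' : Fin 3 × V → K),
      ∑ a, ∑ b, y a * y' b * algebraMap k K (LL χ (c s) (n ::ₘ {m}) (s ::ₘ {t}) (X a * X b)) =
        φ (χ (-(ew G m * c s t))) * blk n m y y' s t +
          if s = t then 0 else φ (χ (-(ew G n * c s t))) * blk n m y y' t s := by
    intro n m hnm s t y y'
    rw [blk, blk, ← d2s, ← d2s]
    change ∑ a, ∑ b, y a * y' b * φ _ = _
    by_cases e : s = t <;>
      simp [LL_two _ hnm, e, hC.diag, Finset.mul_sum, mul_add, Finset.sum_add_distrib,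
        mul_left_comm]
  have hL' := fun n m (hnm : n ≠ m) s t => hL (LL χ (c s) (n ::ₘ {m}) (s ::ₘ {t}))
    (fun f hf => LL_kill hf _ _ (by simp [hnm]) _ (hC.cons2 s t (by simp)))
    (fun a b d => by simp [LL_two _ hnm, d2_mul, d1_mul])
  refine no_iso hC (hχ.map φ) hJ0 hJ1 hJ2 g (Matrix.linearIndependent_rows_iff_isUnit.2 h2)
    (fun y => ⟨fun b => ∑ a, y a * g' a b, ?_⟩) (fun i u v n m hnm => Sk.of hC.diag fun s t => ?_)
    (fun i j hij u v n m hnm => Sk.of hC.diag fun s t => ?_)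
  · funext a'
    simp only [Finset.sum_apply, Pi.smul_apply, smul_eq_mul, Finset.sum_mul, mul_assoc]
    rw [Finset.sum_comm]
    simp [← Finset.mul_sum, hg]
  · have := hL' n m hnm s t (u, v, i, i)
    rw [key n m hnm, key n m hnm] at this
    simpa [QQ, Binom.map, chi_ne] using this
  · have := hL' n m hnm s t (u, v, i, j)
    rw [key n m hnm, key n m hnm] at this
    simp only [QQ, Binom.map, AddChar.mulShift_apply, if_neg hij, map_neg] at this
    simp only [MonoidHom.coe_compAddChar, Function.comp_apply, RingHom.toMonoidHom_eq_coe,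
      MonoidHom.coe_coe]
    split_ifs at this ⊢ <;> linear_combination this

lemma exists_root (k : Type u) [Field k] [IsAlgClosed k] :
    ∃ (l : ℕ) (ζ : k) (σ : k ≃+* k) (j : ℕ), l.Prime ∧ 11 ≤ l ∧ (l : k) ≠ 0 ∧
      IsPrimitiveRoot ζ l ∧ 2 ≤ j ∧ j + 2 ≤ l ∧ σ ζ = ζ ^ j := by
  by_cases h0 : ringChar k = 0
  · have : CharP k 0 := h0 ▸ ringChar.charP k
    have : CharZero k := CharP.charP_to_charZero k
    let F := CyclotomicField 11 ℚ
    have : IsCyclotomicExtension {11} ℚ F := CyclotomicField.isCyclotomicExtension 11 ℚ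
    have : Algebra.IsAlgebraic ℚ F := Algebra.IsAlgebraic.of_finite ℚ F
    let φ : F →ₐ[ℚ] k := IsAlgClosed.lift
    let _ : Algebra F k := φ.toRingHom.toAlgebra
    have hζ := IsCyclotomicExtension.zeta_spec 11 ℚ F
    have h3 := hζ.pow_of_coprime 2 (by norm_num)
    obtain ⟨σ, hσ⟩ := extend_aut (k := k) (IsCyclotomicExtension.fromZetaAut h3
      (Polynomial.cyclotomic.irreducible_rat (by norm_num))).toRingEquiv
    refine ⟨11, algebraMap F k (IsCyclotomicExtension.zeta 11 ℚ F), σ, 2, by norm_num, le_rfl,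
      by norm_num, hζ.map_of_injective (algebraMap F k).injective, le_rfl, by norm_num, ?_⟩
    rw [hσ, ← map_pow]
    congr 1
    exact IsCyclotomicExtension.fromZetaAut_spec h3
      (Polynomial.cyclotomic.irreducible_rat (by norm_num))
  · have hpr : (ringChar k).Prime := CharP.char_prime_of_ne_zero k h0
    have : Fact (ringChar k).Prime := ⟨hpr⟩
    obtain ⟨l, hl, hl'⟩ := Nat.exists_infinite_primes (ringChar k + 11)
    have : NeZero (l : k) := ⟨fun h => by
      have := (Nat.prime_dvd_prime_iff_eq hpr hl').1 ((ringChar.spec k l).1 h)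
      omega⟩
    have : NeZero l := ⟨hl'.ne_zero⟩
    obtain ⟨ζ, hζ⟩ := HasEnoughRootsOfUnity.exists_primitiveRoot k l
    refine ⟨l, ζ, frobeniusEquiv k (ringChar k), ringChar k, hl', by omega, NeZero.ne _, hζ,
      hpr.two_le, by omega, ?_⟩
    rw [coe_frobeniusEquiv, frobenius_def]

theorem core (k : Type u) [Field k] [IsAlgClosed k] : CoreStmt k := by
  obtain ⟨l, ζ, σ, j, hl, h11, hlk, hζ, hj, hj', hσ⟩ := exists_root k
  have : Fact l.Prime := ⟨hl⟩
  have nz : ∀ n : ℕ, 0 < n → n < l → (n : ZMod l) ≠ 0 := fun n h1 h2 e =>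
    absurd (Nat.le_of_dvd h1 ((ZMod.natCast_eq_zero_iff n l).1 e)) (by omega)
  obtain ⟨χ, hχ, hσ⟩ : ∃ χ : AddChar (ZMod l) k, GoodChar χ ∧ ∀ x, σ (χ x) = χ (j * x) := by
    refine ⟨AddChar.zmodChar l hζ.pow_eq_one, ⟨by exact_mod_cast nz 2 (by omega) (by omega),
      by exact_mod_cast nz 3 (by omega) (by omega), by exact_mod_cast nz 5 (by omega) (by omega),
      by exact_mod_cast nz 7 (by omega) (by omega), by rw [ZMod.card]; omega,
      by rwa [ZMod.card], fun x hx => ?_⟩, fun x => ?_⟩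
    · rw [AddChar.zmodChar_apply, hζ.pow_eq_one_iff_dvd] at hx
      rw [← ZMod.val_eq_zero]
      exact Nat.eq_zero_of_dvd_of_lt hx (ZMod.val_lt x)
    · rw [← nsmul_eq_mul, AddChar.map_nsmul_eq_pow, AddChar.zmodChar_apply, map_pow, hσ, ← pow_mul,
        ← pow_mul, mul_comm]
  have hχ' : GoodChar (χ.mulShift j) := by
    refine ⟨hχ.two, hχ.three, hχ.five, hχ.seven, hχ.big, hχ.card,
      fun x hx => hχ.inj x (σ.injective ?_)⟩
    rw [hσ, map_one]; exact hx
  obtain ⟨n, c, ω, o, hC⟩ := exists_Ext (ZMod l)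
  have hQ : (QQ χ c).map σ = QQ (χ.mulShift j) c := by
    simp [QQ, Binom.map, hσ, apply_ite σ]
  refine ⟨σ, core_gen σ (rigid hC hχ) (by rw [hQ]; exact rigid hC hχ')
    fun n e K _ φ γ h H₁ H₂ => iso_false hC hχ (J := j) (nz j (by omega) (by omega))
      (fun e => nz (j - 1) (by omega) (by omega) ?_) (fun e => nz (j + 1) (by omega) (by omega) ?_)
      e K φ γ h H₁ (by rwa [hQ] at H₂)⟩
  · rw [Nat.cast_sub (by omega), e]; simp
  · rw [Nat.cast_add, e]; simp

end Pool.Agent.MP_f49c72_ag.All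

end
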