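import Pool.Agent.MP_f49c72_ag.All.PartC

/-! The projective statement with the constant Hilbert polynomial made explicit. -/

namespace Pool.Agent.MP_f49c72_ag

open Module MvPolynomial

universe u

theorem mainP_const (k : Type u) [Field k] (hcore : CoreStmt k) :
    ∃ n d : ℕ, ∀ m ≥ 2,
      ∃ Z₁ ∈ @irreducibleComponents _ (zariskiP k n (Polynomial.C (d : ℚ)) m),
      ∃ Z₂ ∈ @irreducibleComponents _ (zariskiP k n (Polynomial.C (d : ℚ)) m), Z₁ ≠ Z₂ ∧
        {I ∈ Z₁ | IsMonomialIdeal I.ideal} = {I ∈ Z₂ | IsMonomialIdeal I.ideal} := by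
  obtain ⟨σ, n, γ, h, s₁, s₂, h₁, h₂, h₃⟩ := hcore
  refine ⟨n, n + 1, fun m hm => ?_⟩
  obtain ⟨m, rfl⟩ : ∃ m', m = m' + 2 := ⟨m - 2, by omega⟩
  let _ := zariskiP k n (Polynomial.C ((n + 1 : ℕ) : ℚ)) (m + 2)
  let ι : Fin (n + 1) × Fin (n + 1) × Fin (n + 1) →
      homogeneousSubmodule (Fin (n + 1)) k (m + 2) × Fin (n + 1) :=
    fun p => (qq k n m p.1 p.2.1, p.2.2)
  let ψ : MvPolynomial (Fin (n + 1)) k →ₐ[k] Alg h := aeval (Alg.basis h)
  let φ : MvPolynomial (Fin (n + 1)) k →ₐ[k] Polynomial (Alg h) :=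
    aeval fun i => Polynomial.C (Alg.basis h i) * Polynomial.X
  have hφ : ∀ f, φ f = 0 ↔ ∀ t, ψ (homogeneousComponent t f) = 0 := by
    intro f
    rw [Polynomial.ext_iff]
    exact forall_congr' fun t => by rw [coeff_aeval_T]; rfl
  have hφ' : ∀ t, ∀ f ∈ homogeneousSubmodule (Fin (n + 1)) k t, φ f = 0 ↔ ψ f = 0 := by
    intro t f hf
    rw [hφ]
    constructor
    · intro H; simpa [homogeneousComponent_of_mem hf] using H t
    · intro H s; rw [homogeneousComponent_of_mem hf]; split_ifs <;> simp [H]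
  have hψ : ∀ a i, ψ (X 0 ^ a * X i) = Alg.basis h i := by
    intro a i; simp [ψ, Alg.basis_zero]
  let p : HilbP k n (Polynomial.C ((n + 1 : ℕ) : ℚ)) :=
    { ideal := RingHom.ker φ
      homogeneous := fun f hf t =>
        (hφ' t _ (homogeneousComponent_mem t f)).2 ((hφ f).1 hf t)
      saturated := fun f hf => by
        have := hf 0
        rw [RingHom.mem_ker] at this ⊢
        simpa [φ, Alg.basis_zero] using this
      hilbert := ⟨1, fun t ht => by
        obtain ⟨t, rfl⟩ : ∃ t', t = t' + 1 := ⟨t - 1, by omega⟩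
        rw [Polynomial.eval_C, finrank_map_eq _ _ ψ.toLinearMap fun f hf =>
          Ideal.Quotient.eq_zero_iff_mem.trans (hφ' _ f hf)]
        have : (homogeneousSubmodule (Fin (n + 1)) k (t + 1)).map ψ.toLinearMap = ⊤ := by
          rw [eq_top_iff, ← (Alg.basis h).span_eq, Submodule.span_le]
          rintro _ ⟨i, rfl⟩
          exact ⟨_, (isHomogeneous_X_pow 0 t).mul (isHomogeneous_X k i), hψ t i⟩
        rw [this, finrank_top, finrank_eq_card_basis (Alg.basis h), Fintype.card_fin]⟩ }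
  have hp : ∀ f : homogeneousSubmodule (Fin (n + 1)) k (m + 2), (f : MvPolynomial (Fin (n + 1)) k) -
      ∑ i, (Alg.basis h).repr (ψ f) i • (bb k n m i : MvPolynomial (Fin (n + 1)) k) ∈ p.ideal := by
    intro f
    refine (hφ' (m + 2) _ (sub_mem f.2 (Submodule.sum_mem _ fun i _ =>
      Submodule.smul_mem _ _ (bb k n m i).2))).2 ?_
    simp only [bb, map_sub, map_sum, map_smul, hψ, Basis.sum_repr, sub_self]
  have hγ : ∀ i j l, (Alg.basis h).repr (ψ (qq k n m i j)) l = γ i j l := fun i j l => by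
    simp [ψ, qq, Alg.basis_zero, Alg.basis_mul, Finsupp.single_apply]
  let T : HilbP k n (Polynomial.C ((n + 1 : ℕ) : ℚ)) ≃ HilbP k n (Polynomial.C ((n + 1 : ℕ) : ℚ)) :=
    ⟨HilbP.act σ.symm, HilbP.act σ, fun I => HilbP.ext' (comap_comap_symm σ.symm I.ideal),
      fun I => HilbP.ext' (comap_comap_symm σ I.ideal)⟩
  refine two_components T (HilbP.continuous_act _ _) (HilbP.continuous_act _ _) _
    (fun I hI => HilbP.ext' (hI.comap σ.symm)) (p := p)
    (TopologicalSpace.isOpen_generateFrom_of_mem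
      ⟨n + 1, Polynomial.eval_C.symm, bb k n m, rename ι s₁, rfl⟩)
    (TopologicalSpace.isOpen_generateFrom_of_mem
      ⟨n + 1, Polynomial.eval_C.symm, bb k n m, rename ι s₂, rfl⟩) ?_ ?_ ?_
  · refine ⟨fun q => (Alg.basis h).repr (ψ q.1) q.2, hp, ?_⟩
    rw [eval_rename]
    convert h₁ using 3
    funext q; exact hγ _ _ _
  · have hb : ∀ i, map (σ.symm : k →+* k) (bb k n m i : MvPolynomial (Fin (n + 1)) k) =
        bb k n m i := by
      intro i; simp [bb]
    have hq : ∀ i j, map (σ.symm : k →+* k) (qq k n m i j : MvPolynomial (Fin (n + 1)) k) =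
        qq k n m i j := by
      intro i j; simp [qq]
    refine ⟨fun q => σ ((Alg.basis h).repr (ψ (map (σ.symm : k →+* k) q.1)) q.2), fun f => ?_, ?_⟩
    · change map (σ.symm : k →+* k) _ ∈ p.ideal
      rw [map_smul_sum]
      simp only [hb, σ.symm_apply_apply]
      exact hp (formEquiv σ.symm _ f)
    · rw [eval_rename]
      convert h₂ using 3
      funext q
      simp only [Function.comp_apply, ι, hq, hγ]
  · rintro I ⟨c, hc, hc1⟩ ⟨c', hc', hc2⟩
    have e : c' = c := by
      funext ⟨f, l⟩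
      have := I.indep hc (m + 1) (fun l => c' (f, l) - c (f, l)) (by
        convert sub_mem (hc f) (hc' f) using 1
        simp [sub_smul, Finset.sum_sub_distrib, bb]) l
      exact sub_eq_zero.1 this
    subst e
    rw [eval_rename] at hc1 hc2
    have := h₃ _ (I.valid hc)
    refine mul_ne_zero hc1 hc2 ?_
    convert this using 4 <;> rfl

end Pool.Agent.MP_f49c72_ag
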